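import Mathlib

/-!
Propositional formulas over a finite functionally complete set of connectives, Frege systems and
extended Frege systems; derivations with bounds for the number of lines and the size of a line.
-/

set_option autoImplicit false

namespace Pool.Agent.T9h49.FE

/-- a finite set of connectives with their arities and truth tables -/
structure Basis where
  Con : Type
  fin : Finite Con
  ar : Con → ℕ
  tt : (b : Con) → (Fin (ar b) → Bool) → Bool

/-- formulas over the basis `B`; the variables are the natural numbers -/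
inductive Fm (B : Basis) : Type
  | var : ℕ → Fm B
  | app : (b : B.Con) → (Fin (B.ar b) → Fm B) → Fm B

namespace Fm

variable {B : Basis}

/-- truth value under the assignment `v` -/
def eval (v : ℕ → Bool) : Fm B → Bool
  | var i => v i
  | app b f => B.tt b (fun i => eval v (f i))

/-- number of symbols: occurrences of variables and of connectives -/
def size : Fm B → ℕ
  | var _ => 1
  | app _ f => 1 + ∑ i, size (f i)

/-- simultaneous substitution -/
def subst (σ : ℕ → Fm B) : Fm B → Fm B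
  | var i => σ i
  | app b f => app b (fun i => subst σ (f i))

/-- the variables of a formula -/
def vars : Fm B → Finset ℕ
  | var i => {i}
  | app _ f => Finset.univ.biUnion (fun i => vars (f i))

theorem size_pos (φ : Fm B) : 1 ≤ φ.size := by
  cases φ <;> simp [size]

theorem eval_subst (v : ℕ → Bool) (σ : ℕ → Fm B) (φ : Fm B) :
    (φ.subst σ).eval v = φ.eval (fun i => (σ i).eval v) := by
  induction φ with
  | var i => rfl
  | app b f ih =>
    simp only [subst, eval]
    congr 1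
    funext i
    exact ih i

theorem subst_subst (σ ρ : ℕ → Fm B) (φ : Fm B) :
    (φ.subst σ).subst ρ = φ.subst (fun i => (σ i).subst ρ) := by
  induction φ with
  | var i => rfl
  | app b f ih =>
    simp only [subst]
    congr 1
    funext i
    exact ih i

theorem subst_congr {σ ρ : ℕ → Fm B} {φ : Fm B} (h : ∀ i ∈ φ.vars, σ i = ρ i) :
    φ.subst σ = φ.subst ρ := by
  induction φ with
  | var i => exact h i (by simp [vars])
  | app b f ih =>
    simp only [subst]
    congr 1
    funext i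
    refine ih i fun j hj => h j ?_
    simp only [vars, Finset.mem_biUnion, Finset.mem_univ, true_and]
    exact ⟨i, hj⟩

theorem subst_var (φ : Fm B) : φ.subst var = φ := by
  induction φ with
  | var i => rfl
  | app b f ih =>
    simp only [subst]
    congr 1
    funext i
    exact ih i

theorem eval_congr {v w : ℕ → Bool} {φ : Fm B} (h : ∀ i ∈ φ.vars, v i = w i) :
    φ.eval v = φ.eval w := by
  induction φ with
  | var i => exact h i (by simp [vars])
  | app b f ih =>
    simp only [eval]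
    congr 1
    funext i
    refine ih i fun j hj => h j ?_
    simp only [vars, Finset.mem_biUnion, Finset.mem_univ, true_and]
    exact ⟨i, hj⟩

theorem size_subst_le {σ : ℕ → Fm B} {M : ℕ} (hM : 1 ≤ M) {φ : Fm B}
    (h : ∀ i ∈ φ.vars, (σ i).size ≤ M) : (φ.subst σ).size ≤ φ.size * M := by
  induction φ with
  | var i => simpa [subst, size] using h i (by simp [vars])
  | app b f ih =>
    simp only [subst, size, add_mul, Finset.sum_mul, one_mul]
    refine Nat.add_le_add hM (Finset.sum_le_sum fun i _ => ih i fun j hj => h j ?_)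
    simp only [vars, Finset.mem_biUnion, Finset.mem_univ, true_and]
    exact ⟨i, hj⟩

theorem size_le_subst (σ : ℕ → Fm B) {φ : Fm B} {i : ℕ} (h : i ∈ φ.vars) :
    (σ i).size ≤ (φ.subst σ).size := by
  induction φ with
  | var j =>
    simp only [vars, Finset.mem_singleton] at h
    subst h
    exact le_rfl
  | app b f ih =>
    simp only [vars, Finset.mem_biUnion, Finset.mem_univ, true_and] at h
    obtain ⟨j, hj⟩ := h
    simp only [subst, size]
    have h1 := ih j hj
    have h2 : ((f j).subst σ).size ≤ ∑ i, ((f i).subst σ).size :=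
      Finset.single_le_sum (f := fun i => ((f i).subst σ).size) (fun _ _ => Nat.zero_le _)
        (Finset.mem_univ j)
    omega

theorem mem_vars_subst {σ : ℕ → Fm B} {φ : Fm B} {j : ℕ} :
    j ∈ (φ.subst σ).vars ↔ ∃ i ∈ φ.vars, j ∈ (σ i).vars := by
  induction φ with
  | var i => simp [subst, vars]
  | app b f ih =>
    simp only [subst, vars, Finset.mem_biUnion, Finset.mem_univ, true_and, ih]
    constructor
    · rintro ⟨a, i, h1, h2⟩
      exact ⟨i, ⟨a, h1⟩, h2⟩
    · rintro ⟨i, ⟨a, h1⟩, h2⟩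
      exact ⟨a, i, h1, h2⟩

theorem card_vars_le (φ : Fm B) : φ.vars.card ≤ φ.size := by
  induction φ with
  | var i => simp [vars, size]
  | app b f ih =>
    simp only [vars, size]
    refine (Finset.card_biUnion_le).trans ?_
    exact (Finset.sum_le_sum fun i _ => ih i).trans (Nat.le_add_left _ _)

end Fm

/-- an inference rule: schematic premises and a schematic conclusion (an axiom schema has no
premises) -/
structure Rule (B : Basis) where
  prem : List (Fm B)
  conc : Fm B

/-- `Der R Γ π`: the list `π` (latest line first) is a derivation by the rules `R` from the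
hypotheses `Γ` -/
inductive Der {B : Basis} (R : List (Rule B)) (Γ : Set (Fm B)) : List (Fm B) → Prop
  | nil : Der R Γ []
  | hyp {π : List (Fm B)} {φ : Fm B} : Der R Γ π → φ ∈ Γ → Der R Γ (φ :: π)
  | rule {π : List (Fm B)} {r : Rule B} (σ : ℕ → Fm B) : Der R Γ π → r ∈ R →
      (∀ p ∈ r.prem, p.subst σ ∈ π) → Der R Γ (r.conc.subst σ :: π)

/-- A Frege system: a finite functionally complete basis and finitely many rules, which are sound
and implicationally complete. The formula `iff` in the variables `0` and `1` expresses the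
equivalence; it is used in the extension rule. -/
structure FregeSystem where
  B : Basis
  functionallyComplete : ∀ (n : ℕ) (g : (Fin n → Bool) → Bool), 0 < n →
    ∃ φ : Fm B, φ.vars ⊆ Finset.range n ∧ ∀ v : ℕ → Bool, φ.eval v = g (fun i => v i)
  rules : List (Rule B)
  sound : ∀ r ∈ rules, ∀ v : ℕ → Bool, (∀ p ∈ r.prem, p.eval v = true) → r.conc.eval v = true
  implicationallyComplete : ∀ (Γ : List (Fm B)) (φ : Fm B),
    (∀ v : ℕ → Bool, (∀ p ∈ Γ, p.eval v = true) → φ.eval v = true) →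
      ∃ π, Der rules {p | p ∈ Γ} π ∧ φ ∈ π
  iff : Fm B
  iff_vars : iff.vars ⊆ {0, 1}
  iff_eval : ∀ v : ℕ → Bool, iff.eval v = (v 0 == v 1)

/-- substitution of two formulas for the variables `0` and `1` -/
def sub2 {B : Basis} (a b : Fm B) : ℕ → Fm B := fun i => if i = 0 then a else b

/-- the formula `a ↔ b` -/
def FregeSystem.eqv (F : FregeSystem) (a b : Fm F.B) : Fm F.B := F.iff.subst (sub2 a b)

/-- size of a proof: total number of symbols -/
def lsize {B : Basis} (π : List (Fm B)) : ℕ := (π.map Fm.size).sum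

/-- a Frege proof of `τ` -/
def IsProof (F : FregeSystem) (τ : Fm F.B) (π : List (Fm F.B)) : Prop :=
  Der F.rules ∅ π ∧ τ ∈ π

/-- `EDer F τ D π`: the list `π` (latest line first) is a derivation in extended Frege whose
extension axioms are `q ↔ φ` for the pairs `(q, φ)` in `D` (latest first), where `q` does not occur
in `φ`, in an earlier line, or in `τ` -/
inductive EDer (F : FregeSystem) (τ : Fm F.B) : List (ℕ × Fm F.B) → List (Fm F.B) → Prop
  | nil : EDer F τ [] []
  | rule {D : List (ℕ × Fm F.B)} {π : List (Fm F.B)} {r : Rule F.B} (σ : ℕ → Fm F.B) :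
      EDer F τ D π → r ∈ F.rules → (∀ p ∈ r.prem, p.subst σ ∈ π) →
      EDer F τ D (r.conc.subst σ :: π)
  | ext {D : List (ℕ × Fm F.B)} {π : List (Fm F.B)} (q : ℕ) (φ : Fm F.B) :
      EDer F τ D π → q ∉ φ.vars → q ∉ τ.vars → (∀ ψ ∈ π, q ∉ ψ.vars) →
      EDer F τ ((q, φ) :: D) (F.eqv (Fm.var q) φ :: π)

/-- an extended Frege proof of `τ` with extension axioms `D` -/
def IsEProof (F : FregeSystem) (τ : Fm F.B) (D : List (ℕ × Fm F.B)) (π : List (Fm F.B)) : Prop :=
  EDer F τ D π ∧ τ ∈ π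

/-! ### derivations with bounds -/

/-- from `Γ` all of `Δ` is derived with at most `n` lines of size at most `m` -/
def Ded (F : FregeSystem) (m n : ℕ) (Γ Δ : Set (Fm F.B)) : Prop :=
  ∃ π, Der F.rules Γ π ∧ (∀ ψ ∈ π, ψ.size ≤ m) ∧ π.length ≤ n ∧ ∀ ψ ∈ Δ, ψ ∈ π

section

variable {F : FregeSystem}

theorem Der.mono {B : Basis} {R : List (Rule B)} {Γ Γ' : Set (Fm B)} {π : List (Fm B)}
    (h : Der R Γ π) (hΓ : ∀ ψ ∈ Γ, ψ ∈ Γ') : Der R Γ' π := by
  induction h with
  | nil => exact Der.nil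
  | hyp _ h ih => exact Der.hyp ih (hΓ _ h)
  | rule σ _ h1 h2 ih => exact Der.rule σ ih h1 h2

theorem Der.subst {B : Basis} {R : List (Rule B)} {Γ : Set (Fm B)} {π : List (Fm B)}
    (h : Der R Γ π) (σ : ℕ → Fm B) : Der R (Fm.subst σ '' Γ) (π.map (Fm.subst σ)) := by
  induction h with
  | nil => exact Der.nil
  | hyp _ h ih => exact Der.hyp ih ⟨_, h, rfl⟩
  | rule ρ _ h1 h2 ih =>
    rw [List.map_cons, Fm.subst_subst]
    refine Der.rule _ ih h1 fun p hp => ?_
    rw [← Fm.subst_subst]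
    exact List.mem_map_of_mem (h2 p hp)

theorem Ded.mono {m n m' n' : ℕ} {Γ Δ Γ' Δ' : Set (Fm F.B)} (h : Ded F m n Γ Δ)
    (hm : m ≤ m') (hn : n ≤ n') (hΓ : ∀ ψ ∈ Γ, ψ ∈ Γ') (hΔ : ∀ ψ ∈ Δ', ψ ∈ Δ) :
    Ded F m' n' Γ' Δ' := by
  obtain ⟨π, h1, h2, h3, h4⟩ := h
  exact ⟨π, h1.mono hΓ, fun ψ hψ => (h2 ψ hψ).trans hm, h3.trans hn, fun ψ hψ => h4 ψ (hΔ ψ hψ)⟩

theorem Der.join {B : Basis} {R : List (Rule B)} {Γ Δ : Set (Fm B)} {π : List (Fm B)}
    (h : Der R Γ π) (hΔ : ∀ ψ ∈ Δ, ψ ∈ π) {π' : List (Fm B)} (h' : Der R (Γ ∪ Δ) π') :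
    ∃ π'', Der R Γ π'' ∧ (∀ ψ ∈ π, ψ ∈ π'') ∧ (∀ ψ ∈ π', ψ ∈ π'') ∧
      (∀ ψ ∈ π'', ψ ∈ π ∨ ψ ∈ π') ∧ π''.length ≤ π.length + π'.length := by
  induction h' with
  | nil => exact ⟨π, h, fun _ h => h, fun _ h => absurd h List.not_mem_nil, fun _ h => Or.inl h,
      by simp⟩
  | @hyp π' φ _ hφ ih =>
    obtain ⟨π'', h1, h2, h3, h4, h5⟩ := ih
    rcases hφ with hφ | hφ
    · refine ⟨φ :: π'', Der.hyp h1 hφ, fun ψ hψ => List.mem_cons_of_mem _ (h2 ψ hψ), ?_, ?_, ?_⟩
      · intro ψ hψ
        rcases List.mem_cons.1 hψ with rfl | hψ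
        · exact List.mem_cons_self
        · exact List.mem_cons_of_mem _ (h3 ψ hψ)
      · intro ψ hψ
        rcases List.mem_cons.1 hψ with rfl | hψ
        · exact Or.inr List.mem_cons_self
        · rcases h4 ψ hψ with h | h
          · exact Or.inl h
          · exact Or.inr (List.mem_cons_of_mem _ h)
      · simp only [List.length_cons]; omega
    · refine ⟨π'', h1, h2, ?_, ?_, ?_⟩
      · intro ψ hψ
        rcases List.mem_cons.1 hψ with rfl | hψ
        · exact h2 _ (hΔ _ hφ)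
        · exact h3 ψ hψ
      · intro ψ hψ
        rcases h4 ψ hψ with h | h
        · exact Or.inl h
        · exact Or.inr (List.mem_cons_of_mem _ h)
      · simp only [List.length_cons]; omega
  | @rule π' r σ _ hr hp ih =>
    obtain ⟨π'', h1, h2, h3, h4, h5⟩ := ih
    refine ⟨_, Der.rule σ h1 hr fun p hpr => h3 _ (hp p hpr),
      fun ψ hψ => List.mem_cons_of_mem _ (h2 ψ hψ), ?_, ?_, ?_⟩
    · intro ψ hψ
      rcases List.mem_cons.1 hψ with rfl | hψ
      · exact List.mem_cons_self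
      · exact List.mem_cons_of_mem _ (h3 ψ hψ)
    · intro ψ hψ
      rcases List.mem_cons.1 hψ with rfl | hψ
      · exact Or.inr List.mem_cons_self
      · rcases h4 ψ hψ with h | h
        · exact Or.inl h
        · exact Or.inr (List.mem_cons_of_mem _ h)
    · simp only [List.length_cons]; omega

theorem Ded.trans {m n n' : ℕ} {Γ Δ Δ' : Set (Fm F.B)} (h : Ded F m n Γ Δ)
    (h' : Ded F m n' (Γ ∪ Δ) Δ') : Ded F m (n + n') Γ (Δ ∪ Δ') := by
  obtain ⟨π, h1, h2, h3, h4⟩ := h
  obtain ⟨π', h1', h2', h3', h4'⟩ := h'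
  obtain ⟨π'', g1, g2, g3, g4, g5⟩ := h1.join h4 h1'
  refine ⟨π'', g1, ?_, by omega, ?_⟩
  · intro ψ hψ
    rcases g4 ψ hψ with h | h
    · exact h2 ψ h
    · exact h2' ψ h
  · rintro ψ (hψ | hψ)
    · exact g2 ψ (h4 ψ hψ)
    · exact g3 ψ (h4' ψ hψ)

theorem Ded.union {m n n' : ℕ} {Γ Δ Δ' : Set (Fm F.B)} (h : Ded F m n Γ Δ)
    (h' : Ded F m n' Γ Δ') : Ded F m (n + n') Γ (Δ ∪ Δ') :=
  h.trans (h'.mono le_rfl le_rfl (fun _ h => Or.inl h) (fun _ h => h))

theorem Ded.cut {m n n' : ℕ} {Γ Δ Δ' : Set (Fm F.B)} (h : Ded F m n Γ Δ)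
    (h' : Ded F m n' Δ Δ') : Ded F m (n + n') Γ Δ' :=
  (h.trans (h'.mono le_rfl le_rfl (fun _ h => Or.inr h) (fun _ h => h))).mono le_rfl le_rfl
    (fun _ h => h) (fun _ h => Or.inr h)

theorem Ded.empty {m n : ℕ} {Γ : Set (Fm F.B)} : Ded F m n Γ ∅ :=
  ⟨[], Der.nil, by simp, by simp, by simp⟩

/-- union over a list of goals -/
theorem Ded.list {ι : Type} {m n : ℕ} {Γ : Set (Fm F.B)} (l : List ι) (g : ι → Fm F.B)
    (h : ∀ i ∈ l, Ded F m n Γ {g i}) : Ded F m (l.length * n) Γ {ψ | ∃ i ∈ l, ψ = g i} := by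
  induction l with
  | nil => exact Ded.empty.mono le_rfl le_rfl (fun _ h => h) (by simp)
  | cons a l ih =>
    have h1 := h a List.mem_cons_self
    have h2 := ih fun i hi => h i (List.mem_cons_of_mem _ hi)
    refine (h1.union h2).mono le_rfl ?_ (fun _ h => h) ?_
    · simp only [List.length_cons]; ring_nf; exact le_rfl
    · rintro ψ ⟨i, hi, rfl⟩
      rcases List.mem_cons.1 hi with rfl | hi
      · exact Or.inl rfl
      · exact Or.inr ⟨i, hi, rfl⟩

theorem Ded.proof {m n : ℕ} {τ : Fm F.B} (h : Ded F m n ∅ {τ}) :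
    ∃ π, IsProof F τ π ∧ lsize π ≤ n * m := by
  obtain ⟨π, h1, h2, h3, h4⟩ := h
  refine ⟨π, ⟨h1, h4 τ rfl⟩, ?_⟩
  refine le_trans ?_ (Nat.mul_le_mul_right m h3)
  unfold lsize
  have := List.sum_le_card_nsmul (π.map Fm.size) m (by
    intro x hx
    obtain ⟨ψ, hψ, rfl⟩ := List.mem_map.1 hx
    exact h2 ψ hψ)
  simpa using this

/-! ### schematic derivations -/

theorem schem_aux (Γ : List (Fm F.B)) (φ : Fm F.B)
    (h : ∀ v : ℕ → Bool, (∀ p ∈ Γ, p.eval v = true) → φ.eval v = true) :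
    ∃ κ, ∀ (σ : ℕ → Fm F.B) (M : ℕ), (∀ i, (σ i).size ≤ M) →
      Ded F (κ * M) κ {ψ | ∃ p ∈ Γ, ψ = p.subst σ} {φ.subst σ} := by
  obtain ⟨π, h1, h2⟩ := F.implicationallyComplete Γ φ h
  refine ⟨lsize π + π.length, fun σ M hM => ?_⟩
  have hM1 : 1 ≤ M := (Fm.size_pos _).trans (hM 0)
  refine ⟨π.map (Fm.subst σ), (h1.subst σ).mono ?_, ?_, by simp, ?_⟩
  · rintro ψ ⟨p, hp, rfl⟩
    exact ⟨p, hp, rfl⟩
  · intro ψ hψ
    obtain ⟨χ, hχ, rfl⟩ := List.mem_map.1 hψ
    refine (Fm.size_subst_le hM1 fun i _ => hM i).trans ?_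
    have h3 : χ.size ≤ lsize π := List.single_le_sum (by simp) _ (List.mem_map_of_mem hχ)
    exact Nat.mul_le_mul_right _ (by omega)
  · intro ψ hψ
    rw [Set.mem_singleton_iff] at hψ
    subst hψ
    exact List.mem_map_of_mem h2

open Classical in
/-- the constant of a schematic inference -/
noncomputable def kap (F : FregeSystem) (Γ : List (Fm F.B)) (φ : Fm F.B) : ℕ :=
  if h : ∀ v : ℕ → Bool, (∀ p ∈ Γ, p.eval v = true) → φ.eval v = true then
    Classical.choose (schem_aux Γ φ h) else 0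

theorem schem {Γ : List (Fm F.B)} {φ : Fm F.B}
    (h : ∀ v : ℕ → Bool, (∀ p ∈ Γ, p.eval v = true) → φ.eval v = true) (σ : ℕ → Fm F.B) (M : ℕ)
    (hM : ∀ i, (σ i).size ≤ M) :
    Ded F (kap F Γ φ * M) (kap F Γ φ) {ψ | ∃ p ∈ Γ, ψ = p.subst σ} {φ.subst σ} := by
  unfold kap
  rw [dif_pos h]
  exact Classical.choose_spec (schem_aux Γ φ h) σ M hM

/-! ### derived connectives -/

theorem rep2_aux (F : FregeSystem) (g : Bool → Bool → Bool) :
    ∃ φ : Fm F.B, ∀ v : ℕ → Bool, φ.eval v = g (v 0) (v 1) := by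
  obtain ⟨φ, _, h⟩ := F.functionallyComplete 2 (fun a => g (a 0) (a 1)) (by norm_num)
  exact ⟨φ, fun v => by rw [h]; rfl⟩

/-- a formula for a binary truth function -/
noncomputable def rep2 (F : FregeSystem) (g : Bool → Bool → Bool) : Fm F.B :=
  Classical.choose (rep2_aux F g)

theorem eval_rep2 (g : Bool → Bool → Bool) (v : ℕ → Bool) :
    (rep2 F g).eval v = g (v 0) (v 1) := Classical.choose_spec (rep2_aux F g) v

/-- a binary connective -/
noncomputable def op2 (F : FregeSystem) (g : Bool → Bool → Bool) (a b : Fm F.B) : Fm F.B :=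
  (rep2 F g).subst (sub2 a b)

theorem eval_op2 (g : Bool → Bool → Bool) (a b : Fm F.B) (v : ℕ → Bool) :
    (op2 F g a b).eval v = g (a.eval v) (b.eval v) := by
  rw [op2, Fm.eval_subst, eval_rep2]
  simp [sub2]

theorem sub2_subst (a b : Fm F.B) (σ : ℕ → Fm F.B) (i : ℕ) :
    (sub2 a b i).subst σ = sub2 (a.subst σ) (b.subst σ) i := by
  unfold sub2
  split <;> rfl

theorem subst_op2 (g : Bool → Bool → Bool) (a b : Fm F.B) (σ : ℕ → Fm F.B) :
    (op2 F g a b).subst σ = op2 F g (a.subst σ) (b.subst σ) := by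
  rw [op2, op2, Fm.subst_subst]
  exact Fm.subst_congr fun i _ => sub2_subst a b σ i

theorem size_op2 (g : Bool → Bool → Bool) {a b : Fm F.B} {M : ℕ} (ha : a.size ≤ M)
    (hb : b.size ≤ M) : (op2 F g a b).size ≤ (rep2 F g).size * M := by
  refine Fm.size_subst_le ((Fm.size_pos a).trans ha) fun i _ => ?_
  unfold sub2
  split
  · exact ha
  · exact hb

theorem eval_eqv (a b : Fm F.B) (v : ℕ → Bool) :
    (F.eqv a b).eval v = (a.eval v == b.eval v) := by
  rw [FregeSystem.eqv, Fm.eval_subst, F.iff_eval]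
  simp [sub2]

theorem subst_eqv (a b : Fm F.B) (σ : ℕ → Fm F.B) :
    (F.eqv a b).subst σ = F.eqv (a.subst σ) (b.subst σ) := by
  rw [FregeSystem.eqv, FregeSystem.eqv, Fm.subst_subst]
  exact Fm.subst_congr fun i _ => sub2_subst a b σ i

theorem size_eqv {a b : Fm F.B} {M : ℕ} (ha : a.size ≤ M)
    (hb : b.size ≤ M) : (F.eqv a b).size ≤ F.iff.size * M := by
  refine Fm.size_subst_le ((Fm.size_pos a).trans ha) fun i _ => ?_
  unfold sub2
  split
  · exact ha
  · exact hb

/-- implication -/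
noncomputable def imp (a b : Fm F.B) : Fm F.B := op2 F (fun x y => !x || y) a b

theorem eval_imp (a b : Fm F.B) (v : ℕ → Bool) :
    (imp a b).eval v = (!a.eval v || b.eval v) := eval_op2 _ _ _ _

theorem subst_imp (a b : Fm F.B) (σ : ℕ → Fm F.B) :
    (imp a b).subst σ = imp (a.subst σ) (b.subst σ) := subst_op2 _ _ _ _

/-- a constant, with a parameter -/
noncomputable def ct (b : Bool) (x : Fm F.B) : Fm F.B := op2 F (fun _ _ => b) x x

theorem eval_ct (b : Bool) (x : Fm F.B) (v : ℕ → Bool) : (ct b x).eval v = b := eval_op2 _ _ _ _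

theorem subst_ct (b : Bool) (x : Fm F.B) (σ : ℕ → Fm F.B) :
    (ct b x).subst σ = ct b (x.subst σ) := subst_op2 _ _ _ _

end

end Pool.Agent.T9h49.FE
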