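import Pool.Agent.T9h49.FE.Regs

/-!
Balanced sums with short Frege proofs of their laws. The sum is exclusive or inclusive disjunction,
the product is conjunction.
-/

set_option autoImplicit false

namespace Pool.Agent.T9h49.FE

/-- Formulas (in the variables `0`, `1`) for an addition, which is inclusive or exclusive
disjunction, and for conjunction. -/
structure Arith (F : FregeSystem) where
  pl : Fm F.B
  an : Fm F.B
  pl_vars : pl.vars ⊆ {0, 1}
  an_vars : an.vars ⊆ {0, 1}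
  pl_eval : (∀ v : ℕ → Bool, pl.eval v = (v 0 || v 1)) ∨ ∀ v : ℕ → Bool, pl.eval v = (v 0 ^^ v 1)
  an_eval : ∀ v : ℕ → Bool, an.eval v = (v 0 && v 1)

variable {F : FregeSystem} (R : Arith F)

/-- sum of two formulas -/
def Arith.pls (a b : Fm F.B) : Fm F.B := R.pl.subst (sub2 a b)

/-- product of two formulas -/
def Arith.adn (a b : Fm F.B) : Fm F.B := R.an.subst (sub2 a b)

theorem subst_pls (a b : Fm F.B) (σ : ℕ → Fm F.B) :
    (R.pls a b).subst σ = R.pls (a.subst σ) (b.subst σ) := by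
  rw [Arith.pls, Arith.pls, Fm.subst_subst]
  exact Fm.subst_congr fun i _ => sub2_subst a b σ i

theorem subst_adn (a b : Fm F.B) (σ : ℕ → Fm F.B) :
    (R.adn a b).subst σ = R.adn (a.subst σ) (b.subst σ) := by
  rw [Arith.adn, Arith.adn, Fm.subst_subst]
  exact Fm.subst_congr fun i _ => sub2_subst a b σ i

theorem eval_pls (v : ℕ → Bool) : (∀ a b : Fm F.B, (R.pls a b).eval v = (a.eval v || b.eval v)) ∨
    ∀ a b : Fm F.B, (R.pls a b).eval v = (a.eval v ^^ b.eval v) := by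
  rcases R.pl_eval with h | h
  · left
    intro a b
    rw [Arith.pls, Fm.eval_subst, h]
    simp [sub2]
  · right
    intro a b
    rw [Arith.pls, Fm.eval_subst, h]
    simp [sub2]

theorem eval_adn (a b : Fm F.B) (v : ℕ → Bool) :
    (R.adn a b).eval v = (a.eval v && b.eval v) := by
  rw [Arith.adn, Fm.eval_subst, R.an_eval]
  simp [sub2]

/-- growth factor -/
def Arith.kk : ℕ := R.pl.size + R.an.size

theorem kk_pos : 1 ≤ R.kk := by
  unfold Arith.kk
  have := Fm.size_pos R.pl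
  omega

theorem size_pls {a b : Fm F.B} {m : ℕ} (ha : a.size ≤ m) (hb : b.size ≤ m) :
    (R.pls a b).size ≤ R.kk * m := by
  have h : (R.pls a b).size ≤ R.pl.size * m := by
    refine Fm.size_subst_le ((Fm.size_pos a).trans ha) fun i _ => ?_
    unfold sub2
    split
    · exact ha
    · exact hb
  exact h.trans (Nat.mul_le_mul_right _ (Nat.le_add_right _ _))

theorem size_adn {a b : Fm F.B} {m : ℕ} (ha : a.size ≤ m) (hb : b.size ≤ m) :
    (R.adn a b).size ≤ R.kk * m := by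
  have h : (R.adn a b).size ≤ R.an.size * m := by
    refine Fm.size_subst_le ((Fm.size_pos a).trans ha) fun i _ => ?_
    unfold sub2
    split
    · exact ha
    · exact hb
  exact h.trans (Nat.mul_le_mul_right _ (Nat.le_add_left _ _))

/-! ### schematic equations -/

theorem schemEq (A B : Fm F.B) (h : ∀ v, A.eval v = B.eval v) (ρ : ℕ → Fm F.B) {m : ℕ}
    (hρ : ∀ i, (ρ i).size ≤ m) (Γ : Set (Fm F.B)) :
    Ded F (kap F [] (F.eqv A B) * m) (kap F [] (F.eqv A B)) Γ
      {F.eqv (A.subst ρ) (B.subst ρ)} := by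
  have h := schem (F := F) (Γ := []) (φ := F.eqv A B) (by
    intro v _
    rw [eval_eqv, h v]
    simp) ρ m hρ
  refine h.mono le_rfl le_rfl ?_ ?_
  · rintro ψ ⟨p, hp, _⟩
    exact absurd hp List.not_mem_nil
  · intro ψ hψ
    rw [Set.mem_singleton_iff] at hψ ⊢
    rw [hψ, subst_eqv]

/-- substitution for four schematic variables -/
def sub4 (a b c d : Fm F.B) : ℕ → Fm F.B := fun i =>
  if i = 0 then a else if i = 1 then b else if i = 2 then c else d

theorem sub4_size {a b c d : Fm F.B} {m : ℕ} (ha : a.size ≤ m) (hb : b.size ≤ m)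
    (hc : c.size ≤ m) (hd : d.size ≤ m) (i : ℕ) : (sub4 a b c d i).size ≤ m := by
  unfold sub4
  split
  · exact ha
  · split
    · exact hb
    · split
      · exact hc
      · exact hd

noncomputable def kPls : ℕ := kap F [F.eqv (Fm.var 0) (Fm.var 1), F.eqv (Fm.var 2) (Fm.var 3)]
  (F.eqv (R.pls (Fm.var 0) (Fm.var 2)) (R.pls (Fm.var 1) (Fm.var 3)))

noncomputable def kAdn : ℕ := kap F [F.eqv (Fm.var 0) (Fm.var 1), F.eqv (Fm.var 2) (Fm.var 3)]
  (F.eqv (R.adn (Fm.var 0) (Fm.var 2)) (R.adn (Fm.var 1) (Fm.var 3)))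

noncomputable def kMed : ℕ := kap F [] (F.eqv
  (R.pls (R.pls (Fm.var 0) (Fm.var 1)) (R.pls (Fm.var 2) (Fm.var 3)))
  (R.pls (R.pls (Fm.var 0) (Fm.var 2)) (R.pls (Fm.var 1) (Fm.var 3))))

noncomputable def kDis : ℕ := kap F [] (F.eqv
  (R.pls (R.adn (Fm.var 0) (Fm.var 1)) (R.adn (Fm.var 0) (Fm.var 2)))
  (R.adn (Fm.var 0) (R.pls (Fm.var 1) (Fm.var 2))))

noncomputable def kCom : ℕ := kap F [] (F.eqv
  (R.adn (Fm.var 0) (R.adn (Fm.var 1) (Fm.var 2)))
  (R.adn (Fm.var 1) (R.adn (Fm.var 0) (Fm.var 2))))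

noncomputable def kZer : ℕ := kap F [] (F.eqv
  (R.adn (Fm.var 0) (ct false (Fm.var 1))) (ct false (Fm.var 1)))

noncomputable def kOne : ℕ := kap F [] (F.eqv
  (R.adn (Fm.var 0) (ct true (Fm.var 1))) (Fm.var 0))

noncomputable def kZZ : ℕ := kap F [F.eqv (Fm.var 0) (ct false (Fm.var 3)),
  F.eqv (Fm.var 1) (ct false (Fm.var 3))] (F.eqv (R.pls (Fm.var 0) (Fm.var 1)) (ct false (Fm.var 3)))

noncomputable def kXZ : ℕ := kap F [F.eqv (Fm.var 0) (Fm.var 2),
  F.eqv (Fm.var 1) (ct false (Fm.var 3))] (F.eqv (R.pls (Fm.var 0) (Fm.var 1)) (Fm.var 2))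

noncomputable def kZX : ℕ := kap F [F.eqv (Fm.var 0) (ct false (Fm.var 3)),
  F.eqv (Fm.var 1) (Fm.var 2)] (F.eqv (R.pls (Fm.var 0) (Fm.var 1)) (Fm.var 2))

noncomputable def kUni : ℕ := kap F [F.eqv (Fm.var 1) (ct true (Fm.var 2))]
  (F.eqv (R.adn (Fm.var 0) (Fm.var 1)) (Fm.var 0))

/-- a common constant -/
noncomputable def kR : ℕ := kPls R + kAdn R + kMed R + kDis R + kCom R + kZer R + kOne R + kZZ R +
  kXZ R + kZX R + kUni R + kSym F + kTrans F + kRefl F + kCong F + F.iff.size + 1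

theorem two_hyps {A B C : Fm F.B} (h : ∀ v : ℕ → Bool, A.eval v = true → B.eval v = true →
    C.eval v = true) (ρ : ℕ → Fm F.B) {m : ℕ} (hρ : ∀ i, (ρ i).size ≤ m) :
    Ded F (kap F [A, B] C * m) (kap F [A, B] C) {A.subst ρ, B.subst ρ} {C.subst ρ} := by
  have h := schem (F := F) (Γ := [A, B]) (φ := C) (by
    intro v hv
    exact h v (hv _ List.mem_cons_self) (hv _ (List.mem_cons_of_mem _ List.mem_cons_self))) ρ m hρ
  refine h.mono le_rfl le_rfl ?_ (fun _ h => h)
  rintro ψ ⟨p, hp, rfl⟩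
  rcases List.mem_cons.1 hp with rfl | hp
  · exact Or.inl rfl
  · rw [List.mem_singleton] at hp
    subst hp
    exact Or.inr rfl

theorem ded_pls_cong {Γ : Set (Fm F.B)} {a a' b b' : Fm F.B} {m n n' s : ℕ}
    (h : Ded F m n Γ {F.eqv a a'}) (h' : Ded F m n' Γ {F.eqv b b'}) (ha : a.size ≤ s)
    (ha' : a'.size ≤ s) (hb : b.size ≤ s) (hb' : b'.size ≤ s) (hm : kR R * s ≤ m) :
    Ded F m (n + n' + kR R) Γ {F.eqv (R.pls a b) (R.pls a' b')} := by
  have h1 := two_hyps (F := F) (A := F.eqv (Fm.var 0) (Fm.var 1))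
    (B := F.eqv (Fm.var 2) (Fm.var 3))
    (C := F.eqv (R.pls (Fm.var 0) (Fm.var 2)) (R.pls (Fm.var 1) (Fm.var 3))) (by
      intro v h1 h2
      rw [eval_eqv, beq_iff_eq] at h1 h2 ⊢
      rcases eval_pls R v with h | h <;> rw [h, h, h1, h2]) (sub4 a a' b b') (m := s)
    (sub4_size ha ha' hb hb')
  refine ((h.union h').cut (h1.mono ?_ ?_ (fun ψ hψ => ?_) (fun ψ hψ => ?_))).mono le_rfl le_rfl
    (fun _ h => h) (fun _ h => h)
  · exact (Nat.mul_le_mul_right _ (by unfold kR kPls; omega)).trans hm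
  · unfold kR kPls; omega
  · rcases hψ with h | h
    · left
      rw [Set.mem_singleton_iff, h, subst_eqv]
      rfl
    · right
      rw [Set.mem_singleton_iff] at h ⊢
      rw [h, subst_eqv]
      rfl
  · rw [Set.mem_singleton_iff] at hψ ⊢
    rw [hψ, subst_eqv, subst_pls, subst_pls]
    rfl

theorem ded_adn_cong {Γ : Set (Fm F.B)} {a a' b b' : Fm F.B} {m n n' s : ℕ}
    (h : Ded F m n Γ {F.eqv a a'}) (h' : Ded F m n' Γ {F.eqv b b'}) (ha : a.size ≤ s)
    (ha' : a'.size ≤ s) (hb : b.size ≤ s) (hb' : b'.size ≤ s) (hm : kR R * s ≤ m) :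
    Ded F m (n + n' + kR R) Γ {F.eqv (R.adn a b) (R.adn a' b')} := by
  have h1 := two_hyps (F := F) (A := F.eqv (Fm.var 0) (Fm.var 1))
    (B := F.eqv (Fm.var 2) (Fm.var 3))
    (C := F.eqv (R.adn (Fm.var 0) (Fm.var 2)) (R.adn (Fm.var 1) (Fm.var 3))) (by
      intro v h1 h2
      rw [eval_eqv, beq_iff_eq] at h1 h2 ⊢
      rw [eval_adn, eval_adn, h1, h2]) (sub4 a a' b b') (m := s)
    (sub4_size ha ha' hb hb')
  refine ((h.union h').cut (h1.mono ?_ ?_ (fun ψ hψ => ?_) (fun ψ hψ => ?_))).mono le_rfl le_rfl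
    (fun _ h => h) (fun _ h => h)
  · exact (Nat.mul_le_mul_right _ (by unfold kR kAdn; omega)).trans hm
  · unfold kR kAdn; omega
  · rcases hψ with h | h
    · left
      rw [Set.mem_singleton_iff, h, subst_eqv]
      rfl
    · right
      rw [Set.mem_singleton_iff] at h ⊢
      rw [h, subst_eqv]
      rfl
  · rw [Set.mem_singleton_iff] at hψ ⊢
    rw [hψ, subst_eqv, subst_adn, subst_adn]
    rfl

theorem ded_med (a b c d : Fm F.B) {m s : ℕ} (ha : a.size ≤ s) (hb : b.size ≤ s)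
    (hc : c.size ≤ s) (hd : d.size ≤ s) (hm : kR R * s ≤ m) (Γ : Set (Fm F.B)) :
    Ded F m (kR R) Γ {F.eqv (R.pls (R.pls a b) (R.pls c d)) (R.pls (R.pls a c) (R.pls b d))} := by
  have h := schemEq (F := F)
    (R.pls (R.pls (Fm.var 0) (Fm.var 1)) (R.pls (Fm.var 2) (Fm.var 3)))
    (R.pls (R.pls (Fm.var 0) (Fm.var 2)) (R.pls (Fm.var 1) (Fm.var 3))) (by
      intro v
      rcases eval_pls R v with h | h
      · simp only [h]
        cases (Fm.var 0 : Fm F.B).eval v <;> cases (Fm.var 1 : Fm F.B).eval v <;>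
          cases (Fm.var 2 : Fm F.B).eval v <;> cases (Fm.var 3 : Fm F.B).eval v <;> rfl
      · simp only [h]
        cases (Fm.var 0 : Fm F.B).eval v <;> cases (Fm.var 1 : Fm F.B).eval v <;>
          cases (Fm.var 2 : Fm F.B).eval v <;> cases (Fm.var 3 : Fm F.B).eval v <;> rfl)
    (sub4 a b c d) (sub4_size ha hb hc hd) Γ
  refine h.mono ((Nat.mul_le_mul_right _ (by unfold kR kMed; omega)).trans hm)
    (by unfold kR kMed; omega) (fun _ h => h) (fun ψ hψ => ?_)
  rw [Set.mem_singleton_iff] at hψ ⊢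
  rw [hψ]
  simp only [subst_pls]
  rfl

theorem ded_dis (a b c : Fm F.B) {m s : ℕ} (ha : a.size ≤ s) (hb : b.size ≤ s)
    (hc : c.size ≤ s) (hm : kR R * s ≤ m) (Γ : Set (Fm F.B)) :
    Ded F m (kR R) Γ {F.eqv (R.pls (R.adn a b) (R.adn a c)) (R.adn a (R.pls b c))} := by
  have h := schemEq (F := F)
    (R.pls (R.adn (Fm.var 0) (Fm.var 1)) (R.adn (Fm.var 0) (Fm.var 2)))
    (R.adn (Fm.var 0) (R.pls (Fm.var 1) (Fm.var 2))) (by
      intro v
      rcases eval_pls R v with h | h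
      · simp only [h, eval_adn]
        cases (Fm.var 0 : Fm F.B).eval v <;> cases (Fm.var 1 : Fm F.B).eval v <;>
          cases (Fm.var 2 : Fm F.B).eval v <;> rfl
      · simp only [h, eval_adn]
        cases (Fm.var 0 : Fm F.B).eval v <;> cases (Fm.var 1 : Fm F.B).eval v <;>
          cases (Fm.var 2 : Fm F.B).eval v <;> rfl)
    (sub4 a b c c) (sub4_size ha hb hc hc) Γ
  refine h.mono ((Nat.mul_le_mul_right _ (by unfold kR kDis; omega)).trans hm)
    (by unfold kR kDis; omega) (fun _ h => h) (fun ψ hψ => ?_)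
  rw [Set.mem_singleton_iff] at hψ ⊢
  rw [hψ]
  simp only [subst_pls, subst_adn]
  rfl

theorem ded_com (a b c : Fm F.B) {m s : ℕ} (ha : a.size ≤ s) (hb : b.size ≤ s)
    (hc : c.size ≤ s) (hm : kR R * s ≤ m) (Γ : Set (Fm F.B)) :
    Ded F m (kR R) Γ {F.eqv (R.adn a (R.adn b c)) (R.adn b (R.adn a c))} := by
  have h := schemEq (F := F)
    (R.adn (Fm.var 0) (R.adn (Fm.var 1) (Fm.var 2)))
    (R.adn (Fm.var 1) (R.adn (Fm.var 0) (Fm.var 2))) (by
      intro v
      simp only [eval_adn]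
      cases (Fm.var 0 : Fm F.B).eval v <;> cases (Fm.var 1 : Fm F.B).eval v <;>
          cases (Fm.var 2 : Fm F.B).eval v <;> rfl)
    (sub4 a b c c) (sub4_size ha hb hc hc) Γ
  refine h.mono ((Nat.mul_le_mul_right _ (by unfold kR kCom; omega)).trans hm)
    (by unfold kR kCom; omega) (fun _ h => h) (fun ψ hψ => ?_)
  rw [Set.mem_singleton_iff] at hψ ⊢
  rw [hψ]
  simp only [subst_adn]
  rfl

theorem ded_zer (a : Fm F.B) {m s : ℕ} (ha : a.size ≤ s) (hm : kR R * s ≤ m)
    (Γ : Set (Fm F.B)) : Ded F m (kR R) Γ {F.eqv (R.adn a (cst F false)) (cst F false)} := by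
  have h := schemEq (F := F)
    (R.adn (Fm.var 0) (ct false (Fm.var 1))) (ct false (Fm.var 1)) (by
      intro v
      simp only [eval_adn, eval_ct]
      cases (Fm.var 0 : Fm F.B).eval v <;> rfl)
    (sub4 a (Fm.var 0) a a) (sub4_size ha ((Fm.size_pos a).trans ha) ha ha) Γ
  refine h.mono ((Nat.mul_le_mul_right _ (by unfold kR kZer; omega)).trans hm)
    (by unfold kR kZer; omega) (fun _ h => h) (fun ψ hψ => ?_)
  rw [Set.mem_singleton_iff] at hψ ⊢
  rw [hψ]
  simp only [subst_adn, subst_ct]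
  rfl

theorem ded_one (a : Fm F.B) {m s : ℕ} (ha : a.size ≤ s) (hm : kR R * s ≤ m)
    (Γ : Set (Fm F.B)) : Ded F m (kR R) Γ {F.eqv (R.adn a (cst F true)) a} := by
  have h := schemEq (F := F)
    (R.adn (Fm.var 0) (ct true (Fm.var 1))) (Fm.var 0) (by
      intro v
      simp only [eval_adn, eval_ct]
      cases (Fm.var 0 : Fm F.B).eval v <;> rfl)
    (sub4 a (Fm.var 0) a a) (sub4_size ha ((Fm.size_pos a).trans ha) ha ha) Γ
  refine h.mono ((Nat.mul_le_mul_right _ (by unfold kR kOne; omega)).trans hm)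
    (by unfold kR kOne; omega) (fun _ h => h) (fun ψ hψ => ?_)
  rw [Set.mem_singleton_iff] at hψ ⊢
  rw [hψ]
  simp only [subst_adn, subst_ct]
  rfl

theorem ded_zz {Γ : Set (Fm F.B)} {a b : Fm F.B} {m n n' s : ℕ}
    (h : Ded F m n Γ {F.eqv a (cst F false)}) (h' : Ded F m n' Γ {F.eqv b (cst F false)})
    (ha : a.size ≤ s) (hb : b.size ≤ s) (hm : kR R * s ≤ m) :
    Ded F m (n + n' + kR R) Γ {F.eqv (R.pls a b) (cst F false)} := by
  have h1 := two_hyps (F := F) (A := F.eqv (Fm.var 0) (ct false (Fm.var 3)))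
    (B := F.eqv (Fm.var 1) (ct false (Fm.var 3)))
    (C := F.eqv (R.pls (Fm.var 0) (Fm.var 1)) (ct false (Fm.var 3))) (by
      intro v h1 h2
      rw [eval_eqv, beq_iff_eq] at h1 h2 ⊢
      rcases eval_pls R v with h | h <;> rw [h, h1, h2] <;> rw [eval_ct] <;> rfl)
    (sub4 a b a (Fm.var 0)) (m := s) (sub4_size ha hb ha ((Fm.size_pos a).trans ha))
  refine ((h.union h').cut (h1.mono ?_ ?_ (fun ψ hψ => ?_) (fun ψ hψ => ?_))).mono le_rfl le_rfl
    (fun _ h => h) (fun _ h => h)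
  · exact (Nat.mul_le_mul_right _ (by unfold kR kZZ; omega)).trans hm
  · unfold kR kZZ; omega
  · rcases hψ with h | h
    · left
      rw [Set.mem_singleton_iff, h, subst_eqv, subst_ct]
      rfl
    · right
      rw [Set.mem_singleton_iff] at h ⊢
      rw [h, subst_eqv, subst_ct]
      rfl
  · rw [Set.mem_singleton_iff] at hψ ⊢
    rw [hψ, subst_eqv, subst_pls, subst_ct]
    rfl

theorem ded_xz {Γ : Set (Fm F.B)} {a b x : Fm F.B} {m n n' s : ℕ}
    (h : Ded F m n Γ {F.eqv a x}) (h' : Ded F m n' Γ {F.eqv b (cst F false)})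
    (ha : a.size ≤ s) (hb : b.size ≤ s) (hx : x.size ≤ s) (hm : kR R * s ≤ m) :
    Ded F m (n + n' + kR R) Γ {F.eqv (R.pls a b) x} := by
  have h1 := two_hyps (F := F) (A := F.eqv (Fm.var 0) (Fm.var 2))
    (B := F.eqv (Fm.var 1) (ct false (Fm.var 3)))
    (C := F.eqv (R.pls (Fm.var 0) (Fm.var 1)) (Fm.var 2)) (by
      intro v h1 h2
      rw [eval_eqv, beq_iff_eq] at h1 h2 ⊢
      rcases eval_pls R v with h | h <;> rw [h, h1, h2] <;> rw [eval_ct] <;>
        cases (Fm.var 2 : Fm F.B).eval v <;> rfl)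
    (sub4 a b x (Fm.var 0)) (m := s) (sub4_size ha hb hx ((Fm.size_pos a).trans ha))
  refine ((h.union h').cut (h1.mono ?_ ?_ (fun ψ hψ => ?_) (fun ψ hψ => ?_))).mono le_rfl le_rfl
    (fun _ h => h) (fun _ h => h)
  · exact (Nat.mul_le_mul_right _ (by unfold kR kXZ; omega)).trans hm
  · unfold kR kXZ; omega
  · rcases hψ with h | h
    · left
      rw [Set.mem_singleton_iff, h, subst_eqv]
      rfl
    · right
      rw [Set.mem_singleton_iff] at h ⊢
      rw [h, subst_eqv, subst_ct]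
      rfl
  · rw [Set.mem_singleton_iff] at hψ ⊢
    rw [hψ, subst_eqv, subst_pls]
    rfl

theorem ded_zx {Γ : Set (Fm F.B)} {a b x : Fm F.B} {m n n' s : ℕ}
    (h : Ded F m n Γ {F.eqv a (cst F false)}) (h' : Ded F m n' Γ {F.eqv b x})
    (ha : a.size ≤ s) (hb : b.size ≤ s) (hx : x.size ≤ s) (hm : kR R * s ≤ m) :
    Ded F m (n + n' + kR R) Γ {F.eqv (R.pls a b) x} := by
  have h1 := two_hyps (F := F) (A := F.eqv (Fm.var 0) (ct false (Fm.var 3)))
    (B := F.eqv (Fm.var 1) (Fm.var 2))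
    (C := F.eqv (R.pls (Fm.var 0) (Fm.var 1)) (Fm.var 2)) (by
      intro v h1 h2
      rw [eval_eqv, beq_iff_eq] at h1 h2 ⊢
      rcases eval_pls R v with h | h <;> rw [h, h1, h2] <;> rw [eval_ct] <;>
        cases (Fm.var 2 : Fm F.B).eval v <;> rfl)
    (sub4 a b x (Fm.var 0)) (m := s) (sub4_size ha hb hx ((Fm.size_pos a).trans ha))
  refine ((h.union h').cut (h1.mono ?_ ?_ (fun ψ hψ => ?_) (fun ψ hψ => ?_))).mono le_rfl le_rfl
    (fun _ h => h) (fun _ h => h)
  · exact (Nat.mul_le_mul_right _ (by unfold kR kZX; omega)).trans hm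
  · unfold kR kZX; omega
  · rcases hψ with h | h
    · left
      rw [Set.mem_singleton_iff, h, subst_eqv, subst_ct]
      rfl
    · right
      rw [Set.mem_singleton_iff] at h ⊢
      rw [h, subst_eqv]
      rfl
  · rw [Set.mem_singleton_iff] at hψ ⊢
    rw [hψ, subst_eqv, subst_pls]
    rfl

theorem ded_uni {Γ : Set (Fm F.B)} {a b : Fm F.B} {m n s : ℕ}
    (h : Ded F m n Γ {F.eqv b (cst F true)})
    (ha : a.size ≤ s) (hb : b.size ≤ s) (hm : kR R * s ≤ m) :
    Ded F m (n + kR R) Γ {F.eqv (R.adn a b) a} := by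
  have h1 := schem (F := F) (Γ := [F.eqv (Fm.var 1) (ct true (Fm.var 2))])
    (φ := F.eqv (R.adn (Fm.var 0) (Fm.var 1)) (Fm.var 0)) (by
      intro v hv
      have h1 := hv _ List.mem_cons_self
      rw [eval_eqv, beq_iff_eq, eval_ct] at h1
      rw [eval_eqv, beq_iff_eq, eval_adn, h1]
      cases (Fm.var 0 : Fm F.B).eval v <;> rfl)
    (sub4 a b (Fm.var 0) a) s (sub4_size ha hb ((Fm.size_pos a).trans ha) ha)
  refine (h.cut (h1.mono ?_ ?_ (fun ψ hψ => ?_) (fun ψ hψ => ?_))).mono le_rfl le_rfl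
    (fun _ h => h) (fun _ h => h)
  · exact (Nat.mul_le_mul_right _ (by unfold kR kUni; omega)).trans hm
  · unfold kR kUni; omega
  · obtain ⟨p, hp, rfl⟩ := hψ
    rw [List.mem_singleton] at hp
    subst hp
    rw [Set.mem_singleton_iff, subst_eqv, subst_ct]
    rfl
  · rw [Set.mem_singleton_iff] at hψ ⊢
    rw [hψ, subst_eqv, subst_adn]
    rfl

theorem ded_refl' (x : Fm F.B) {m s : ℕ} (hx : x.size ≤ s) (hm : kR R * s ≤ m)
    (Γ : Set (Fm F.B)) : Ded F m (kR R) Γ {F.eqv x x} :=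
  (ded_refl x hx Γ).mono ((Nat.mul_le_mul_right _ (by unfold kR; omega)).trans hm)
    (by unfold kR; omega) (fun _ h => h) (fun _ h => h)

theorem Ded.sym' {Γ : Set (Fm F.B)} {a b : Fm F.B} {m n s : ℕ} (h : Ded F m n Γ {F.eqv a b})
    (ha : a.size ≤ s) (hb : b.size ≤ s) (hm : kR R * s ≤ m) :
    Ded F m (n + kR R) Γ {F.eqv b a} :=
  (h.sym ha hb ((Nat.mul_le_mul_right _ (by unfold kR; omega)).trans hm)).mono le_rfl
    (by unfold kR; omega) (fun _ h => h) (fun _ h => h)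

theorem Ded.trans' {Γ : Set (Fm F.B)} {a b c : Fm F.B} {m n n' s : ℕ}
    (h : Ded F m n Γ {F.eqv a b}) (h' : Ded F m n' Γ {F.eqv b c})
    (ha : a.size ≤ s) (hb : b.size ≤ s) (hc : c.size ≤ s) (hm : kR R * s ≤ m) :
    Ded F m (n + n' + kR R) Γ {F.eqv a c} :=
  (h.eqTrans h' ha hb hc ((Nat.mul_le_mul_right _ (by unfold kR; omega)).trans hm)).mono le_rfl
    (by unfold kR; omega) (fun _ h => h) (fun _ h => h)

/-! ### balanced sums -/

/-- the balanced sum of `f 0, ..., f (2 ^ n - 1)` -/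
def big : ℕ → (ℕ → Fm F.B) → Fm F.B
  | 0, f => f 0
  | n + 1, f => R.pls (big n f) (big n (fun i => f (2 ^ n + i)))

theorem size_big {n : ℕ} : ∀ {f : ℕ → Fm F.B} {m : ℕ}, (∀ i, i < 2 ^ n → (f i).size ≤ m) →
    (big R n f).size ≤ R.kk ^ n * m := by
  induction n with
  | zero => intro f m h; simpa [big] using h 0 (by simp)
  | succ n ih =>
    intro f m h
    rw [big, pow_succ, Nat.mul_comm (R.kk ^ n), Nat.mul_assoc]
    exact size_pls R (ih fun i hi => h i (by rw [pow_succ]; omega))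
      (ih fun i hi => h _ (by rw [pow_succ]; omega))

/-- lines of a proof along a balanced sum -/
def bb (X : ℕ) : ℕ → ℕ
  | 0 => X
  | n + 1 => bb X n + bb X n + X

theorem bb_le (X n : ℕ) : bb X n + X ≤ 2 ^ (n + 1) * X := by
  induction n with
  | zero => simp [bb]; omega
  | succ n ih =>
    rw [bb, pow_succ]
    nlinarith

theorem kk_le_pow (n : ℕ) (m : ℕ) : m ≤ R.kk ^ n * m :=
  Nat.le_mul_of_pos_left _ (Nat.pow_pos (kk_pos R))

theorem kk_pow_succ (n : ℕ) (m : ℕ) : R.kk ^ n * m ≤ R.kk ^ (n + 1) * m :=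
  Nat.mul_le_mul_right _ (Nat.pow_le_pow_right (kk_pos R) (by omega))

theorem big_cong {Γ : Set (Fm F.B)} {m n0 s : ℕ} : ∀ {n : ℕ} {f g : ℕ → Fm F.B},
    (∀ i, i < 2 ^ n → Ded F m n0 Γ {F.eqv (f i) (g i)}) →
    (∀ i, i < 2 ^ n → (f i).size ≤ s) → (∀ i, i < 2 ^ n → (g i).size ≤ s) →
    kR R * (R.kk ^ n * s) ≤ m →
    Ded F m (bb (n0 + kR R) n) Γ {F.eqv (big R n f) (big R n g)} := by
  intro n
  induction n with
  | zero =>
    intro f g h _ _ _
    exact (h 0 (by simp)).mono le_rfl (by simp [bb]) (fun _ h => h) (fun _ h => h)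
  | succ n ih =>
    intro f g h hf hg hm
    have hm' : kR R * (R.kk ^ n * s) ≤ m := (Nat.mul_le_mul_left _ (kk_pow_succ R n s)).trans hm
    have h1 := ih (f := f) (g := g) (fun i hi => h i (by rw [pow_succ]; omega))
      (fun i hi => hf i (by rw [pow_succ]; omega)) (fun i hi => hg i (by rw [pow_succ]; omega)) hm'
    have h2 := ih (f := fun i => f (2 ^ n + i)) (g := fun i => g (2 ^ n + i))
      (fun i hi => h _ (by rw [pow_succ]; omega))
      (fun i hi => hf _ (by rw [pow_succ]; omega)) (fun i hi => hg _ (by rw [pow_succ]; omega)) hm'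
    have h3 := ded_pls_cong R h1 h2 (s := R.kk ^ n * s)
      (size_big R fun i hi => hf i (by rw [pow_succ]; omega))
      (size_big R fun i hi => hg i (by rw [pow_succ]; omega))
      (size_big R fun i hi => hf _ (by rw [pow_succ]; omega))
      (size_big R fun i hi => hg _ (by rw [pow_succ]; omega)) hm'
    refine h3.mono le_rfl ?_ (fun _ h => h) (fun _ h => h)
    rw [bb]
    omega

theorem big_add {Γ : Set (Fm F.B)} {m s : ℕ} : ∀ {n : ℕ} {f g : ℕ → Fm F.B},
    (∀ i, i < 2 ^ n → (f i).size ≤ s) → (∀ i, i < 2 ^ n → (g i).size ≤ s) →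
    kR R * (R.kk ^ (n + 1) * s) ≤ m →
    Ded F m (bb (3 * kR R) n) Γ {F.eqv (big R n (fun i => R.pls (f i) (g i)))
      (R.pls (big R n f) (big R n g))} := by
  intro n
  induction n with
  | zero =>
    intro f g hf hg hm
    refine (ded_refl' R (R.pls (f 0) (g 0)) (s := R.kk ^ 1 * s)
      (by rw [pow_one]; exact size_pls R (hf 0 (by simp)) (hg 0 (by simp))) hm Γ).mono le_rfl
      (by rw [bb]; omega) (fun _ h => h) (fun _ h => h)
  | succ n ih =>
    intro f g hf hg hm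
    have hm' : kR R * (R.kk ^ (n + 1) * s) ≤ m :=
      (Nat.mul_le_mul_left _ (kk_pow_succ R (n + 1) s)).trans hm
    have hm'' : kR R * (R.kk ^ n * s) ≤ m := (Nat.mul_le_mul_left _ (kk_pow_succ R n s)).trans hm'
    have hf1 : ∀ i, i < 2 ^ n → (f i).size ≤ s := fun i hi => hf i (by rw [pow_succ]; omega)
    have hf2 : ∀ i, i < 2 ^ n → (f (2 ^ n + i)).size ≤ s := fun i hi =>
      hf _ (by rw [pow_succ]; omega)
    have hg1 : ∀ i, i < 2 ^ n → (g i).size ≤ s := fun i hi => hg i (by rw [pow_succ]; omega)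
    have hg2 : ∀ i, i < 2 ^ n → (g (2 ^ n + i)).size ≤ s := fun i hi =>
      hg _ (by rw [pow_succ]; omega)
    have h1 := ih (f := f) (g := g) hf1 hg1 hm'
    have h2 := ih (f := fun i => f (2 ^ n + i)) (g := fun i => g (2 ^ n + i)) hf2 hg2 hm'
    have b1 : (big R n f).size ≤ R.kk ^ n * s := size_big R hf1
    have b2 : (big R n (fun i => f (2 ^ n + i))).size ≤ R.kk ^ n * s := size_big R hf2
    have b3 : (big R n g).size ≤ R.kk ^ n * s := size_big R hg1
    have b4 : (big R n (fun i => g (2 ^ n + i))).size ≤ R.kk ^ n * s := size_big R hg2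
    have up : ∀ {a b : Fm F.B}, a.size ≤ R.kk ^ n * s → b.size ≤ R.kk ^ n * s →
        (R.pls a b).size ≤ R.kk ^ (n + 1) * s := by
      intro a b ha hb
      rw [pow_succ, Nat.mul_comm (R.kk ^ n), Nat.mul_assoc]
      exact size_pls R ha hb
    have up' : ∀ {a b : Fm F.B}, a.size ≤ R.kk ^ (n + 1) * s → b.size ≤ R.kk ^ (n + 1) * s →
        (R.pls a b).size ≤ R.kk ^ (n + 1 + 1) * s := by
      intro a b ha hb
      rw [pow_succ (R.kk) (n + 1), Nat.mul_comm (R.kk ^ (n + 1)), Nat.mul_assoc]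
      exact size_pls R ha hb
    have c1 : (big R n (fun i => R.pls (f i) (g i))).size ≤ R.kk ^ (n + 1) * s := by
      rw [pow_succ, Nat.mul_assoc]
      exact size_big R fun i hi => size_pls R (hf1 i hi) (hg1 i hi)
    have c2 : (big R n (fun i => R.pls (f (2 ^ n + i)) (g (2 ^ n + i)))).size ≤
        R.kk ^ (n + 1) * s := by
      rw [pow_succ, Nat.mul_assoc]
      exact size_big R fun i hi => size_pls R (hf2 i hi) (hg2 i hi)
    have h3 := ded_pls_cong R h1 h2 (s := R.kk ^ (n + 1) * s) c1 (up b1 b3) c2 (up b2 b4) hm'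
    have h4 := ded_med R (big R n f) (big R n g) (big R n (fun i => f (2 ^ n + i)))
      (big R n (fun i => g (2 ^ n + i))) (m := m) b1 b3 b2 b4 hm'' Γ
    have h5 := h3.trans' R h4 (s := R.kk ^ (n + 1 + 1) * s) (up' c1 c2)
      (up' (up b1 b3) (up b2 b4)) (up' (up b1 b2) (up b3 b4)) hm
    refine h5.mono le_rfl ?_ (fun _ h => h) (fun _ h => h)
    rw [bb]
    omega

theorem big_scal {Γ : Set (Fm F.B)} {m s : ℕ} (a : Fm F.B) (ha : a.size ≤ s) :
    ∀ {n : ℕ} {f : ℕ → Fm F.B}, (∀ i, i < 2 ^ n → (f i).size ≤ s) →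
    kR R * (R.kk ^ (n + 1) * s) ≤ m →
    Ded F m (bb (3 * kR R) n) Γ {F.eqv (big R n (fun i => R.adn a (f i)))
      (R.adn a (big R n f))} := by
  intro n
  induction n with
  | zero =>
    intro f hf hm
    refine (ded_refl' R (R.adn a (f 0)) (s := R.kk ^ 1 * s)
      (by rw [pow_one]; exact size_adn R ha (hf 0 (by simp))) hm Γ).mono le_rfl
      (by rw [bb]; omega) (fun _ h => h) (fun _ h => h)
  | succ n ih =>
    intro f hf hm
    have hm' : kR R * (R.kk ^ (n + 1) * s) ≤ m :=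
      (Nat.mul_le_mul_left _ (kk_pow_succ R (n + 1) s)).trans hm
    have hm'' : kR R * (R.kk ^ n * s) ≤ m := (Nat.mul_le_mul_left _ (kk_pow_succ R n s)).trans hm'
    have hf1 : ∀ i, i < 2 ^ n → (f i).size ≤ s := fun i hi => hf i (by rw [pow_succ]; omega)
    have hf2 : ∀ i, i < 2 ^ n → (f (2 ^ n + i)).size ≤ s := fun i hi =>
      hf _ (by rw [pow_succ]; omega)
    have ha' : a.size ≤ R.kk ^ n * s := ha.trans (kk_le_pow R n s)
    have h1 := ih (f := f) hf1 hm'
    have h2 := ih (f := fun i => f (2 ^ n + i)) hf2 hm'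
    have b1 : (big R n f).size ≤ R.kk ^ n * s := size_big R hf1
    have b2 : (big R n (fun i => f (2 ^ n + i))).size ≤ R.kk ^ n * s := size_big R hf2
    have upA : ∀ {a b : Fm F.B}, a.size ≤ R.kk ^ n * s → b.size ≤ R.kk ^ n * s →
        (R.adn a b).size ≤ R.kk ^ (n + 1) * s := by
      intro a b ha hb
      rw [pow_succ, Nat.mul_comm (R.kk ^ n), Nat.mul_assoc]
      exact size_adn R ha hb
    have upP : ∀ {a b : Fm F.B}, a.size ≤ R.kk ^ n * s → b.size ≤ R.kk ^ n * s →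
        (R.pls a b).size ≤ R.kk ^ (n + 1) * s := by
      intro a b ha hb
      rw [pow_succ, Nat.mul_comm (R.kk ^ n), Nat.mul_assoc]
      exact size_pls R ha hb
    have up' : ∀ {a b : Fm F.B}, a.size ≤ R.kk ^ (n + 1) * s → b.size ≤ R.kk ^ (n + 1) * s →
        (R.pls a b).size ≤ R.kk ^ (n + 1 + 1) * s := by
      intro a b ha hb
      rw [pow_succ (R.kk) (n + 1), Nat.mul_comm (R.kk ^ (n + 1)), Nat.mul_assoc]
      exact size_pls R ha hb
    have upA' : ∀ {a b : Fm F.B}, a.size ≤ R.kk ^ (n + 1) * s → b.size ≤ R.kk ^ (n + 1) * s →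
        (R.adn a b).size ≤ R.kk ^ (n + 1 + 1) * s := by
      intro a b ha hb
      rw [pow_succ (R.kk) (n + 1), Nat.mul_comm (R.kk ^ (n + 1)), Nat.mul_assoc]
      exact size_adn R ha hb
    have c1 : (big R n (fun i => R.adn a (f i))).size ≤ R.kk ^ (n + 1) * s := by
      rw [pow_succ, Nat.mul_assoc]
      exact size_big R fun i hi => size_adn R ha (hf1 i hi)
    have c2 : (big R n (fun i => R.adn a (f (2 ^ n + i)))).size ≤ R.kk ^ (n + 1) * s := by
      rw [pow_succ, Nat.mul_assoc]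
      exact size_big R fun i hi => size_adn R ha (hf2 i hi)
    have h3 := ded_pls_cong R h1 h2 (s := R.kk ^ (n + 1) * s) c1 (upA ha' b1) c2 (upA ha' b2) hm'
    have h4 := ded_dis R a (big R n f) (big R n (fun i => f (2 ^ n + i))) (m := m) ha' b1 b2
      hm'' Γ
    have h5 := h3.trans' R h4 (s := R.kk ^ (n + 1 + 1) * s) (up' c1 c2)
      (up' (upA ha' b1) (upA ha' b2)) (upA' (ha'.trans (kk_pow_succ R n s)) (upP b1 b2)) hm
    refine h5.mono le_rfl ?_ (fun _ h => h) (fun _ h => h)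
    rw [bb]
    omega

theorem big_zero {Γ : Set (Fm F.B)} {m s : ℕ} (y : ℕ → Fm F.B) (j : ℕ) (hs : c0 F ≤ s) :
    ∀ {n : ℕ} {o : ℕ}, (∀ i, i < 2 ^ n → (y (o + i)).size ≤ s) →
    (∀ i, i < 2 ^ n → o + i ≠ j) → kR R * (R.kk ^ (n + 1) * s) ≤ m →
    Ded F m (bb (kR R) n) Γ {F.eqv (big R n (fun i => R.adn (y (o + i))
      (cst F (decide (o + i = j))))) (cst F false)} := by
  intro n
  induction n with
  | zero =>
    intro o hy hj hm
    have h1 : decide (o + 0 = j) = false := by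
      rw [decide_eq_false_iff_not]
      exact hj 0 (by simp)
    have hm' : kR R * s ≤ m := (Nat.mul_le_mul_left _ (kk_le_pow R 1 s)).trans hm
    rw [big, h1]
    exact (ded_zer R _ (hy 0 (by simp)) hm' Γ).mono le_rfl (by rw [bb]) (fun _ h => h)
      (fun _ h => h)
  | succ n ih =>
    intro o hy hj hm
    have hm' : kR R * (R.kk ^ (n + 1) * s) ≤ m :=
      (Nat.mul_le_mul_left _ (kk_pow_succ R (n + 1) s)).trans hm
    have h1 := ih (o := o) (fun i hi => hy i (by rw [pow_succ]; omega))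
      (fun i hi => hj i (by rw [pow_succ]; omega)) hm'
    have h2 := ih (o := o + 2 ^ n) (fun i hi => by
      rw [Nat.add_assoc]; exact hy _ (by rw [pow_succ]; omega))
      (fun i hi => by rw [Nat.add_assoc]; exact hj _ (by rw [pow_succ]; omega)) hm'
    have c1 : ∀ o', (∀ i, i < 2 ^ n → (y (o' + i)).size ≤ s) →
        (big R n (fun i => R.adn (y (o' + i)) (cst F (decide (o' + i = j))))).size ≤
        R.kk ^ (n + 1) * s := by
      intro o' ho'
      rw [pow_succ, Nat.mul_assoc]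
      exact size_big R fun i hi => size_adn R (ho' i hi) ((size_ct _).trans hs)
    have h3 := ded_zz R h1 h2 (s := R.kk ^ (n + 1) * s)
      (c1 o fun i hi => hy i (by rw [pow_succ]; omega))
      (c1 (o + 2 ^ n) fun i hi => by rw [Nat.add_assoc]; exact hy _ (by rw [pow_succ]; omega)) hm'
    have e : (fun i => R.adn (y (o + 2 ^ n + i)) (cst F (decide (o + 2 ^ n + i = j)))) =
        fun i => R.adn (y (o + (2 ^ n + i))) (cst F (decide (o + (2 ^ n + i) = j))) := by
      funext i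
      rw [Nat.add_assoc]
    rw [e] at h3
    exact h3.mono le_rfl (by rw [bb]) (fun _ h => h) (fun _ h => h)

theorem big_sel {Γ : Set (Fm F.B)} {m s : ℕ} (y : ℕ → Fm F.B) (j : ℕ) (hs : c0 F ≤ s) :
    ∀ {n : ℕ} {o : ℕ}, (∀ i, i < 2 ^ n → (y (o + i)).size ≤ s) →
    o ≤ j → j < o + 2 ^ n → kR R * (R.kk ^ (n + 1) * s) ≤ m →
    Ded F m (bb (kR R) n) Γ {F.eqv (big R n (fun i => R.adn (y (o + i))
      (cst F (decide (o + i = j))))) (y j)} := by
  intro n
  induction n with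
  | zero =>
    intro o hy ho hj hm
    have hoj : o = j := by simp at hj; omega
    have h1 : decide (o + 0 = j) = true := by
      rw [decide_eq_true_eq]
      omega
    have hm' : kR R * s ≤ m := (Nat.mul_le_mul_left _ (kk_le_pow R 1 s)).trans hm
    rw [big, h1]
    subst hoj
    exact (ded_one R _ (hy 0 (by simp)) hm' Γ).mono le_rfl (by rw [bb]) (fun _ h => h)
      (fun _ h => h)
  | succ n ih =>
    intro o hy ho hj hm
    have hm' : kR R * (R.kk ^ (n + 1) * s) ≤ m :=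
      (Nat.mul_le_mul_left _ (kk_pow_succ R (n + 1) s)).trans hm
    have hjs : (y j).size ≤ R.kk ^ (n + 1) * s := by
      obtain ⟨d, rfl⟩ := Nat.exists_eq_add_of_le ho
      exact (hy d (by omega)).trans (kk_le_pow R (n + 1) s)
    have hy1 : ∀ i, i < 2 ^ n → (y (o + i)).size ≤ s := fun i hi =>
      hy i (by rw [pow_succ]; omega)
    have hy2 : ∀ i, i < 2 ^ n → (y (o + 2 ^ n + i)).size ≤ s := fun i hi => by
      rw [Nat.add_assoc]; exact hy _ (by rw [pow_succ]; omega)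
    have c1 : ∀ o', (∀ i, i < 2 ^ n → (y (o' + i)).size ≤ s) →
        (big R n (fun i => R.adn (y (o' + i)) (cst F (decide (o' + i = j))))).size ≤
        R.kk ^ (n + 1) * s := by
      intro o' ho'
      rw [pow_succ, Nat.mul_assoc]
      exact size_big R fun i hi => size_adn R (ho' i hi) ((size_ct _).trans hs)
    have e : (fun i => R.adn (y (o + 2 ^ n + i)) (cst F (decide (o + 2 ^ n + i = j)))) =
        fun i => R.adn (y (o + (2 ^ n + i))) (cst F (decide (o + (2 ^ n + i) = j))) := by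
      funext i
      rw [Nat.add_assoc]
    rcases Nat.lt_or_ge j (o + 2 ^ n) with hlt | hge
    · have h1 := ih (o := o) hy1 ho hlt hm'
      have h2 := big_zero R (Γ := Γ) (m := m) y j hs (n := n) (o := o + 2 ^ n) hy2
        (fun i hi => by omega) hm'
      have h3 := ded_xz R h1 h2 (s := R.kk ^ (n + 1) * s) (c1 o hy1) (c1 _ hy2) hjs hm'
      rw [e] at h3
      exact h3.mono le_rfl (by rw [bb]) (fun _ h => h) (fun _ h => h)
    · have h1 := big_zero R (Γ := Γ) (m := m) y j hs (n := n) (o := o) hy1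
        (fun i hi => by omega) hm'
      have h2 := ih (o := o + 2 ^ n) hy2 hge (by rw [pow_succ] at hj; omega) hm'
      have h3 := ded_zx R h1 h2 (s := R.kk ^ (n + 1) * s) (c1 o hy1) (c1 _ hy2) hjs hm'
      rw [e] at h3
      exact h3.mono le_rfl (by rw [bb]) (fun _ h => h) (fun _ h => h)

end Pool.Agent.T9h49.FE
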