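import Pool.Agent.T9h49.FE.Depth

/-!
Equational reasoning in Frege systems with bounds: symmetry, transitivity, congruence, case
distinctions, selection by several formulas.
-/

set_option autoImplicit false

namespace Pool.Agent.T9h49.FE

variable {F : FregeSystem}

theorem Ded.of_mem {Γ : Set (Fm F.B)} {ψ : Fm F.B} {m : ℕ} (h : ψ ∈ Γ) (hm : ψ.size ≤ m) :
    Ded F m 1 Γ {ψ} := by
  refine ⟨[ψ], Der.hyp Der.nil h, ?_, by simp, by simp⟩
  intro χ hχ
  rw [List.mem_singleton] at hχ
  rw [hχ]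
  exact hm

/-- substitution for three schematic variables -/
def sub3 (a b c : Fm F.B) : ℕ → Fm F.B := fun i => if i = 0 then a else if i = 1 then b else c

theorem sub3_size {a b c : Fm F.B} {m : ℕ} (ha : a.size ≤ m) (hb : b.size ≤ m) (hc : c.size ≤ m)
    (i : ℕ) : (sub3 a b c i).size ≤ m := by
  unfold sub3
  split
  · exact ha
  · split
    · exact hb
    · exact hc

/-- constants of the basic inferences -/
noncomputable def kSym (F : FregeSystem) : ℕ :=
  kap F [F.eqv (Fm.var 0) (Fm.var 1)] (F.eqv (Fm.var 1) (Fm.var 0))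

noncomputable def kTrans (F : FregeSystem) : ℕ :=
  kap F [F.eqv (Fm.var 0) (Fm.var 1), F.eqv (Fm.var 1) (Fm.var 2)] (F.eqv (Fm.var 0) (Fm.var 2))

theorem ded_sym {a b : Fm F.B} {m : ℕ} (ha : a.size ≤ m) (hb : b.size ≤ m) :
    Ded F (kSym F * m) (kSym F) {F.eqv a b} {F.eqv b a} := by
  have h := schem (F := F) (Γ := [F.eqv (Fm.var 0) (Fm.var 1)])
    (φ := F.eqv (Fm.var 1) (Fm.var 0)) (by
      intro v hv
      have h1 := hv _ List.mem_cons_self
      rw [eval_eqv] at h1 ⊢
      rw [beq_iff_eq] at h1 ⊢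
      exact h1.symm) (sub3 a b b) m (sub3_size ha hb hb)
  refine h.mono le_rfl le_rfl ?_ ?_
  · rintro ψ ⟨p, hp, rfl⟩
    rw [List.mem_singleton] at hp
    subst hp
    rw [Set.mem_singleton_iff, subst_eqv]
    rfl
  · intro ψ hψ
    rw [Set.mem_singleton_iff] at hψ ⊢
    rw [hψ, subst_eqv]
    rfl

theorem ded_trans {a b c : Fm F.B} {m : ℕ} (ha : a.size ≤ m) (hb : b.size ≤ m)
    (hc : c.size ≤ m) :
    Ded F (kTrans F * m) (kTrans F) {F.eqv a b, F.eqv b c} {F.eqv a c} := by
  have h := schem (F := F) (Γ := [F.eqv (Fm.var 0) (Fm.var 1), F.eqv (Fm.var 1) (Fm.var 2)])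
    (φ := F.eqv (Fm.var 0) (Fm.var 2)) (by
      intro v hv
      have h1 := hv _ List.mem_cons_self
      have h2 := hv _ (List.mem_cons_of_mem _ List.mem_cons_self)
      rw [eval_eqv] at h1 h2 ⊢
      rw [beq_iff_eq] at h1 h2 ⊢
      exact h1.trans h2) (sub3 a b c) m (sub3_size ha hb hc)
  refine h.mono le_rfl le_rfl ?_ ?_
  · rintro ψ ⟨p, hp, rfl⟩
    rcases List.mem_cons.1 hp with rfl | hp
    · left
      rw [subst_eqv]
      rfl
    · rw [List.mem_singleton] at hp
      subst hp
      right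
      rw [Set.mem_singleton_iff, subst_eqv]
      rfl
  · intro ψ hψ
    rw [Set.mem_singleton_iff] at hψ ⊢
    rw [hψ, subst_eqv]
    rfl

theorem Ded.sym {Γ : Set (Fm F.B)} {a b : Fm F.B} {m n s : ℕ} (h : Ded F m n Γ {F.eqv a b})
    (ha : a.size ≤ s) (hb : b.size ≤ s) (hm : kSym F * s ≤ m) :
    Ded F m (n + kSym F) Γ {F.eqv b a} :=
  h.cut ((ded_sym ha hb).mono hm le_rfl (fun _ h => h) (fun _ h => h))

theorem Ded.eqTrans {Γ : Set (Fm F.B)} {a b c : Fm F.B} {m n n' s : ℕ}
    (h : Ded F m n Γ {F.eqv a b}) (h' : Ded F m n' Γ {F.eqv b c})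
    (ha : a.size ≤ s) (hb : b.size ≤ s) (hc : c.size ≤ s) (hm : kTrans F * s ≤ m) :
    Ded F m (n + n' + kTrans F) Γ {F.eqv a c} :=
  (h.union h').cut ((ded_trans ha hb hc).mono hm le_rfl (fun ψ hψ => by
    rcases hψ with h | h
    · exact Or.inl h
    · exact Or.inr h) (fun _ h => h))

/-- the constant of congruence for a connective -/
noncomputable def kCon (b : F.B.Con) : ℕ :=
  kap F ((List.finRange (F.B.ar b)).map
      (fun j : Fin (F.B.ar b) => F.eqv (Fm.var (2 * (j : ℕ))) (Fm.var (2 * (j : ℕ) + 1))))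
    (F.eqv (Fm.app b (fun j => Fm.var (2 * (j : ℕ)))) (Fm.app b (fun j => Fm.var (2 * (j : ℕ) + 1))))

theorem exists_kCong (F : FregeSystem) : ∃ k : ℕ, ∀ b : F.B.Con, kCon (F := F) b ≤ k := by
  have := F.B.fin
  have hfin := Set.finite_range (fun b : F.B.Con => kCon (F := F) b)
  obtain ⟨k, hk⟩ := hfin.bddAbove
  exact ⟨k, fun b => hk ⟨b, rfl⟩⟩

noncomputable def kCong (F : FregeSystem) : ℕ := Classical.choose (exists_kCong F)

theorem kCon_le (b : F.B.Con) : kCon (F := F) b ≤ kCong F := Classical.choose_spec (exists_kCong F) b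

/-- substitution of two families of formulas -/
noncomputable def subF {k : ℕ} (x y : Fin k → Fm F.B) : ℕ → Fm F.B := fun i =>
  if h : i / 2 < k then (if i % 2 = 0 then x ⟨i / 2, h⟩ else y ⟨i / 2, h⟩) else Fm.var 0

theorem subF_even {k : ℕ} (x y : Fin k → Fm F.B) (j : Fin k) : subF x y (2 * (j : ℕ)) = x j := by
  unfold subF
  have h1 : 2 * (j : ℕ) / 2 = j := by omega
  have h2 : 2 * (j : ℕ) % 2 = 0 := by omega
  rw [dif_pos (by rw [h1]; exact j.2), if_pos h2]
  congr 1
  exact Fin.ext h1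

theorem subF_odd {k : ℕ} (x y : Fin k → Fm F.B) (j : Fin k) :
    subF x y (2 * (j : ℕ) + 1) = y j := by
  unfold subF
  have h1 : (2 * (j : ℕ) + 1) / 2 = j := by omega
  have h2 : ¬ (2 * (j : ℕ) + 1) % 2 = 0 := by omega
  rw [dif_pos (by rw [h1]; exact j.2), if_neg h2]
  congr 1
  exact Fin.ext h1

theorem ded_con (b : F.B.Con) (x y : Fin (F.B.ar b) → Fm F.B) {m : ℕ} (hm : 1 ≤ m)
    (hx : ∀ j, (x j).size ≤ m) (hy : ∀ j, (y j).size ≤ m) :
    Ded F (kCong F * m) (kCong F) {ψ | ∃ j, ψ = F.eqv (x j) (y j)}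
      {F.eqv (Fm.app b x) (Fm.app b y)} := by
  have h := schem (F := F) (Γ := (List.finRange (F.B.ar b)).map
      (fun j : Fin (F.B.ar b) => F.eqv (Fm.var (2 * (j : ℕ))) (Fm.var (2 * (j : ℕ) + 1))))
    (φ := F.eqv (Fm.app b (fun j => Fm.var (2 * (j : ℕ))))
      (Fm.app b (fun j => Fm.var (2 * (j : ℕ) + 1)))) (by
      intro v hv
      rw [eval_eqv, beq_iff_eq]
      simp only [Fm.eval]
      congr 1
      funext j
      have h1 := hv _ (List.mem_map_of_mem (List.mem_finRange j))
      rw [eval_eqv, beq_iff_eq] at h1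
      exact h1) (subF x y) m (by
      intro i
      unfold subF
      split
      · split
        · exact hx _
        · exact hy _
      · exact hm)
  refine h.mono (Nat.mul_le_mul_right _ (kCon_le b)) (kCon_le b) ?_ ?_
  · rintro ψ ⟨p, hp, rfl⟩
    obtain ⟨j, _, rfl⟩ := List.mem_map.1 hp
    refine ⟨j, ?_⟩
    rw [subst_eqv]
    simp only [Fm.subst, subF_even, subF_odd]
  · intro ψ hψ
    rw [Set.mem_singleton_iff] at hψ ⊢
    rw [hψ, subst_eqv]
    simp only [Fm.subst, subF_even, subF_odd]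

theorem Ded.forall_fin {k m n : ℕ} {Γ : Set (Fm F.B)} (g : Fin k → Fm F.B)
    (h : ∀ i, Ded F m n Γ {g i}) : Ded F m (k * n) Γ {ψ | ∃ i, ψ = g i} := by
  refine (Ded.list (List.finRange k) g fun i _ => h i).mono le_rfl (by simp) (fun _ h => h) ?_
  rintro ψ ⟨i, rfl⟩
  exact ⟨i, List.mem_finRange i, rfl⟩

/-- congruence for substitutions -/
theorem ded_cong {Γ : Set (Fm F.B)} {ρ ρ' : ℕ → Fm F.B} {m n s : ℕ} (hs : 1 ≤ s) (φ : Fm F.B)
    (h : ∀ v ∈ φ.vars, Ded F m n Γ {F.eqv (ρ v) (ρ' v)})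
    (hρ : (φ.subst ρ).size ≤ s) (hρ' : (φ.subst ρ').size ≤ s)
    (hm : kCong F * s ≤ m) :
    Ded F m (φ.size * (n + kCong F)) Γ {F.eqv (φ.subst ρ) (φ.subst ρ')} := by
  induction φ with
  | var i =>
    refine (h i (by simp [Fm.vars])).mono le_rfl ?_ (fun _ h => h) (fun _ h => h)
    simp only [Fm.size]
    omega
  | app b f ih =>
    have hsz : ∀ (ρ : ℕ → Fm F.B) (j), ((f j).subst ρ).size ≤ (Fm.app b f |>.subst ρ).size := by
      intro ρ j
      simp only [Fm.subst, Fm.size]
      have := Finset.single_le_sum (f := fun i => ((f i).subst ρ).size)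
        (fun _ _ => Nat.zero_le _) (Finset.mem_univ j)
      omega
    have h1 : ∀ j ∈ List.finRange (F.B.ar b), Ded F m ((f j).size * (n + kCong F)) Γ
        {F.eqv ((f j).subst ρ) ((f j).subst ρ')} := by
      intro j _
      refine ih j (fun v hv => h v ?_) ((hsz ρ j).trans hρ) ((hsz ρ' j).trans hρ')
      simp only [Fm.vars, Finset.mem_biUnion, Finset.mem_univ, true_and]
      exact ⟨j, hv⟩
    have h2 : ∀ l : List (Fin (F.B.ar b)), (∀ j ∈ l, j ∈ List.finRange (F.B.ar b)) →
        Ded F m ((l.map (fun j => (f j).size * (n + kCong F))).sum) Γ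
          {ψ | ∃ j ∈ l, ψ = F.eqv ((f j).subst ρ) ((f j).subst ρ')} := by
      intro l
      induction l with
      | nil => intro _; exact Ded.empty.mono le_rfl le_rfl (fun _ h => h) (by simp)
      | cons a l ihl =>
        intro hl
        have e1 := h1 a (hl a List.mem_cons_self)
        have e2 := ihl fun j hj => hl j (List.mem_cons_of_mem _ hj)
        refine (e1.union e2).mono le_rfl (by simp) (fun _ h => h) ?_
        rintro ψ ⟨i, hi, rfl⟩
        rcases List.mem_cons.1 hi with rfl | hi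
        · exact Or.inl rfl
        · exact Or.inr ⟨i, hi, rfl⟩
    have h3 := h2 (List.finRange (F.B.ar b)) (fun _ h => h)
    have h4 := ded_con (F := F) b (fun j => (f j).subst ρ) (fun j => (f j).subst ρ') hs
      (fun j => (hsz ρ j).trans hρ) (fun j => (hsz ρ' j).trans hρ')
    refine (h3.cut (h4.mono hm le_rfl (fun ψ hψ => ?_) (fun _ h => h))).mono le_rfl ?_
      (fun _ h => h) (fun _ h => h)
    · obtain ⟨j, rfl⟩ := hψ
      exact ⟨j, List.mem_finRange j, rfl⟩
    · have e : ((List.finRange (F.B.ar b)).map (fun j => (f j).size * (n + kCong F))).sum =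
          ∑ j, (f j).size * (n + kCong F) := by
        rw [Finset.sum_eq_multiset_sum]
        rfl
      rw [e, ← Finset.sum_mul]
      simp only [Fm.size]
      rw [add_mul, one_mul]
      omega

/-- a constant -/
noncomputable def cst (F : FregeSystem) (b : Bool) : Fm F.B := ct b (Fm.var 0)

/-- case distinction -/
theorem Ded.cases {Γ : Set (Fm F.B)} {y A : Fm F.B} {m n : ℕ}
    (h : ∀ b : Bool, Ded F m n (insert (F.eqv (cst F b) y) Γ) {A})
    (hb : ∀ b : Bool, (F.eqv (cst F b) y).size ≤ m) (hA : A.size ≤ m) (hn : 1 ≤ n) :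
    Ded F (cT F * m) (cT F * n) Γ {A} := by
  have hm : 1 ≤ m := (Fm.size_pos A).trans hA
  have hy : y.size ≤ m := (size_le_eqv_right _ _).trans (hb true)
  have h1 : ∀ b : Bool, Ded F (dK F * m) (dK F * n) Γ {imp (F.eqv (cst F b) y) A} := by
    intro b
    refine ((h b).deduct (hb b)).mono le_rfl le_rfl (fun _ h => h) ?_
    intro ψ hψ
    exact ⟨A, rfl, hψ⟩
  have hcs := case_split (F := F) (Fm.var 0) y A (m := m) (by simpa [Fm.size] using hm) hy hA
  have hle1 : dK F * m ≤ cT F * m := Nat.mul_le_mul_right _ (by unfold cT; omega)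
  have hle2 : kCase F * m ≤ cT F * m := Nat.mul_le_mul_right _ (by unfold cT; omega)
  have h3 := (((h1 true).mono hle1 le_rfl (fun _ h => h) (fun _ h => h)).union
    ((h1 false).mono hle1 le_rfl (fun _ h => h) (fun _ h => h))).cut
    (hcs.mono hle2 le_rfl (fun _ h => by
      rcases h with h | h
      · exact Or.inl h
      · exact Or.inr h) (fun _ h => h))
  refine h3.mono le_rfl ?_ (fun _ h => h) (fun _ h => h)
  unfold cT
  nlinarith

theorem cT_pos (F : FregeSystem) : 1 ≤ cT F := by unfold cT; omega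

/-- case distinction by several formulas -/
theorem Ded.casesAll {w : ℕ} : ∀ {Γ : Set (Fm F.B)} {y : Fin w → Fm F.B} {A : Fm F.B} {m n : ℕ},
    (∀ c : Fin w → Bool, Ded F m n (Γ ∪ {ψ | ∃ j, ψ = F.eqv (cst F (c j)) (y j)}) {A}) →
    (∀ (b : Bool) (j), (F.eqv (cst F b) (y j)).size ≤ m) → A.size ≤ m → 1 ≤ n →
    Ded F (cT F ^ w * m) (cT F ^ w * n) Γ {A} := by
  induction w with
  | zero =>
    intro Γ y A m n h _ _ _
    refine (h (fun j => j.elim0)).mono (by simp) (by simp) ?_ (fun _ h => h)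
    rintro ψ (hψ | ⟨j, _⟩)
    · exact hψ
    · exact j.elim0
  | succ w ih =>
    intro Γ y A m n h hb hA hn
    have hc := cT_pos F
    have h1 : ∀ b : Bool, Ded F (cT F ^ w * m) (cT F ^ w * n)
        (insert (F.eqv (cst F b) (y 0)) Γ) {A} := by
      intro b
      refine ih (y := fun j => y j.succ) (fun c => ?_) (fun b j => hb b j.succ) hA hn
      refine (h (Fin.cons b c)).mono le_rfl le_rfl ?_ (fun _ h => h)
      rintro ψ (hψ | ⟨j, rfl⟩)
      · exact Or.inl (Set.mem_insert_of_mem _ hψ)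
      · refine Fin.cases ?_ (fun j => ?_) j
        · left
          simp
        · right
          exact ⟨j, by simp⟩
    have hle : m ≤ cT F ^ w * m := Nat.le_mul_of_pos_left _ (Nat.pow_pos hc)
    have h2 := Ded.cases h1 (fun b => (hb b 0).trans hle) (hA.trans hle)
      (Nat.mul_pos (Nat.pow_pos hc) hn)
    refine h2.mono (le_of_eq ?_) (le_of_eq ?_) (fun _ h => h) (fun _ h => h)
    · rw [pow_succ]; ring
    · rw [pow_succ]; ring

/-! ### selection -/

/-- if `y` then `A` else `B` -/
noncomputable def ite3 (y A B : Fm F.B) : Fm F.B :=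
  op2 F (fun p q => p || q) (op2 F (fun p q => p && q) y A) (op2 F (fun p q => !p && q) y B)

theorem eval_ite3 (y A B : Fm F.B) (v : ℕ → Bool) :
    (ite3 y A B).eval v = bif y.eval v then A.eval v else B.eval v := by
  unfold ite3
  rw [eval_op2, eval_op2, eval_op2]
  cases y.eval v <;> simp

theorem subst_ite3 (y A B : Fm F.B) (σ : ℕ → Fm F.B) :
    (ite3 y A B).subst σ = ite3 (y.subst σ) (A.subst σ) (B.subst σ) := by
  unfold ite3
  rw [subst_op2, subst_op2, subst_op2]

/-- growth factor of the selection -/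
noncomputable def kIte (F : FregeSystem) : ℕ :=
  (rep2 F (fun p q => p || q)).size *
    ((rep2 F (fun p q => p && q)).size + (rep2 F (fun p q => !p && q)).size)

theorem size_ite3 {y A B : Fm F.B} {m : ℕ} (hy : y.size ≤ m) (hA : A.size ≤ m)
    (hB : B.size ≤ m) : (ite3 y A B).size ≤ kIte F * m := by
  unfold ite3 kIte
  rw [Nat.mul_assoc]
  refine size_op2 _ ((size_op2 _ hy hA).trans ?_) ((size_op2 _ hy hB).trans ?_)
  · exact Nat.mul_le_mul_right _ (Nat.le_add_right _ _)
  · exact Nat.mul_le_mul_right _ (Nat.le_add_left _ _)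

theorem kIte_pos (F : FregeSystem) : 1 ≤ kIte F := by
  unfold kIte
  have h1 := Fm.size_pos (rep2 F (fun p q => p || q))
  have h2 := Fm.size_pos (rep2 F (fun p q => p && q))
  exact Nat.mul_pos h1 (by omega)

/-- selection of `Z c` by the values `c` of the formulas `y` -/
noncomputable def mux : (w : ℕ) → (Fin w → Fm F.B) → ((Fin w → Bool) → Fm F.B) → Fm F.B
  | 0, _, Z => Z (fun j => j.elim0)
  | w + 1, y, Z => ite3 (y 0) (mux w (fun j => y j.succ) (fun c => Z (Fin.cons true c)))
      (mux w (fun j => y j.succ) (fun c => Z (Fin.cons false c)))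

theorem size_mux {w : ℕ} {y : Fin w → Fm F.B} {Z : (Fin w → Bool) → Fm F.B} {m : ℕ}
    (hy : ∀ j, (y j).size ≤ m) (hZ : ∀ c, (Z c).size ≤ m) :
    (mux w y Z).size ≤ kIte F ^ w * m := by
  have hk := kIte_pos F
  induction w with
  | zero => simpa [mux] using hZ _
  | succ w ih =>
    have hle : m ≤ kIte F ^ w * m := Nat.le_mul_of_pos_left _ (Nat.pow_pos hk)
    rw [mux, pow_succ, Nat.mul_comm (kIte F ^ w), Nat.mul_assoc]
    exact size_ite3 ((hy 0).trans hle) (ih (fun j => hy j.succ) (fun c => hZ _))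
      (ih (fun j => hy j.succ) (fun c => hZ _))

/-- constants for the evaluation of a selection -/
noncomputable def kSel (F : FregeSystem) : ℕ :=
  kap F [F.eqv (ct true (Fm.var 0)) (Fm.var 1), F.eqv (Fm.var 2) (Fm.var 3)]
      (F.eqv (Fm.var 2) (ite3 (Fm.var 1) (Fm.var 3) (Fm.var 4))) +
    kap F [F.eqv (ct false (Fm.var 0)) (Fm.var 1), F.eqv (Fm.var 2) (Fm.var 3)]
      (F.eqv (Fm.var 2) (ite3 (Fm.var 1) (Fm.var 4) (Fm.var 3))) + kRefl F

/-- substitution for five schematic variables -/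
def sub5 (a b c d e : Fm F.B) : ℕ → Fm F.B := fun i =>
  if i = 0 then a else if i = 1 then b else if i = 2 then c else if i = 3 then d else e

theorem ded_sel_true {y A B X : Fm F.B} {m : ℕ} (hy : y.size ≤ m) (hA : A.size ≤ m)
    (hB : B.size ≤ m) (hX : X.size ≤ m) :
    Ded F (kSel F * m) (kSel F) {F.eqv (cst F true) y, F.eqv X A} {F.eqv X (ite3 y A B)} := by
  have hm : 1 ≤ m := (Fm.size_pos y).trans hy
  have h := schem (F := F)
    (Γ := [F.eqv (ct true (Fm.var 0)) (Fm.var 1), F.eqv (Fm.var 2) (Fm.var 3)])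
    (φ := F.eqv (Fm.var 2) (ite3 (Fm.var 1) (Fm.var 3) (Fm.var 4))) (by
      intro v hv
      have h1 := hv _ List.mem_cons_self
      have h2 := hv _ (List.mem_cons_of_mem _ List.mem_cons_self)
      rw [eval_eqv, eval_ct] at h1
      rw [eval_eqv, beq_iff_eq] at h2
      rw [eval_eqv, eval_ite3, h2]
      have h3 : (Fm.var 1 : Fm F.B).eval v = true := by simpa using h1
      rw [h3]
      simp) (sub5 (Fm.var 0) y X A B) m (by
      intro i
      unfold sub5
      split
      · exact hm
      · split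
        · exact hy
        · split
          · exact hX
          · split
            · exact hA
            · exact hB)
  refine h.mono (Nat.mul_le_mul_right _ (by unfold kSel; omega)) (by unfold kSel; omega) ?_ ?_
  · rintro ψ ⟨p, hp, rfl⟩
    rcases List.mem_cons.1 hp with rfl | hp
    · left
      rw [subst_eqv, subst_ct]
      rfl
    · rw [List.mem_singleton] at hp
      subst hp
      right
      rw [Set.mem_singleton_iff, subst_eqv]
      rfl
  · intro ψ hψ
    rw [Set.mem_singleton_iff] at hψ ⊢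
    rw [hψ, subst_eqv, subst_ite3]
    rfl

theorem ded_sel_false {y A B X : Fm F.B} {m : ℕ} (hy : y.size ≤ m) (hA : A.size ≤ m)
    (hB : B.size ≤ m) (hX : X.size ≤ m) :
    Ded F (kSel F * m) (kSel F) {F.eqv (cst F false) y, F.eqv X B} {F.eqv X (ite3 y A B)} := by
  have hm : 1 ≤ m := (Fm.size_pos y).trans hy
  have h := schem (F := F)
    (Γ := [F.eqv (ct false (Fm.var 0)) (Fm.var 1), F.eqv (Fm.var 2) (Fm.var 3)])
    (φ := F.eqv (Fm.var 2) (ite3 (Fm.var 1) (Fm.var 4) (Fm.var 3))) (by
      intro v hv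
      have h1 := hv _ List.mem_cons_self
      have h2 := hv _ (List.mem_cons_of_mem _ List.mem_cons_self)
      rw [eval_eqv, eval_ct] at h1
      rw [eval_eqv, beq_iff_eq] at h2
      rw [eval_eqv, eval_ite3, h2]
      have h3 : (Fm.var 1 : Fm F.B).eval v = false := by simpa using h1
      rw [h3]
      simp) (sub5 (Fm.var 0) y X B A) m (by
      intro i
      unfold sub5
      split
      · exact hm
      · split
        · exact hy
        · split
          · exact hX
          · split
            · exact hB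
            · exact hA)
  refine h.mono (Nat.mul_le_mul_right _ (by unfold kSel; omega)) (by unfold kSel; omega) ?_ ?_
  · rintro ψ ⟨p, hp, rfl⟩
    rcases List.mem_cons.1 hp with rfl | hp
    · left
      rw [subst_eqv, subst_ct]
      rfl
    · rw [List.mem_singleton] at hp
      subst hp
      right
      rw [Set.mem_singleton_iff, subst_eqv]
      rfl
  · intro ψ hψ
    rw [Set.mem_singleton_iff] at hψ ⊢
    rw [hψ, subst_eqv, subst_ite3]
    rfl

/-- the value of a selection -/
theorem ded_mux {w : ℕ} {y : Fin w → Fm F.B} {Z : (Fin w → Bool) → Fm F.B} {s m : ℕ}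
    (hy : ∀ j, (y j).size ≤ s) (hZ : ∀ c, (Z c).size ≤ s) (c : Fin w → Bool)
    (hm : (kSel F + F.iff.size * c0 F) * (kIte F ^ w * s) ≤ m) :
    Ded F m ((w + 1) * (kSel F + 1)) {ψ | ∃ j, ψ = F.eqv (cst F (c j)) (y j)}
      {F.eqv (Z c) (mux w y Z)} := by
  have hk := kIte_pos F
  induction w generalizing m with
  | zero =>
    have e : (fun j => j.elim0 : Fin 0 → Bool) = c := by funext j; exact j.elim0
    rw [mux, e]
    refine (ded_refl (Z c) (hZ c) _).mono ?_ (by unfold kSel; omega) (fun _ h => h) (fun _ h => h)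
    refine le_trans ?_ hm
    refine Nat.mul_le_mul (by unfold kSel; omega) (by simp)
  | succ w ih =>
    have hs : 1 ≤ s := (Fm.size_pos _).trans (hy 0)
    set s' := kIte F ^ w * s with hs'
    have hss : s ≤ s' := Nat.le_mul_of_pos_left _ (Nat.pow_pos hk)
    have hs1 : 1 ≤ s' := hs.trans hss
    have hle : s' ≤ kIte F ^ (w + 1) * s :=
      Nat.mul_le_mul_right _ (Nat.pow_le_pow_right hk (by omega))
    have hm' : (kSel F + F.iff.size * c0 F) * s' ≤ m := (Nat.mul_le_mul_left _ hle).trans hm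
    have ih' := ih (y := fun j => y j.succ) (Z := fun c' => Z (Fin.cons (c 0) c'))
      (fun j => hy j.succ) (fun c' => hZ _) (fun j => c j.succ) hm'
    have e : (Fin.cons (c 0) (fun j => c j.succ) : Fin (w + 1) → Bool) = c := by
      funext j
      refine Fin.cases ?_ (fun j => ?_) j <;> simp
    rw [e] at ih'
    have hA : ∀ b : Bool, (mux w (fun j => y j.succ) (fun c => Z (Fin.cons b c))).size ≤ s' :=
      fun b => size_mux (fun j => hy j.succ) (fun c => hZ _)
    have hhyp : Ded F m 1 {ψ | ∃ j, ψ = F.eqv (cst F (c j)) (y j)} {F.eqv (cst F (c 0)) (y 0)} := by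
      refine Ded.of_mem ⟨0, rfl⟩ ?_
      have h1 : (F.eqv (cst F (c 0)) (y 0)).size ≤ F.iff.size * (c0 F * s') := by
        refine size_eqv ((size_ct _).trans (Nat.le_mul_of_pos_right _ hs1)) ?_
        exact ((hy 0).trans hss).trans (Nat.le_mul_of_pos_left _ (c0_pos F))
      refine h1.trans (le_trans ?_ hm')
      rw [← Nat.mul_assoc]
      exact Nat.mul_le_mul_right _ (Nat.le_add_left _ _)
    have h2 := ih'.mono (Γ' := {ψ | ∃ j, ψ = F.eqv (cst F (c j)) (y j)}) le_rfl le_rfl (by
      rintro ψ ⟨j, rfl⟩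
      exact ⟨j.succ, rfl⟩) (fun _ h => h)
    rw [mux]
    rcases hb : c 0 with _ | _
    · rw [hb] at hhyp h2
      have h3 := ded_sel_false (F := F) (X := Z c) (y := y 0)
        (A := mux w (fun j => y j.succ) (fun c => Z (Fin.cons true c)))
        (B := mux w (fun j => y j.succ) (fun c => Z (Fin.cons false c)))
        ((hy 0).trans hss) (hA true) (hA false) ((hZ c).trans hss)
      refine ((hhyp.union h2).cut (h3.mono ?_ le_rfl (fun ψ hψ => ?_) (fun _ h => h))).mono
        le_rfl ?_ (fun _ h => h) (fun _ h => h)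
      · exact le_trans (Nat.mul_le_mul_right _ (by omega)) hm'
      · rcases hψ with h | h
        · exact Or.inl h
        · exact Or.inr h
      · ring_nf; omega
    · rw [hb] at hhyp h2
      have h3 := ded_sel_true (F := F) (X := Z c) (y := y 0)
        (A := mux w (fun j => y j.succ) (fun c => Z (Fin.cons true c)))
        (B := mux w (fun j => y j.succ) (fun c => Z (Fin.cons false c)))
        ((hy 0).trans hss) (hA true) (hA false) ((hZ c).trans hss)
      refine ((hhyp.union h2).cut (h3.mono ?_ le_rfl (fun ψ hψ => ?_) (fun _ h => h))).mono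
        le_rfl ?_ (fun _ h => h) (fun _ h => h)
      · exact le_trans (Nat.mul_le_mul_right _ (by omega)) hm'
      · rcases hψ with h | h
        · exact Or.inl h
        · exact Or.inr h
      · ring_nf; omega

end Pool.Agent.T9h49.FE
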