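import Pool.Agent.T9h49.FE.Basic

/-!
The deduction lemma with bounds, substitution in extended Frege proofs, elimination of guessed
extension variables.
-/

set_option autoImplicit false

namespace Pool.Agent.T9h49.FE

variable {F : FregeSystem}

theorem zero_mem_iff_vars (F : FregeSystem) : 0 ∈ F.iff.vars := by
  by_contra h
  have h1 := F.iff_eval (fun _ => true)
  have h2 := F.iff_eval (fun i => if i = 0 then false else true)
  rw [Fm.eval_congr (w := fun i => if i = 0 then false else true)] at h1
  · rw [h2] at h1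
    simp at h1
  · intro i hi
    have : i ≠ 0 := fun h' => h (h' ▸ hi)
    simp [this]

theorem one_mem_iff_vars (F : FregeSystem) : 1 ∈ F.iff.vars := by
  by_contra h
  have h1 := F.iff_eval (fun _ => true)
  have h2 := F.iff_eval (fun i => if i = 1 then false else true)
  rw [Fm.eval_congr (w := fun i => if i = 1 then false else true)] at h1
  · rw [h2] at h1
    simp at h1
  · intro i hi
    have : i ≠ 1 := fun h' => h (h' ▸ hi)
    simp [this]

theorem mem_vars_eqv {a b : Fm F.B} {j : ℕ} :
    j ∈ (F.eqv a b).vars ↔ j ∈ a.vars ∨ j ∈ b.vars := by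
  rw [FregeSystem.eqv, Fm.mem_vars_subst]
  constructor
  · rintro ⟨i, _, hj⟩
    unfold sub2 at hj
    split at hj
    · exact Or.inl hj
    · exact Or.inr hj
  · rintro (h | h)
    · exact ⟨0, zero_mem_iff_vars F, by simpa [sub2] using h⟩
    · exact ⟨1, one_mem_iff_vars F, by simpa [sub2] using h⟩

theorem size_le_eqv_left (a b : Fm F.B) : a.size ≤ (F.eqv a b).size :=
  Fm.size_le_subst (sub2 a b) (zero_mem_iff_vars F)

theorem size_le_eqv_right (a b : Fm F.B) : b.size ≤ (F.eqv a b).size :=
  Fm.size_le_subst (sub2 a b) (one_mem_iff_vars F)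

/-! ### the deduction lemma -/

/-- all variables of a rule -/
def allv (r : Rule F.B) : Finset ℕ := r.prem.foldr (fun p s => p.vars ∪ s) r.conc.vars

theorem conc_allv (r : Rule F.B) : r.conc.vars ⊆ allv r := by
  unfold allv
  induction r.prem with
  | nil => exact subset_rfl
  | cons p l ih => exact ih.trans Finset.subset_union_right

theorem prem_allv (r : Rule F.B) {p : Fm F.B} (hp : p ∈ r.prem) : p.vars ⊆ allv r := by
  unfold allv
  generalize r.prem = l at hp
  induction l with
  | nil => exact absurd hp List.not_mem_nil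
  | cons q l ih =>
    rcases List.mem_cons.1 hp with rfl | h
    · exact Finset.subset_union_left
    · exact (ih h).trans Finset.subset_union_right

theorem mem_allv (r : Rule F.B) {i : ℕ} (h : i ∈ allv r) :
    i ∈ r.conc.vars ∨ ∃ p ∈ r.prem, i ∈ p.vars := by
  unfold allv at h
  generalize r.prem = l at h
  induction l with
  | nil => exact Or.inl h
  | cons q l ih =>
    rw [List.foldr_cons, Finset.mem_union] at h
    rcases h with h | h
    · exact Or.inr ⟨q, List.mem_cons_self, h⟩
    · rcases ih h with h | ⟨p, hp, h⟩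
      · exact Or.inl h
      · exact Or.inr ⟨p, List.mem_cons_of_mem _ hp, h⟩

/-- a variable which does not occur in the rule -/
def newv (r : Rule F.B) : ℕ := (allv r).sup id + 1

theorem newv_not_mem (r : Rule F.B) : newv r ∉ allv r := by
  intro h
  have : newv r ≤ (allv r).sup id := Finset.le_sup (f := id) h
  unfold newv at this
  omega

noncomputable def kRule (r : Rule F.B) : ℕ :=
  kap F (r.prem.map (fun p => imp (Fm.var (newv r)) p)) (imp (Fm.var (newv r)) r.conc)

noncomputable def dK (F : FregeSystem) : ℕ :=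
  (F.rules.map kRule).sum + kap F [] (imp (Fm.var 0) (Fm.var 0)) +
    kap F [Fm.var 1] (imp (Fm.var 0) (Fm.var 1)) + 1

theorem rule_ctx {r : Rule F.B} (hr : r ∈ F.rules) (P : Fm F.B) (σ : ℕ → Fm F.B) {m : ℕ}
    (hP : P.size ≤ m) (hσ : ∀ i ∈ allv r, (σ i).size ≤ m) :
    Ded F (dK F * m) (kRule r) {χ | ∃ p ∈ r.prem, χ = imp P (p.subst σ)}
      {imp P (r.conc.subst σ)} := by
  classical
  set σ' : ℕ → Fm F.B := fun i => if i = newv r then P else if i ∈ allv r then σ i else Fm.var 0
    with hσ'
  have hm : 1 ≤ m := (Fm.size_pos P).trans hP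
  have hsz : ∀ i, (σ' i).size ≤ m := by
    intro i
    rw [hσ']
    dsimp only
    split
    · exact hP
    · split
      · rename_i h; exact hσ i h
      · simpa [Fm.size] using hm
  have hval : ∀ p : Fm F.B, p.vars ⊆ allv r →
      (imp (Fm.var (newv r)) p).subst σ' = imp P (p.subst σ) := by
    intro p hp
    rw [subst_imp]
    congr 1
    · simp [Fm.subst, hσ']
    · refine Fm.subst_congr fun i hi => ?_
      have h1 : i ≠ newv r := fun h => newv_not_mem r (h ▸ hp hi)
      simp [hσ', h1, hp hi]
  have hs := schem (F := F) (Γ := r.prem.map (fun p => imp (Fm.var (newv r)) p))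
    (φ := imp (Fm.var (newv r)) r.conc) (by
      intro v hv
      rw [eval_imp]
      by_cases hN : (Fm.var (newv r) : Fm F.B).eval v = true
      · have : r.conc.eval v = true := by
          refine F.sound r hr v fun p hp => ?_
          have := hv _ (List.mem_map_of_mem hp)
          rw [eval_imp, hN] at this
          simpa using this
        simp [this]
      · simp [hN]) σ' m hsz
  refine hs.mono ?_ le_rfl ?_ ?_
  · refine Nat.mul_le_mul_right _ ?_
    have h1 : kRule r ≤ (F.rules.map kRule).sum :=
      List.single_le_sum (by simp) _ (List.mem_map_of_mem hr)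
    change kRule r ≤ dK F
    unfold dK
    omega
  · rintro ψ ⟨p, hp, rfl⟩
    obtain ⟨p', hp', rfl⟩ := List.mem_map.1 hp
    exact ⟨p', hp', hval p' (prem_allv r hp')⟩
  · intro ψ hψ
    rw [Set.mem_singleton_iff] at hψ ⊢
    rw [hψ, hval _ (conc_allv r)]

theorem deduct_aux (P : Fm F.B) {Γ : Set (Fm F.B)} {π : List (Fm F.B)} {m : ℕ}
    (h : Der F.rules (insert P Γ) π) (hP : P.size ≤ m) (hm : ∀ ψ ∈ π, ψ.size ≤ m) :
    Ded F (dK F * m) (dK F * π.length) Γ {χ | ∃ ψ ∈ π, χ = imp P ψ} := by
  induction h with
  | nil => exact Ded.empty.mono le_rfl le_rfl (fun _ h => h) (by simp)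
  | @hyp π φ _ hφ ih =>
    have ih := ih fun ψ hψ => hm ψ (List.mem_cons_of_mem _ hψ)
    have hφm := hm φ List.mem_cons_self
    have hstep : Ded F (dK F * m) (dK F) Γ {imp P φ} := by
      rcases hφ with rfl | hφ
      · have h1 := schem (F := F) (Γ := []) (φ := imp (Fm.var 0) (Fm.var 0)) (by
          intro v _
          rw [eval_imp]
          cases (Fm.var 0 : Fm F.B).eval v <;> rfl) (fun _ => φ) m (fun _ => hP)
        refine h1.mono ?_ ?_ ?_ ?_
        · exact Nat.mul_le_mul_right _ (by unfold dK; omega)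
        · unfold dK; omega
        · rintro ψ ⟨p, hp, _⟩
          exact absurd hp List.not_mem_nil
        · intro ψ hψ
          rw [Set.mem_singleton_iff] at hψ ⊢
          rw [hψ, subst_imp]
          rfl
      · have h0 : Ded F (dK F * m) 1 Γ {φ} := by
          refine ⟨[φ], Der.hyp Der.nil hφ, ?_, by simp, by simp⟩
          intro ψ hψ
          rw [List.mem_singleton] at hψ
          rw [hψ]
          have h2 : 1 * m ≤ dK F * m := Nat.mul_le_mul_right _ (by unfold dK; omega)
          omega
        have h1 := schem (F := F) (Γ := [Fm.var 1]) (φ := imp (Fm.var 0) (Fm.var 1)) (by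
          intro v hv
          rw [eval_imp, hv _ (List.mem_singleton.2 rfl)]
          simp) (sub2 P φ) m (fun i => by unfold sub2; split <;> assumption)
        have h2 := h0.cut (h1.mono (m' := dK F * m) (Γ' := {φ}) (Δ' := {imp P φ})
          (Nat.mul_le_mul_right _ (by unfold dK; omega)) le_rfl (by
            rintro ψ ⟨p, hp, rfl⟩
            rw [List.mem_singleton] at hp
            subst hp
            rfl) (by
            intro ψ hψ
            rw [Set.mem_singleton_iff] at hψ ⊢
            rw [hψ, subst_imp]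
            rfl))
        refine h2.mono le_rfl ?_ (fun _ h => h) (fun _ h => h)
        unfold dK; omega
    refine (ih.union hstep).mono le_rfl ?_ (fun _ h => h) ?_
    · rw [List.length_cons]; ring_nf; exact le_rfl
    · rintro ψ ⟨χ, hχ, rfl⟩
      rcases List.mem_cons.1 hχ with rfl | hχ
      · exact Or.inr rfl
      · exact Or.inl ⟨χ, hχ, rfl⟩
  | @rule π r σ _ hr hp ih =>
    have ih := ih fun ψ hψ => hm ψ (List.mem_cons_of_mem _ hψ)
    have hc := hm _ List.mem_cons_self
    have h1 := rule_ctx hr P σ (m := m) hP (by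
      intro i hi
      rcases mem_allv r hi with h | ⟨p, hpr, h⟩
      · exact (Fm.size_le_subst σ h).trans hc
      · exact (Fm.size_le_subst σ h).trans (hm _ (List.mem_cons_of_mem _ (hp p hpr))))
    have h2 := ih.trans (h1.mono (n' := dK F) (Γ' := Γ ∪ {χ | ∃ ψ ∈ π, χ = imp P ψ}) le_rfl (by
      have h1 : kRule r ≤ (F.rules.map kRule).sum :=
        List.single_le_sum (by simp) _ (List.mem_map_of_mem hr)
      unfold dK
      omega) (by
        rintro ψ ⟨p, hpr, rfl⟩
        exact Or.inr ⟨_, hp p hpr, rfl⟩) (fun _ h => h))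
    refine h2.mono le_rfl ?_ (fun _ h => h) ?_
    · rw [List.length_cons]; ring_nf; exact le_rfl
    · rintro ψ ⟨χ, hχ, rfl⟩
      rcases List.mem_cons.1 hχ with rfl | hχ
      · exact Or.inr rfl
      · exact Or.inl ⟨χ, hχ, rfl⟩

/-- the deduction lemma -/
theorem Ded.deduct {P : Fm F.B} {Γ Δ : Set (Fm F.B)} {m n : ℕ} (h : Ded F m n (insert P Γ) Δ)
    (hP : P.size ≤ m) : Ded F (dK F * m) (dK F * n) Γ {χ | ∃ ψ ∈ Δ, χ = imp P ψ} := by
  obtain ⟨π, h1, h2, h3, h4⟩ := h
  refine (deduct_aux P h1 hP h2).mono le_rfl (Nat.mul_le_mul_left _ h3) (fun _ h => h) ?_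
  rintro ψ ⟨χ, hχ, rfl⟩
  exact ⟨χ, h4 χ hχ, rfl⟩

/-! ### substitution in extended Frege proofs -/

theorem EDer.subst {τ : Fm F.B} {D : List (ℕ × Fm F.B)} {π : List (Fm F.B)} (h : EDer F τ D π)
    (σ : ℕ → Fm F.B) :
    Der F.rules {χ | ∃ p ∈ D, χ = F.eqv (σ p.1) (p.2.subst σ)} (π.map (Fm.subst σ)) := by
  induction h with
  | nil => exact Der.nil
  | @rule D π r ρ _ hr hp ih =>
    rw [List.map_cons, Fm.subst_subst]
    refine Der.rule _ ih hr fun p hpr => ?_
    rw [← Fm.subst_subst]
    exact List.mem_map_of_mem (hp p hpr)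
  | @ext D π q φ _ _ _ _ ih =>
    rw [List.map_cons]
    refine Der.hyp (ih.mono ?_) ⟨(q, φ), List.mem_cons_self, ?_⟩
    · rintro ψ ⟨p, hp, rfl⟩
      exact ⟨p, List.mem_cons_of_mem _ hp, rfl⟩
    · rw [subst_eqv]
      rfl

theorem EDer.ax_mem {τ : Fm F.B} {D : List (ℕ × Fm F.B)} {π : List (Fm F.B)} (h : EDer F τ D π) :
    ∀ p ∈ D, F.eqv (Fm.var p.1) p.2 ∈ π := by
  induction h with
  | nil => intro p hp; exact absurd hp List.not_mem_nil
  | rule _ _ _ _ ih => intro p hp; exact List.mem_cons_of_mem _ (ih p hp)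
  | ext q φ _ _ _ _ ih =>
    intro p hp
    rcases List.mem_cons.1 hp with rfl | hp
    · exact List.mem_cons_self
    · exact List.mem_cons_of_mem _ (ih p hp)

theorem EDer.not_mem_goal {τ : Fm F.B} {D : List (ℕ × Fm F.B)} {π : List (Fm F.B)}
    (h : EDer F τ D π) : ∀ p ∈ D, p.1 ∉ τ.vars := by
  induction h with
  | nil => intro p hp; exact absurd hp List.not_mem_nil
  | rule _ _ _ _ ih => exact ih
  | ext q φ _ _ hτ _ ih =>
    intro p hp
    rcases List.mem_cons.1 hp with rfl | hp
    · exact hτ
    · exact ih p hp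

/-- the definitions come in a sensible order -/
inductive Ordered {B : Basis} : List (ℕ × Fm B) → Prop
  | nil : Ordered []
  | cons {D : List (ℕ × Fm B)} {q : ℕ} {φ : Fm B} : Ordered D → q ∉ φ.vars →
      (∀ p ∈ D, q ≠ p.1 ∧ q ∉ p.2.vars) → Ordered ((q, φ) :: D)

theorem EDer.ordered {τ : Fm F.B} {D : List (ℕ × Fm F.B)} {π : List (Fm F.B)}
    (h : EDer F τ D π) : Ordered D := by
  induction h with
  | nil => exact Ordered.nil
  | rule _ _ _ _ ih => exact ih
  | @ext D π q φ h hφ hτ hπ ih =>
    refine Ordered.cons ih hφ fun p hp => ?_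
    have h1 := hπ _ (h.ax_mem p hp)
    rw [mem_vars_eqv] at h1
    push Not at h1
    refine ⟨fun he => h1.1 ?_, h1.2⟩
    rw [he]
    simp [Fm.vars]

/-- the general principle: replace the extension variables by formulas whose defining
equivalences have been proved -/
theorem simulate {τ : Fm F.B} {D : List (ℕ × Fm F.B)} {π : List (Fm F.B)} (h : EDer F τ D π)
    (hτ : τ ∈ π) {σ : ℕ → Fm F.B} (hσ : ∀ v, (∀ p ∈ D, v ≠ p.1) → σ v = Fm.var v)
    {Γ : Set (Fm F.B)} {m n : ℕ}
    (hm : ∀ ψ ∈ π, (ψ.subst σ).size ≤ m)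
    (hD : ∀ p ∈ D, Ded F m n Γ {F.eqv (σ p.1) (p.2.subst σ)}) :
    Ded F m (D.length * n + π.length) Γ {τ} := by
  have h1 := Ded.list D (fun p => F.eqv (σ p.1) (p.2.subst σ)) hD
  have h2 : Ded F m π.length {χ | ∃ p ∈ D, χ = F.eqv (σ p.1) (p.2.subst σ)} {τ} := by
    refine ⟨_, h.subst σ, ?_, by simp, ?_⟩
    · intro ψ hψ
      obtain ⟨χ, hχ, rfl⟩ := List.mem_map.1 hψ
      exact hm χ hχ
    · intro ψ hψ
      rw [Set.mem_singleton_iff] at hψ
      subst hψ
      have h3 : ψ.subst σ = ψ := by
        conv_rhs => rw [← Fm.subst_var ψ]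
        refine Fm.subst_congr fun v hv => hσ v fun p hp he => ?_
        exact h.not_mem_goal p hp (he ▸ hv)
      have h4 := List.mem_map_of_mem (f := Fm.subst σ) hτ
      rwa [h3] at h4
  exact h1.cut h2

/-! ### guessed and unfolded extension variables -/

/-- the substitution which replaces the variables of `K` by constants and unfolds the others -/
noncomputable def unf (F : FregeSystem) (K : Finset ℕ) (a : ℕ → Bool) :
    List (ℕ × Fm F.B) → ℕ → Fm F.B
  | [] => Fm.var
  | (q, φ) :: D => Function.update (unf F K a D) q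
      (if q ∈ K then ct (a q) (Fm.var 0) else φ.subst (unf F K a D))

/-- the defining equivalences of the guessed variables -/
noncomputable def hyps (F : FregeSystem) (K : Finset ℕ) (a : ℕ → Bool) :
    List (ℕ × Fm F.B) → Set (Fm F.B)
  | [] => ∅
  | (q, φ) :: D =>
      if q ∈ K then insert (F.eqv (ct (a q) (Fm.var 0)) (φ.subst (unf F K a D))) (hyps F K a D)
      else hyps F K a D

theorem unf_of_not {K : Finset ℕ} {a : ℕ → Bool} {D : List (ℕ × Fm F.B)} {v : ℕ}
    (h : ∀ p ∈ D, v ≠ p.1) : unf F K a D v = Fm.var v := by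
  induction D with
  | nil => rfl
  | cons p D ih =>
    obtain ⟨q, φ⟩ := p
    rw [unf, Function.update_of_ne (h _ List.mem_cons_self)]
    exact ih fun p hp => h p (List.mem_cons_of_mem _ hp)

theorem unf_congr {K : Finset ℕ} {a a' : ℕ → Bool} {D : List (ℕ × Fm F.B)}
    (h : ∀ p ∈ D, a p.1 = a' p.1) : unf F K a D = unf F K a' D := by
  induction D with
  | nil => rfl
  | cons p D ih =>
    obtain ⟨q, φ⟩ := p
    rw [unf, unf, ih fun p hp => h p (List.mem_cons_of_mem _ hp), h _ List.mem_cons_self]

theorem hyps_congr {K : Finset ℕ} {a a' : ℕ → Bool} {D : List (ℕ × Fm F.B)}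
    (h : ∀ p ∈ D, a p.1 = a' p.1) : hyps F K a D = hyps F K a' D := by
  induction D with
  | nil => rfl
  | cons p D ih =>
    obtain ⟨q, φ⟩ := p
    have h' : ∀ p ∈ D, a p.1 = a' p.1 := fun p hp => h p (List.mem_cons_of_mem _ hp)
    rw [hyps, hyps, ih h', unf_congr h', h _ List.mem_cons_self]

theorem unf_stable {K : Finset ℕ} {a : ℕ → Bool} {D : List (ℕ × Fm F.B)} (hD : Ordered D) :
    ∀ p ∈ D, unf F K a D p.1 =
        (if p.1 ∈ K then ct (a p.1) (Fm.var 0) else p.2.subst (unf F K a D)) ∧
      (p.1 ∈ K → F.eqv (ct (a p.1) (Fm.var 0)) (p.2.subst (unf F K a D)) ∈ hyps F K a D) := by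
  induction hD with
  | nil => intro p hp; exact absurd hp List.not_mem_nil
  | @cons D q φ hD hq hqD ih =>
    intro p hp
    have key : ∀ ψ : Fm F.B, q ∉ ψ.vars →
        ψ.subst (unf F K a ((q, φ) :: D)) = ψ.subst (unf F K a D) := by
      intro ψ hψ
      refine Fm.subst_congr fun i hi => ?_
      rw [unf, Function.update_of_ne]
      intro he
      exact hψ (he ▸ hi)
    rcases List.mem_cons.1 hp with rfl | hp
    · refine ⟨?_, ?_⟩
      · rw [key _ hq]
        dsimp only
        rw [unf, Function.update_self]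
      · intro hK
        rw [key _ hq]
        dsimp only at hK ⊢
        rw [hyps, if_pos hK]
        exact Set.mem_insert _ _
    · obtain ⟨h1, h2⟩ := ih p hp
      have h3 := hqD p hp
      refine ⟨?_, ?_⟩
      · rw [key _ h3.2, ← h1, unf, Function.update_of_ne (fun h => h3.1 h.symm)]
      · intro hK
        rw [key _ h3.2, hyps]
        split
        · exact Set.mem_insert_of_mem _ (h2 hK)
        · exact h2 hK

/-- the constant of a case distinction -/
noncomputable def kCase (F : FregeSystem) : ℕ :=
  kap F [imp (F.eqv (ct true (Fm.var 0)) (Fm.var 1)) (Fm.var 2),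
    imp (F.eqv (ct false (Fm.var 0)) (Fm.var 1)) (Fm.var 2)] (Fm.var 2)

theorem case_split (z y x : Fm F.B) {m : ℕ} (hz : z.size ≤ m) (hy : y.size ≤ m)
    (hx : x.size ≤ m) : Ded F (kCase F * m) (kCase F)
      {imp (F.eqv (ct true z) y) x, imp (F.eqv (ct false z) y) x} {x} := by
  have h := schem (F := F) (Γ := [imp (F.eqv (ct true (Fm.var 0)) (Fm.var 1)) (Fm.var 2),
    imp (F.eqv (ct false (Fm.var 0)) (Fm.var 1)) (Fm.var 2)]) (φ := Fm.var 2) (by
      intro v hv
      have h1 := hv _ List.mem_cons_self
      have h2 := hv _ (List.mem_cons_of_mem _ List.mem_cons_self)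
      rw [eval_imp, eval_eqv, eval_ct] at h1 h2
      cases h3 : (Fm.var 1 : Fm F.B).eval v <;> rw [h3] at h1 h2 <;> simp_all)
    (fun i => if i = 0 then z else if i = 1 then y else x) m (by
      intro i
      split
      · exact hz
      · split
        · exact hy
        · exact hx)
  refine h.mono le_rfl le_rfl ?_ ?_
  · rintro ψ ⟨p, hp, rfl⟩
    rcases List.mem_cons.1 hp with rfl | hp
    · left
      rw [subst_imp, subst_eqv, subst_ct]
      rfl
    · rw [List.mem_singleton] at hp
      subst hp
      right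
      rw [Set.mem_singleton_iff, subst_imp, subst_eqv, subst_ct]
      rfl
  · intro ψ hψ
    exact hψ

/-- the base of the exponential factor -/
noncomputable def cT (F : FregeSystem) : ℕ := 2 * dK F + kCase F + 1

theorem guess {τ : Fm F.B} (K : Finset ℕ) : ∀ (D : List (ℕ × Fm F.B)) (m n : ℕ), Ordered D →
    (∀ a, ∀ χ ∈ hyps F K a D, χ.size ≤ m) → τ.size ≤ m → 1 ≤ n →
    (∀ a, Ded F m n (hyps F K a D) {τ}) →
    Ded F (cT F ^ (D.filter (fun p => p.1 ∈ K)).length * m)
      (cT F ^ (D.filter (fun p => p.1 ∈ K)).length * n) ∅ {τ} := by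
  classical
  intro D
  induction D with
  | nil =>
    intro m n _ _ _ _ h
    have := h (fun _ => true)
    simpa [hyps] using this
  | cons p D ih =>
    obtain ⟨q, φ⟩ := p
    intro m n hO hsz hτ hn h
    have hO' : Ordered D := by cases hO; assumption
    have hne : ∀ p ∈ D, q ≠ p.1 := by
      cases hO with
      | cons _ _ h => exact fun p hp => (h p hp).1
    by_cases hq : q ∈ K
    · have hm1 : 1 ≤ m := (Fm.size_pos τ).trans hτ
      -- the two branches
      have hbr : ∀ (a : ℕ → Bool) (b : Bool),
          hyps F K (Function.update a q b) ((q, φ) :: D) =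
            insert (F.eqv (ct b (Fm.var 0)) (φ.subst (unf F K a D))) (hyps F K a D) := by
        intro a b
        have h1 : ∀ p ∈ D, Function.update a q b p.1 = a p.1 := fun p hp =>
          Function.update_of_ne (fun h => hne p hp h.symm) _ _
        rw [hyps, if_pos hq, Function.update_self, unf_congr h1, hyps_congr h1]
      have hstep : ∀ a, Ded F (cT F * m) (cT F * n) (hyps F K a D) {τ} := by
        intro a
        have hb : ∀ b : Bool, Ded F (dK F * m) (dK F * n) (hyps F K a D)
            {imp (F.eqv (ct b (Fm.var 0)) (φ.subst (unf F K a D))) τ} := by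
          intro b
          have h1 := h (Function.update a q b)
          rw [hbr] at h1
          have h2 := h1.deduct (by
            have := hsz (Function.update a q b)
            rw [hbr] at this
            exact this _ (Set.mem_insert _ _))
          refine h2.mono le_rfl le_rfl (fun _ h => h) ?_
          intro ψ hψ
          exact ⟨τ, rfl, hψ⟩
        have hφ : (φ.subst (unf F K a D)).size ≤ m := by
          have := hsz (Function.update a q true)
          rw [hbr] at this
          exact (size_le_eqv_right _ _).trans (this _ (Set.mem_insert _ _))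
        have hcs := case_split (F := F) (Fm.var 0) (φ.subst (unf F K a D)) τ (m := m)
          (by simpa [Fm.size] using hm1) hφ hτ
        have hle1 : dK F * m ≤ cT F * m := Nat.mul_le_mul_right _ (by unfold cT; omega)
        have hle2 : kCase F * m ≤ cT F * m := Nat.mul_le_mul_right _ (by unfold cT; omega)
        have h3 := (((hb true).mono hle1 le_rfl (fun _ h => h) (fun _ h => h)).union
          ((hb false).mono hle1 le_rfl (fun _ h => h) (fun _ h => h))).cut
          (hcs.mono hle2 le_rfl (fun _ h => by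
            rcases h with h | h
            · exact Or.inl h
            · exact Or.inr h) (fun _ h => h))
        refine h3.mono le_rfl ?_ (fun _ h => h) (fun _ h => h)
        unfold cT
        nlinarith
      have hc1 : 1 ≤ cT F := by unfold cT; omega
      have hmm : m ≤ cT F * m := Nat.le_mul_of_pos_left _ hc1
      have h4 := ih (cT F * m) (cT F * n) hO' (fun a χ hχ => by
        have h5 := hsz a χ (by
          rw [hyps, if_pos hq]
          exact Set.mem_insert_of_mem _ hχ)
        exact h5.trans hmm) (hτ.trans hmm) (by nlinarith) hstep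
      rw [List.filter_cons, if_pos (by simpa using hq), List.length_cons]
      refine h4.mono (le_of_eq ?_) (le_of_eq ?_) (fun _ h => h) (fun _ h => h)
      · rw [pow_succ]; ring
      · rw [pow_succ]; ring
    · have h1 : ∀ a, hyps F K a ((q, φ) :: D) = hyps F K a D := by
        intro a
        rw [hyps, if_neg hq]
      rw [List.filter_cons, if_neg (by simpa using hq)]
      refine ih m n hO' (fun a χ hχ => hsz a χ (by rw [h1]; exact hχ)) hτ hn fun a => ?_
      rw [← h1]
      exact h a

end Pool.Agent.T9h49.FE
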