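import Pool.Agent.T9h49.FE.Deduct

/-!
Extended Frege proofs in which few extension variables are guessed and the others have small
nesting depth.
-/

set_option autoImplicit false

namespace Pool.Agent.T9h49.FE

variable {F : FregeSystem}

/-- After the deletion of the variables in `K` the definitions `D` have nesting depth at most `d`:
there is a level below `d` for each defined variable outside `K` such that its definition uses only
variables outside `K` of lower level, variables of `K`, and variables which are not defined. -/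
def Reducible {B : Basis} (D : List (ℕ × Fm B)) (K : Finset ℕ) (d : ℕ) : Prop :=
  ∃ lev : ℕ → ℕ, ∀ p ∈ D, p.1 ∉ K → lev p.1 < d ∧
    ∀ v ∈ p.2.vars, v ∉ K → v ∈ D.map Prod.fst → lev v < lev p.1

/-- size of the constants -/
noncomputable def c0 (F : FregeSystem) : ℕ :=
  (ct true (Fm.var 0) : Fm F.B).size + (ct false (Fm.var 0) : Fm F.B).size

theorem size_ct (b : Bool) : (ct b (Fm.var 0) : Fm F.B).size ≤ c0 F := by
  unfold c0
  cases b <;> omega

theorem c0_pos (F : FregeSystem) : 1 ≤ c0 F :=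
  (Fm.size_pos _).trans (size_ct (F := F) true)

/-- number of symbols of a formula when a variable `v` counts `w v` -/
def wsize {B : Basis} (w : ℕ → ℕ) : Fm B → ℕ
  | Fm.var v => w v
  | Fm.app _ f => 1 + ∑ i, wsize w (f i)

/-- If the variables in `K` are not unfolded, then the unfolded definitions of the other variables
have at most `t` symbols. Here `w v` bounds the size of the unfolding of `v`. -/
def UnfoldsTo {B : Basis} (D : List (ℕ × Fm B)) (K : Finset ℕ) (t : ℕ) : Prop :=
  ∃ w : ℕ → ℕ, (∀ v, 1 ≤ w v ∧ w v ≤ t) ∧ ∀ p ∈ D, p.1 ∉ K → wsize w p.2 ≤ w p.1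

theorem wsize_le {B : Basis} {w : ℕ → ℕ} {t : ℕ} (ht : 1 ≤ t) {φ : Fm B}
    (h : ∀ v ∈ φ.vars, w v ≤ t) : wsize w φ ≤ φ.size * t := by
  induction φ with
  | var i => simpa [wsize, Fm.size] using h i (by simp [Fm.vars])
  | app b f ih =>
    simp only [wsize, Fm.size, add_mul, Finset.sum_mul, one_mul]
    refine Nat.add_le_add ht (Finset.sum_le_sum fun i _ => ih i fun j hj => h j ?_)
    simp only [Fm.vars, Finset.mem_biUnion, Finset.mem_univ, true_and]
    exact ⟨i, hj⟩

theorem wsize_subst {B : Basis} {w : ℕ → ℕ} {c : ℕ} (hc : 1 ≤ c) {σ : ℕ → Fm B} {φ : Fm B}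
    (h : ∀ v, (σ v).size ≤ c * w v) : (φ.subst σ).size ≤ c * wsize w φ := by
  induction φ with
  | var i => exact h i
  | app b f ih =>
    simp only [wsize, Fm.subst, Fm.size, mul_add, mul_one, Finset.mul_sum]
    exact Nat.add_le_add hc (Finset.sum_le_sum fun i _ => ih i)

/-- small nesting depth gives small unfoldings -/
theorem Reducible.unfoldsTo {B : Basis} {D : List (ℕ × Fm B)} {K : Finset ℕ} {d s : ℕ}
    (h : Reducible D K d) (hs : 1 ≤ s) (hD : ∀ p ∈ D, p.2.size ≤ s) :
    UnfoldsTo D K (s ^ d) := by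
  classical
  obtain ⟨lev, hlev⟩ := h
  refine ⟨fun v => if v ∈ D.map Prod.fst ∧ v ∉ K then s ^ (lev v + 1) else 1, ?_, ?_⟩
  · intro v
    dsimp only
    split
    · rename_i hv
      refine ⟨Nat.pow_pos hs, Nat.pow_le_pow_right hs ?_⟩
      obtain ⟨p, hp, rfl⟩ := List.mem_map.1 hv.1
      exact (hlev p hp hv.2).1
    · exact ⟨le_rfl, Nat.pow_pos hs⟩
  · intro p hp hK
    have hmem : p.1 ∈ D.map Prod.fst := List.mem_map_of_mem hp
    have hval : (fun v => if v ∈ D.map Prod.fst ∧ v ∉ K then s ^ (lev v + 1) else 1) p.1 =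
        s ^ (lev p.1 + 1) := if_pos ⟨hmem, hK⟩
    rw [hval]
    refine (wsize_le (t := s ^ lev p.1) (Nat.pow_pos hs) fun v hv => ?_).trans ?_
    · split
      · rename_i h
        exact Nat.pow_le_pow_right hs ((hlev p hp hK).2 v hv h.2 h.1)
      · exact Nat.pow_pos hs
    · rw [pow_succ, Nat.mul_comm]
      exact Nat.mul_le_mul_left _ (hD p hp)

theorem unf_size {K : Finset ℕ} {a : ℕ → Bool} {s t : ℕ} {w : ℕ → ℕ}
    (hw : ∀ v, 1 ≤ w v ∧ w v ≤ t) :
    ∀ (D : List (ℕ × Fm F.B)), (∀ p ∈ D, p.2.size ≤ s) →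
      (∀ p ∈ D, p.1 ∉ K → wsize w p.2 ≤ w p.1) →
    (∀ v, (unf F K a D v).size ≤ c0 F * w v) ∧
    ∀ χ ∈ hyps F K a D, χ.size ≤ F.iff.size * (c0 F * (s * t)) := by
  classical
  have hc := c0_pos F
  have ht : 1 ≤ t := (hw 0).1.trans (hw 0).2
  intro D
  induction D with
  | nil =>
    intro _ _
    refine ⟨fun v => ?_, ?_⟩
    · simp only [unf, Fm.size]
      exact Nat.mul_pos hc (hw v).1
    · intro χ hχ
      exact absurd hχ (by simp [hyps])
  | cons p D ih =>
    obtain ⟨q, φ⟩ := p
    intro hsz hlev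
    obtain ⟨ih1, ih3⟩ := ih (fun p hp => hsz p (List.mem_cons_of_mem _ hp))
      (fun p hp => hlev p (List.mem_cons_of_mem _ hp))
    have hφ := hsz _ List.mem_cons_self
    dsimp only at hφ
    have h3 : (φ.subst (unf F K a D)).size ≤ c0 F * wsize w φ := wsize_subst hc ih1
    refine ⟨fun v => ?_, ?_⟩
    · by_cases hv : v = q
      · subst hv
        rw [unf, Function.update_self]
        by_cases hK : v ∈ K
        · rw [if_pos hK]
          exact (size_ct _).trans (Nat.le_mul_of_pos_right _ (hw v).1)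
        · rw [if_neg hK]
          exact h3.trans (Nat.mul_le_mul_left _ (hlev _ List.mem_cons_self hK))
      · rw [unf, Function.update_of_ne hv]
        exact ih1 v
    · intro χ hχ
      rw [hyps] at hχ
      split at hχ
      · rcases hχ with rfl | hχ
        · have h5 : wsize w φ ≤ φ.size * t := wsize_le ht fun v _ => (hw v).2
          have h6 : φ.size * t ≤ s * t := Nat.mul_le_mul_right _ hφ
          have h4 : (φ.subst (unf F K a D)).size ≤ c0 F * (s * t) :=
            h3.trans (Nat.mul_le_mul_left _ (h5.trans h6))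
          have h7 : 1 ≤ s * t := Nat.mul_pos ((Fm.size_pos φ).trans hφ) ht
          exact size_eqv ((size_ct _).trans (Nat.le_mul_of_pos_right _ h7)) h4
        · exact ih3 χ hχ
      · exact ih3 χ hχ

/-- the constant of reflexivity -/
noncomputable def kRefl (F : FregeSystem) : ℕ := kap F [] (F.eqv (Fm.var 0) (Fm.var 0))

theorem ded_refl (x : Fm F.B) {m : ℕ} (hx : x.size ≤ m) (Γ : Set (Fm F.B)) :
    Ded F (kRefl F * m) (kRefl F) Γ {F.eqv x x} := by
  have h := schem (F := F) (Γ := []) (φ := F.eqv (Fm.var 0) (Fm.var 0)) (by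
    intro v _
    rw [eval_eqv]
    simp) (fun _ => x) m (fun _ => hx)
  refine h.mono le_rfl le_rfl ?_ ?_
  · rintro ψ ⟨p, hp, _⟩
    exact absurd hp List.not_mem_nil
  · intro ψ hψ
    rw [Set.mem_singleton_iff] at hψ ⊢
    rw [hψ, subst_eqv]
    rfl

theorem size_le_lsize {B : Basis} {π : List (Fm B)} {ψ : Fm B} (h : ψ ∈ π) :
    ψ.size ≤ lsize π := List.single_le_sum (by simp) _ (List.mem_map_of_mem h)

theorem length_le_lsize {B : Basis} (π : List (Fm B)) : π.length ≤ lsize π := by
  unfold lsize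
  induction π with
  | nil => simp
  | cons ψ π ih =>
    simp only [List.length_cons, List.map_cons, List.sum_cons]
    have := Fm.size_pos ψ
    omega

theorem EDer.length_le {τ : Fm F.B} {D : List (ℕ × Fm F.B)} {π : List (Fm F.B)}
    (h : EDer F τ D π) : D.length ≤ π.length := by
  induction h with
  | nil => simp
  | rule _ _ _ _ ih => simp only [List.length_cons]; omega
  | ext _ _ _ _ _ _ ih => simp only [List.length_cons]; omega

theorem Ordered.nodup {B : Basis} {D : List (ℕ × Fm B)} (h : Ordered D) :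
    (D.map Prod.fst).Nodup := by
  induction h with
  | nil => exact List.nodup_nil
  | @cons D q φ _ _ h2 ih =>
    rw [List.map_cons, List.nodup_cons]
    refine ⟨fun hq => ?_, ih⟩
    obtain ⟨p, hp, he⟩ := List.mem_map.1 hq
    exact (h2 p hp).1 he.symm

theorem Ordered.card_filter {B : Basis} {D : List (ℕ × Fm B)} (h : Ordered D) (K : Finset ℕ) :
    (D.filter (fun p => p.1 ∈ K)).length ≤ K.card := by
  classical
  have h1 : ((D.filter (fun p => p.1 ∈ K)).map Prod.fst).Nodup :=
    h.nodup.sublist (List.filter_sublist.map _)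
  rw [← List.length_map (f := Prod.fst), ← List.toFinset_card_of_nodup h1]
  refine Finset.card_le_card fun x hx => ?_
  rw [List.mem_toFinset, List.mem_map] at hx
  obtain ⟨p, hp, rfl⟩ := hx
  rw [List.mem_filter] at hp
  simpa using hp.2

/-- factor for the line sizes -/
noncomputable def cM (F : FregeSystem) : ℕ := F.iff.size + kRefl F + 1

theorem of_unfolds_aux {τ : Fm F.B} {D : List (ℕ × Fm F.B)} {π : List (Fm F.B)}
    (h : IsEProof F τ D π) {K : Finset ℕ} {t : ℕ} (ht : UnfoldsTo D K t) :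
    ∃ π', IsProof F τ π' ∧ lsize π' ≤
      (cT F ^ K.card * ((kRefl F + 2) * lsize π)) *
        (cT F ^ K.card * (cM F * (c0 F * (lsize π * t)))) := by
  classical
  obtain ⟨h1, hτ⟩ := h
  obtain ⟨w, hw, hlev⟩ := ht
  have ht : 1 ≤ t := (hw 0).1.trans (hw 0).2
  set s := lsize π with hs
  have hs1 : 1 ≤ s := (Fm.size_pos τ).trans (size_le_lsize hτ)
  have hc := c0_pos F
  have hDs : ∀ p ∈ D, p.2.size ≤ s := fun p hp =>
    (size_le_eqv_right _ _).trans (size_le_lsize (h1.ax_mem p hp))
  have hO := h1.ordered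
  have hsz : ∀ a, (∀ v, (unf F K a D v).size ≤ c0 F * w v) ∧
      ∀ χ ∈ hyps F K a D, χ.size ≤ F.iff.size * (c0 F * (s * t)) := fun a =>
    unf_size hw D hDs hlev
  set m := cM F * (c0 F * (s * t)) with hm
  have hcs : 1 ≤ c0 F * (s * t) := Nat.mul_pos hc (Nat.mul_pos hs1 ht)
  have hsub : ∀ (a : ℕ → Bool) (ψ : Fm F.B), ψ.size ≤ s →
      (ψ.subst (unf F K a D)).size ≤ c0 F * (s * t) := by
    intro a ψ hψ
    refine (wsize_subst hc (hsz a).1).trans (Nat.mul_le_mul_left _ ?_)
    exact (wsize_le ht fun v _ => (hw v).2).trans (Nat.mul_le_mul_right _ hψ)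
  have hle : ∀ x, x ≤ cM F → x * (c0 F * (s * t)) ≤ m := fun x hx =>
    Nat.mul_le_mul_right _ hx
  have hded : ∀ a, Ded F m ((kRefl F + 2) * s) (hyps F K a D) {τ} := by
    intro a
    have h2 := simulate h1 hτ (σ := unf F K a D) (Γ := hyps F K a D) (m := m)
      (n := kRefl F + 1) (fun v hv => unf_of_not hv) (fun ψ hψ =>
        (hsub a ψ (size_le_lsize hψ)).trans ((Nat.le_mul_of_pos_left _ (by unfold cM; omega)))) (by
        intro p hp
        obtain ⟨h3, h4⟩ := unf_stable (K := K) (a := a) hO p hp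
        by_cases hK : p.1 ∈ K
        · rw [h3, if_pos hK]
          refine ⟨[F.eqv (ct (a p.1) (Fm.var 0)) (p.2.subst (unf F K a D))],
            Der.hyp Der.nil (h4 hK), ?_, by simp, by simp⟩
          intro ψ hψ
          rw [List.mem_singleton] at hψ
          rw [hψ]
          exact ((hsz a).2 _ (h4 hK)).trans (hle _ (by unfold cM; omega))
        · rw [h3, if_neg hK]
          exact (ded_refl (p.2.subst (unf F K a D)) (hsub a _ (hDs p hp)) _).mono
            (hle _ (by unfold cM; omega)) (by omega) (fun _ h => h) (fun _ h => h))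
    refine h2.mono le_rfl ?_ (fun _ h => h) (fun _ h => h)
    have h3 := h1.length_le
    have h4 := length_le_lsize π
    have h5 : D.length * (kRefl F + 1) ≤ s * (kRefl F + 1) :=
      Nat.mul_le_mul_right _ (by omega)
    nlinarith
  have hg := guess (F := F) (τ := τ) K D m ((kRefl F + 2) * s) hO (fun a χ hχ =>
    ((hsz a).2 χ hχ).trans (hle _ (by unfold cM; omega))) (by
      have h5 : τ.size ≤ s := size_le_lsize hτ
      have h6 : τ.size ≤ s * t := h5.trans (Nat.le_mul_of_pos_right _ ht)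
      exact h6.trans ((Nat.le_mul_of_pos_left _ hc).trans
        (Nat.le_mul_of_pos_left _ (by unfold cM; omega))))
      (Nat.mul_pos (by omega) hs1) hded
  obtain ⟨π', h6, h7⟩ := hg.proof
  refine ⟨π', h6, h7.trans ?_⟩
  have hK := hO.card_filter K
  have hT : 1 ≤ cT F := by unfold cT; omega
  exact Nat.mul_le_mul (Nat.mul_le_mul_right _ (Nat.pow_le_pow_right hT hK))
    (Nat.mul_le_mul_right _ (Nat.pow_le_pow_right hT hK))

theorem le_two_pow (n : ℕ) : n ≤ 2 ^ n := (Nat.lt_two_pow_self).le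

/-- extended Frege proofs with `k` guessed extension variables and unfoldings of size `t` -/
theorem of_unfolds (F : FregeSystem) : ∃ c : ℕ, ∀ (τ : Fm F.B) (D : List (ℕ × Fm F.B))
    (π : List (Fm F.B)), IsEProof F τ D π → ∀ (K : Finset ℕ) (t : ℕ), UnfoldsTo D K t →
    ∃ π', IsProof F τ π' ∧ lsize π' ≤ 2 ^ (c * K.card) * ((lsize π + 2) * t) ^ c := by
  refine ⟨2 * cT F + (kRefl F + 2) + cM F + c0 F + 2, fun τ D π h K t ht => ?_⟩
  obtain ⟨π', h1, h2⟩ := of_unfolds_aux h ht
  refine ⟨π', h1, h2.trans ?_⟩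
  have ht1 : 1 ≤ t := by
    obtain ⟨w, hw, _⟩ := ht
    exact (hw 0).1.trans (hw 0).2
  set s := lsize π
  set k := K.card
  set u := (s + 2) * t with hu
  have hu2 : 2 ≤ u := by rw [hu]; nlinarith
  have e1 : cT F ^ k ≤ 2 ^ (cT F * k) := by
    rw [pow_mul]
    exact Nat.pow_le_pow_left (le_two_pow _) _
  have e2 : ∀ x, x ≤ u ^ x := fun x =>
    (le_two_pow x).trans (Nat.pow_le_pow_left hu2 _)
  have e3 : s ≤ u ^ 1 := by rw [pow_one, hu]; nlinarith
  have e4 : s * t ≤ u ^ 1 := by rw [pow_one, hu]; nlinarith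
  calc (cT F ^ k * ((kRefl F + 2) * s)) * (cT F ^ k * (cM F * (c0 F * (s * t))))
      ≤ (2 ^ (cT F * k) * (u ^ (kRefl F + 2) * u ^ 1)) *
        (2 ^ (cT F * k) * (u ^ cM F * (u ^ c0 F * u ^ 1))) :=
        Nat.mul_le_mul (Nat.mul_le_mul e1 (Nat.mul_le_mul (e2 _) e3))
          (Nat.mul_le_mul e1 (Nat.mul_le_mul (e2 _) (Nat.mul_le_mul (e2 _) e4)))
    _ = 2 ^ (2 * cT F * k) * u ^ ((kRefl F + 2) + 1 + cM F + c0 F + 1) := by
        ring
    _ ≤ _ := by
        refine Nat.mul_le_mul (Nat.pow_le_pow_right (by norm_num)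
          (Nat.mul_le_mul_right _ (by omega))) (Nat.pow_le_pow_right (by omega) (by omega))

/-- extended Frege proofs with `k` guessed extension variables and nesting depth `d` of the
others -/
theorem of_reducible (F : FregeSystem) : ∃ c : ℕ, ∀ (τ : Fm F.B) (D : List (ℕ × Fm F.B))
    (π : List (Fm F.B)), IsEProof F τ D π → ∀ (K : Finset ℕ) (d : ℕ), Reducible D K d →
    ∃ π', IsProof F τ π' ∧ lsize π' ≤ 2 ^ (c * K.card) * (lsize π + 2) ^ (c * (d + 1)) := by
  obtain ⟨c, hc⟩ := of_unfolds F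
  refine ⟨c, fun τ D π h K d hd => ?_⟩
  have hDs : ∀ p ∈ D, p.2.size ≤ lsize π + 2 := fun p hp =>
    ((size_le_eqv_right _ _).trans (size_le_lsize (h.1.ax_mem p hp))).trans (by omega)
  obtain ⟨π', h1, h2⟩ := hc τ D π h K _ (hd.unfoldsTo (s := lsize π + 2) (by omega) hDs)
  refine ⟨π', h1, h2.trans (le_of_eq ?_)⟩
  rw [← pow_succ', ← pow_mul, Nat.mul_comm (d + 1) c]

end Pool.Agent.T9h49.FE
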