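import Pool.Agent.T9h49.FE.Lin

/-!
Evaluation of the definitions of one level by products of matrices.
-/

set_option autoImplicit false

namespace Pool.Agent.T9h49.FE

variable {F : FregeSystem} (R : Arith F)

theorem bb_mono {X X' : ℕ} (h : X ≤ X') (n : ℕ) : bb X n ≤ bb X' n := by
  induction n with
  | zero => exact h
  | succ n ih => rw [bb, bb]; omega

section

variable (W : ℕ) (tt : ℕ → LS F.B) (σ : ℕ → Fm F.B) (idx : ℕ → ℕ)

/-- the state after instruction `i` -/
def stpL (i : ℕ) (y : ℕ → Fm F.B) (r : ℕ) : Fm F.B :=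
  if r = i + 1 then (tt i).val R σ idx y else y r

/-- coordinate `r` of the state when the instructions `u, ..., i - 1` of the block of length
`2 ^ n` are executed in the state with `1` at the coordinate `k` and `0` elsewhere -/
noncomputable def PL : ℕ → ℕ → ℕ → ℕ → ℕ → Fm F.B
  | 0, u, i, k, r => if i ≤ u then cst F (decide (k = r))
      else stpL R tt σ idx u (fun j => cst F (decide (k = j))) r
  | n + 1, u, i, k, r =>
      if i ≤ u + 2 ^ n then PL n u i k r
      else comb R W (PL n u (u + 2 ^ n) k) (fun l => PL n (u + 2 ^ n) i l) r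

theorem PL_start (n : ℕ) : ∀ (u i k r : ℕ), i ≤ u →
    PL R W tt σ idx n u i k r = cst F (decide (k = r)) := by
  induction n with
  | zero => intro u i k r h; rw [PL, if_pos h]
  | succ n ih =>
    intro u i k r h
    rw [PL, if_pos (h.trans (Nat.le_add_right _ _))]
    exact ih u i k r h

/-- bound for the sizes -/
def SL (W s M n : ℕ) : ℕ := (R.kk ^ (W + 1)) ^ n * (s * (R.kk * M))

theorem SL_succ (s M n : ℕ) : SL R W s M (n + 1) = R.kk ^ (W + 1) * SL R W s M n := by
  unfold SL
  rw [pow_succ]
  ring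

theorem SL_mono (s M n : ℕ) : SL R W s M n ≤ SL R W s M (n + 1) := by
  rw [SL_succ]
  exact Nat.le_mul_of_pos_left _ (Nat.pow_pos (kk_pos R))

theorem le_SL {s : ℕ} (hs : 1 ≤ s) (M n : ℕ) : M ≤ SL R W s M n := by
  unfold SL
  have h1 : 1 ≤ (R.kk ^ (W + 1)) ^ n := Nat.pow_pos (Nat.pow_pos (kk_pos R))
  exact ((Nat.le_mul_of_pos_left _ (kk_pos R)).trans (Nat.le_mul_of_pos_left _ hs)).trans
    (Nat.le_mul_of_pos_left _ h1)

variable {s M : ℕ}

theorem size_stpL (hs : 1 ≤ s) (hM : 1 ≤ M) (hσ : ∀ v, (σ v).size ≤ M)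
    (htt : ∀ i, ((tt i).fm R).size ≤ s) {y : ℕ → Fm F.B} (hy : ∀ j, (y j).size ≤ M) (i r : ℕ) :
    (stpL R tt σ idx i y r).size ≤ s * (R.kk * M) := by
  unfold stpL
  split
  · exact (size_val R hM hσ hy _).trans (Nat.mul_le_mul_right _ (htt i))
  · exact (hy r).trans ((Nat.le_mul_of_pos_left _ (kk_pos R)).trans
      (Nat.le_mul_of_pos_left _ hs))

theorem size_PL (hs : 1 ≤ s) (hM : c0 F ≤ M) (hσ : ∀ v, (σ v).size ≤ M)
    (htt : ∀ i, ((tt i).fm R).size ≤ s) (n : ℕ) :
    ∀ u i k r, (PL R W tt σ idx n u i k r).size ≤ SL R W s M n := by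
  have hM1 : 1 ≤ M := (c0_pos F).trans hM
  induction n with
  | zero =>
    intro u i k r
    rw [PL]
    have h0 : SL R W s M 0 = s * (R.kk * M) := by
      unfold SL
      rw [pow_zero, one_mul]
    split
    · exact ((size_ct _).trans hM).trans (le_SL R W hs M 0)
    · rw [h0]
      exact size_stpL R tt σ idx hs hM1 hσ htt (fun j => (size_ct _).trans hM) u r
  | succ n ih =>
    intro u i k r
    rw [PL]
    split
    · exact (ih u i k r).trans (SL_mono R W s M n)
    · rw [SL_succ, pow_succ, Nat.mul_assoc]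
      exact size_big R fun l _ => size_adn R (ih _ _ _ _) (ih _ _ _ _)

/-- lines of one step -/
noncomputable def Lf (W s : ℕ) : ℕ → ℕ
  | 0 => kR R
  | n + 1 => bb (Lf W s n + 3 * kR R) W + s * kN R W + s * (bb (kR R) W + 2 * kR R) +
      bb (kR R) W + 5 * kR R

theorem Lf_mono (n : ℕ) : Lf R W s n ≤ Lf R W s (n + 1) := by
  rw [Lf]
  have h : ∀ X k, X ≤ bb X k := by
    intro X k
    induction k with
    | zero => exact le_rfl
    | succ k ih => rw [bb]; omega
  have := h (Lf R W s n + 3 * kR R) W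
  omega

theorem stepL {X : ℕ → Prop} (hidx : ∀ v, X v → idx v < 2 ^ W) (hs : 1 ≤ s) (hM : c0 F ≤ M)
    (hσ : ∀ v, (σ v).size ≤ M) (htt : ∀ i, ((tt i).fm R).size ≤ s)
    (hok : ∀ i, (tt i).ok X) (n : ℕ) :
    ∀ {m : ℕ}, kR R * (s * (R.kk ^ (W + 4) * SL R W s M n)) ≤ m →
    ∀ u i k r, r < 2 ^ W → u ≤ i → i < u + 2 ^ n →
    Ded F m (Lf R W s n) ∅ {F.eqv (PL R W tt σ idx n u (i + 1) k r)
      (stpL R tt σ idx i (PL R W tt σ idx n u i k) r)} := by
  have hM1 : 1 ≤ M := (c0_pos F).trans hM
  have hk := kk_pos R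
  induction n with
  | zero =>
    intro m hm u i k r _ h1 h2
    have hiu : i = u := by omega
    subst hiu
    have e1 : PL R W tt σ idx 0 i (i + 1) k r =
        stpL R tt σ idx i (fun j => cst F (decide (k = j))) r := by
      rw [PL, if_neg (by omega)]
    have e2 : PL R W tt σ idx 0 i i k = fun j => cst F (decide (k = j)) := by
      funext j
      exact PL_start R W tt σ idx 0 i i k j le_rfl
    rw [e1, e2]
    refine ded_refl' R _ (s := s * (R.kk ^ (W + 4) * SL R W s M 0)) ?_ hm ∅
    have h3 := size_stpL R tt σ idx hs hM1 hσ htt (y := fun j => cst F (decide (k = j)))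
      (fun j => (size_ct _).trans hM) i r
    refine h3.trans ?_
    have h0 : SL R W s M 0 = s * (R.kk * M) := by
      unfold SL
      rw [pow_zero, one_mul]
    rw [h0]
    exact (kk_le_pow R (W + 4) _).trans (Nat.le_mul_of_pos_left _ hs)
  | succ n ih =>
    intro m hm u i k r hr h1 h2
    have hSS : SL R W s M n ≤ SL R W s M (n + 1) := SL_mono R W s M n
    have hm' : kR R * (s * (R.kk ^ (W + 4) * SL R W s M n)) ≤ m :=
      (Nat.mul_le_mul_left _ (Nat.mul_le_mul_left _ (Nat.mul_le_mul_left _ hSS))).trans hm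
    by_cases hi : i + 1 ≤ u + 2 ^ n
    · have e1 : PL R W tt σ idx (n + 1) u (i + 1) k r = PL R W tt σ idx n u (i + 1) k r := by
        rw [PL, if_pos hi]
      have e2 : PL R W tt σ idx (n + 1) u i k = PL R W tt σ idx n u i k := by
        funext j
        rw [PL, if_pos (by omega)]
      rw [e1, e2]
      exact (ih hm' u i k r hr h1 (by omega)).mono le_rfl (Lf_mono R W n) (fun _ h => h)
        (fun _ h => h)
    · have hmid : u + 2 ^ n ≤ i := by omega
      have hlt : i < u + 2 ^ n + 2 ^ n := by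
        rw [pow_succ] at h2
        omega
      set mid := u + 2 ^ n with hmiddef
      set M1 := SL R W s M n with hM1def
      have hMM1 : M ≤ M1 := le_SL R W hs M n
      have hM11 : 1 ≤ M1 := hM1.trans hMM1
      set y : ℕ → Fm F.B := PL R W tt σ idx n u mid k with hy
      set Z : ℕ → ℕ → Fm F.B := fun l => PL R W tt σ idx n mid i l with hZ
      set Z' : ℕ → ℕ → Fm F.B := fun l => PL R W tt σ idx n mid (i + 1) l with hZ'
      have e1 : PL R W tt σ idx (n + 1) u (i + 1) k r = comb R W y Z' r := by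
        rw [PL, if_neg hi]
      have hysz : ∀ j, (y j).size ≤ M1 := fun j => size_PL R W tt σ idx hs hM hσ htt n u mid k j
      have hZsz : ∀ l j, (Z l j).size ≤ M1 := fun l j =>
        size_PL R W tt σ idx hs hM hσ htt n mid i l j
      have hZsz' : ∀ l j, (Z' l j).size ≤ M1 := fun l j =>
        size_PL R W tt σ idx hs hM hσ htt n mid (i + 1) l j
      have hσ1 : ∀ v, (σ v).size ≤ M1 := fun v => (hσ v).trans hMM1
      -- the large size bound
      set S := s * (R.kk ^ (W + 4) * M1) with hS
      have hupS : ∀ a, a ≤ W + 4 → ∀ {x : ℕ}, x ≤ s * (R.kk ^ a * M1) → x ≤ S :=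
        fun a ha x hx => hx.trans (pow_mul_le hk ha)
      have hM1S : M1 ≤ s * (R.kk ^ 0 * M1) := by
        rw [pow_zero, one_mul]
        exact Nat.le_mul_of_pos_left _ hs
      have hcombsz : ∀ (Z : ℕ → ℕ → Fm F.B), (∀ l j, (Z l j).size ≤ M1) → ∀ j,
          (comb R W y Z j).size ≤ R.kk ^ (W + 1) * M1 := by
        intro Z hZ j
        rw [pow_succ, Nat.mul_assoc]
        exact size_big R fun l _ => size_adn R (hysz l) (hZ l j)
      have hcombS : ∀ (Z : ℕ → ℕ → Fm F.B), (∀ l j, (Z l j).size ≤ M1) → ∀ j,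
          (comb R W y Z j).size ≤ S := fun Z hZ j =>
        hupS (W + 1) (by omega) ((hcombsz Z hZ j).trans (Nat.le_mul_of_pos_left _ hs))
      -- selection of a coordinate when `i` is the middle
      have hsel : i = mid → ∀ j, j < 2 ^ W →
          Ded F m (bb (kR R) W) ∅ {F.eqv (comb R W y Z j) (y j)} := by
        intro hie j hj
        have e2 : comb R W y Z j = big R W (fun i => R.adn (y (0 + i))
            (cst F (decide (0 + i = j)))) := by
          unfold comb
          congr 1
          funext l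
          rw [hZ]
          dsimp only
          rw [PL_start R W tt σ idx n mid i l j (by omega), Nat.zero_add]
        rw [e2]
        refine big_sel R y j (s := M1) (hM.trans hMM1) (fun i _ => hysz _) (Nat.zero_le _)
          (by omega) (le_trans (Nat.mul_le_mul_left _ ?_) hm')
        exact (Nat.le_mul_of_pos_left _ hs).trans (pow_mul_le hk (by omega))
      -- replacement of the last step
      have hrep : ∀ (g : ℕ → Fm F.B), (∀ l, (g l).size ≤ s * (R.kk ^ 1 * M1)) →
          (∀ l, l < 2 ^ W → Ded F m (Lf R W s n) ∅ {F.eqv (Z' l r) (g l)}) →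
          Ded F m (bb (Lf R W s n + 3 * kR R) W) ∅
            {F.eqv (comb R W y Z' r) (big R W (fun l => R.adn (y l) (g l)))} := by
        intro g hg h
        have hMs : M1 ≤ s * (R.kk ^ 1 * M1) := hM1S.trans (pow_mul_le hk (by omega))
        refine (big_cong R (Γ := ∅) (m := m) (n0 := kR R + Lf R W s n + kR R)
          (s := s * (R.kk ^ 2 * M1)) (n := W) (f := fun l => R.adn (y l) (Z' l r))
          (g := fun l => R.adn (y l) (g l)) (fun l hl => ?_) (fun l _ => ?_) (fun l _ => ?_)
          ?_).mono le_rfl (bb_mono (by omega) W) (fun _ h => h) (fun _ h => h)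
        · have h0 := ded_refl' R (y l) (m := m) (hupS 0 (by omega) ((hysz l).trans hM1S)) hm' ∅
          exact ded_adn_cong R h0 (h l hl) (hupS 0 (by omega) ((hysz l).trans hM1S))
            (hupS 0 (by omega) ((hysz l).trans hM1S))
            (hupS 0 (by omega) ((hZsz' l r).trans hM1S)) (hupS 1 (by omega) (hg l)) hm'
        · exact (size_adn R ((hysz l).trans hMs) ((hZsz' l r).trans hMs)).trans
            (le_of_eq (by ring))
        · exact (size_adn R ((hysz l).trans hMs) (hg l)).trans (le_of_eq (by ring))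
        · refine le_trans (Nat.mul_le_mul_left _ ?_) hm'
          rw [show R.kk ^ W * (s * (R.kk ^ 2 * M1)) = s * (R.kk ^ (W + 2) * M1) by ring]
          exact pow_mul_le hk (by omega)
      rw [e1]
      by_cases hri : r = i + 1
      · -- the new value
        have e3 : ∀ y, stpL R tt σ idx i y r = (tt i).val R σ idx y := fun y => by
          rw [stpL, if_pos hri]
        rw [e3]
        have hg : ∀ l, ((tt i).val R σ idx (Z l)).size ≤ s * (R.kk ^ 1 * M1) := fun l =>
          (size_val R hM11 hσ1 (hZsz l) (tt i)).trans (le_trans (Nat.mul_le_mul_right _ (htt i))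
            (le_of_eq (by ring)))
        have a1 := hrep (fun l => (tt i).val R σ idx (Z l)) hg (fun l _ => by
          have h3 := ih hm' mid i l r hr hmid hlt
          rw [e3] at h3
          exact h3)
        have a2 := val_lin R (W := W) (idx := idx) (y := y) (Z := Z) (m := m) hM11 hσ1 hysz hZsz
          (hm') ∅ (tt i) (htt i)
        have hvc : ((tt i).val R σ idx (comb R W y Z)).size ≤ S := by
          have h1 : M1 ≤ R.kk ^ (W + 1) * M1 := kk_le_pow R (W + 1) M1
          have h3 := size_val R (hM11.trans h1) (fun v => (hσ1 v).trans h1) (hcombsz Z hZsz) (tt i)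
            (idx := idx)
          refine hupS (W + 2) (by omega) (h3.trans ((Nat.mul_le_mul_right _ (htt i)).trans
            (le_of_eq (by ring))))
        have hbg : (big R W (fun l => R.adn (y l) ((tt i).val R σ idx (Z l)))).size ≤ S := by
          refine hupS (W + 2) (by omega) ((size_big R (m := s * (R.kk ^ 2 * M1)) fun l _ =>
            (size_adn R ((hysz l).trans (hM1S.trans (pow_mul_le hk (show 0 ≤ 1 by omega))))
              (hg l)).trans (le_of_eq (by ring))).trans (le_of_eq (by ring)))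
        have a3 := a1.trans' R (a2.sym' R hvc hbg hm') (hcombS Z' hZsz' r) hbg hvc hm'
        have hnodes : (tt i).nodes ≤ s := ((tt i).nodes_le R).trans (htt i)
        rcases Nat.lt_or_ge mid i with hlt' | hge
        · have e4 : PL R W tt σ idx (n + 1) u i k = comb R W y Z := by
            funext j
            rw [PL, if_neg (by omega)]
          rw [e4]
          refine a3.mono le_rfl ?_ (fun _ h => h) (fun _ h => h)
          rw [Lf]
          have := Nat.mul_le_mul_right (kN R W) hnodes
          omega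
        · have hie : i = mid := by omega
          have e4 : PL R W tt σ idx (n + 1) u i k = y := by
            funext j
            rw [PL, if_pos (by omega), hie]
          rw [e4]
          have h1 : M1 ≤ R.kk ^ (W + 1) * M1 := kk_le_pow R (W + 1) M1
          have a4 := val_cong R (W := W) (s := s) (σ := σ) (idx := idx) (X := X) hidx
            (y := comb R W y Z) (y' := y) (M := R.kk ^ (W + 1) * M1) (m := m)
            (n0 := bb (kR R) W) (hM11.trans h1) (fun v => (hσ1 v).trans h1) (hcombsz Z hZsz)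
            (fun j => (hysz j).trans h1) (le_trans (Nat.mul_le_mul_left _ (by
              rw [show s * (R.kk * (R.kk ^ (W + 1) * M1)) = s * (R.kk ^ (W + 2) * M1) by ring]
              exact pow_mul_le hk (by omega))) hm') (Γ := ∅) (fun j hj => hsel hie j hj)
            (tt i) (htt i) (hok i)
          have hvy : ((tt i).val R σ idx y).size ≤ S :=
            hupS 1 (by omega) ((size_val R hM11 hσ1 hysz (tt i)).trans
              (le_trans (Nat.mul_le_mul_right _ (htt i)) (le_of_eq (by ring))))
          have a5 := a3.trans' R a4 (hcombS Z' hZsz' r) hvc hvy hm'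
          refine a5.mono le_rfl ?_ (fun _ h => h) (fun _ h => h)
          rw [Lf]
          have h5 := Nat.mul_le_mul_right (kN R W) hnodes
          have h6 := Nat.mul_le_mul_right (bb (kR R) W + 2 * kR R) hnodes
          omega
      · -- an old value
        have e3 : ∀ y, stpL R tt σ idx i y r = y r := fun y => by rw [stpL, if_neg hri]
        rw [e3]
        have a1 := hrep (fun l => Z l r) (fun l => (hZsz l r).trans (hM1S.trans
          (pow_mul_le hk (show 0 ≤ 1 by omega)))) (fun l _ => by
          have h3 := ih hm' mid i l r hr hmid hlt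
          rw [e3] at h3
          exact h3)
        rcases Nat.lt_or_ge mid i with hlt' | hge
        · have e4 : PL R W tt σ idx (n + 1) u i k r = comb R W y Z r := by
            rw [PL, if_neg (by omega)]
          rw [e4]
          refine a1.mono le_rfl ?_ (fun _ h => h) (fun _ h => h)
          rw [Lf]
          omega
        · have hie : i = mid := by omega
          have e4 : PL R W tt σ idx (n + 1) u i k r = y r := by
            rw [PL, if_pos (by omega), hie]
          rw [e4]
          have a2 := a1.trans' R (hsel hie r hr) (hcombS Z' hZsz' r) (hcombS Z hZsz r)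
            (hupS 0 (by omega) ((hysz r).trans hM1S)) hm'
          refine a2.mono le_rfl ?_ (fun _ h => h) (fun _ h => h)
          rw [Lf]
          omega

/-- a coordinate does not change after it has been computed -/
theorem chainL {X : ℕ → Prop} (hidx : ∀ v, X v → idx v < 2 ^ W) (hs : 1 ≤ s) (hM : c0 F ≤ M)
    (hσ : ∀ v, (σ v).size ≤ M) (htt : ∀ i, ((tt i).fm R).size ≤ s)
    (hok : ∀ i, (tt i).ok X) (N : ℕ) {m : ℕ}
    (hm : kR R * (s * (R.kk ^ (W + 4) * SL R W s M N)) ≤ m) (r : ℕ) (hr : r < 2 ^ W) :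
    ∀ i, r ≤ i → i ≤ 2 ^ N → Ded F m (i * (Lf R W s N + kR R) + kR R) ∅
      {F.eqv (PL R W tt σ idx N 0 i 0 r) (PL R W tt σ idx N 0 r 0 r)} := by
  have hk := kk_pos R
  have hsz : ∀ i, (PL R W tt σ idx N 0 i 0 r).size ≤ s * (R.kk ^ (W + 4) * SL R W s M N) :=
    fun i => (size_PL R W tt σ idx hs hM hσ htt N 0 i 0 r).trans
      ((kk_le_pow R (W + 4) _).trans (Nat.le_mul_of_pos_left _ hs))
  intro i hi
  induction i, hi using Nat.le_induction with
  | base =>
    intro _
    exact (ded_refl' R _ (hsz r) hm ∅).mono le_rfl (Nat.le_add_left _ _) (fun _ h => h)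
      (fun _ h => h)
  | succ i hi ih =>
    intro h1
    have h3 := ih (by omega)
    have h4 := stepL R W tt σ idx hidx hs hM hσ htt hok N hm 0 i 0 r hr (Nat.zero_le _) (by omega)
    rw [stpL, if_neg (by omega)] at h4
    refine (h4.trans' R h3 (hsz _) (hsz _) (hsz _) hm).mono le_rfl ?_ (fun _ h => h)
      (fun _ h => h)
    ring_nf
    exact le_rfl

/-- the defining equivalence of a variable of the level -/
theorem levelA {X : ℕ → Prop} (hidx : ∀ v, X v → idx v < 2 ^ W) (hs : 1 ≤ s) (hM : c0 F ≤ M)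
    (hσ : ∀ v, (σ v).size ≤ M) (htt : ∀ i, ((tt i).fm R).size ≤ s)
    (hok : ∀ i, (tt i).ok X) (N : ℕ) {m M' : ℕ} (hM' : SL R W s M N ≤ M')
    (hm : kR R * (s * (R.kk ^ (W + 4) * M')) ≤ m) {σ' : ℕ → Fm F.B}
    (hσ' : ∀ v, (σ' v).size ≤ M') (j : ℕ) (hj : j < 2 ^ N) (hjW : j + 1 < 2 ^ W)
    (hfree : ∀ v ∈ ((tt j).fm R).vars, ¬ X v → σ v = σ' v)
    (hX : ∀ v ∈ ((tt j).fm R).vars, X v → idx v ≤ j ∧
      σ' v = PL R W tt σ idx N 0 (idx v) 0 (idx v)) :
    Ded F m (Lf R W s N + s * (2 ^ N * (Lf R W s N + kR R) + kR R + 2 * kR R) + kR R) ∅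
      {F.eqv (PL R W tt σ idx N 0 (j + 1) 0 (j + 1)) (((tt j).fm R).subst σ')} := by
  have hk := kk_pos R
  have hM1 : 1 ≤ M := (c0_pos F).trans hM
  have hMS : M ≤ SL R W s M N := le_SL R W hs M N
  have hMM' : M ≤ M' := hMS.trans hM'
  have hM1' : 1 ≤ M' := hM1.trans hMM'
  have hmN : kR R * (s * (R.kk ^ (W + 4) * SL R W s M N)) ≤ m :=
    (Nat.mul_le_mul_left _ (Nat.mul_le_mul_left _ (Nat.mul_le_mul_left _ hM'))).trans hm
  have hPsz : ∀ i r, (PL R W tt σ idx N 0 i 0 r).size ≤ M' := fun i r =>
    (size_PL R W tt σ idx hs hM hσ htt N 0 i 0 r).trans hM'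
  have h4 := stepL R W tt σ idx hidx hs hM hσ htt hok N hmN 0 j 0 (j + 1) hjW (Nat.zero_le _)
    (by omega)
  rw [stpL, if_pos rfl] at h4
  have hS1 : s * (R.kk * M') ≤ s * (R.kk ^ (W + 4) * M') := by
    have := pow_mul_le (s := s) (M := M') hk (show 1 ≤ W + 4 by omega)
    rwa [pow_one] at this
  have hone : Ded F m (2 ^ N * (Lf R W s N + kR R) + kR R) ∅
      {F.eqv (PL R W tt σ idx N 0 j 0 0) (cst F true)} := by
    have h5 := chainL R W tt σ idx hidx hs hM hσ htt hok N hmN 0 (by positivity) j
      (Nat.zero_le _) (by omega)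
    have e : PL R W tt σ idx N 0 0 0 0 = cst F true := by
      rw [PL_start R W tt σ idx N 0 0 0 0 le_rfl]
      simp
    rw [e] at h5
    exact h5.mono le_rfl (Nat.add_le_add_right (Nat.mul_le_mul_right _ (by omega)) _)
      (fun _ h => h) (fun _ h => h)
  have h6 := val_fm R (s := s) (σ := σ) (σ' := σ') (idx := idx) (X := X)
    (y := PL R W tt σ idx N 0 j 0) (M := M') (m := m)
    (n0 := 2 ^ N * (Lf R W s N + kR R) + kR R) hM1' (fun v => (hσ v).trans hMM') hσ'
    (fun r => hPsz j r) ((Nat.mul_le_mul_left _ hS1).trans hm) hone (tt j) (htt j) (hok j)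
    hfree (fun v hv hXv => by
      obtain ⟨h7, h8⟩ := hX v hv hXv
      rw [h8]
      exact (chainL R W tt σ idx hidx hs hM hσ htt hok N hmN (idx v) (hidx v hXv) j h7
        (by omega)).mono le_rfl (Nat.add_le_add_right (Nat.mul_le_mul_right _ (by omega)) _)
        (fun _ h => h) (fun _ h => h))
  have hs1 : ((tt j).val R σ idx (PL R W tt σ idx N 0 j 0)).size ≤
      s * (R.kk ^ (W + 4) * M') :=
    ((size_val R hM1' (fun v => (hσ v).trans hMM') (fun r => hPsz j r) (tt j)).trans
      (Nat.mul_le_mul_right _ (htt j))).trans hS1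
  have hs2 : (((tt j).fm R).subst σ').size ≤ s * (R.kk ^ (W + 4) * M') :=
    ((Fm.size_subst_le hM1' fun v _ => hσ' v).trans (Nat.mul_le_mul (htt j)
      (Nat.le_mul_of_pos_left _ hk))).trans hS1
  have hs3 : (PL R W tt σ idx N 0 (j + 1) 0 (j + 1)).size ≤ s * (R.kk ^ (W + 4) * M') :=
    (hPsz _ _).trans ((kk_le_pow R (W + 4) _).trans (Nat.le_mul_of_pos_left _ hs))
  refine (h4.trans' R h6 hs3 hs1 hs2 hm).mono le_rfl ?_ (fun _ h => h) (fun _ h => h)
  have h9 := Nat.mul_le_mul_right (2 ^ N * (Lf R W s N + kR R) + kR R + 2 * kR R)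
    (((tt j).nodes_le R).trans (htt j))
  omega

end

end Pool.Agent.T9h49.FE
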