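import Pool.Agent.T9h49.FE.Regs

/-!
Frege proofs from extended Frege proofs whose definitions can be evaluated in small space.
-/

set_option autoImplicit false

namespace Pool.Agent.T9h49.FE

variable {F : FregeSystem}

theorem Ordered.unique {B : Basis} {D : List (ℕ × Fm B)} (h : Ordered D) :
    ∀ p ∈ D, ∀ p' ∈ D, p.1 = p'.1 → p = p' := by
  induction h with
  | nil => intro p hp; exact absurd hp List.not_mem_nil
  | @cons D q φ _ _ h2 ih =>
    intro p hp p' hp' he
    rcases List.mem_cons.1 hp with rfl | hp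
    · rcases List.mem_cons.1 hp' with rfl | hp'
      · rfl
      · exact absurd he (h2 p' hp').1
    · rcases List.mem_cons.1 hp' with rfl | hp'
      · exact absurd he.symm (h2 p hp).1
      · exact ih p hp p' hp' he

/-- number of lines for a stored variable -/
noncomputable def N1 (F : FregeSystem) (w s N : ℕ) : ℕ :=
  2 ^ N * (LL F w s N + kTrans F) + kRefl F + 1 + kTrans F

/-- number of lines for one instruction -/
noncomputable def YY (F : FregeSystem) (w s N : ℕ) : ℕ :=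
  2 * (LL F w s N + s * (N1 F w s N + kCong F) + kTrans F) + kRefl F + kSym F + kTrans F + 2

section

variable {w : ℕ} (reg : ℕ → Fin w) (loc : ℕ → ℕ → Fin w) (dom : ℕ → Prop)
  (ins : ℕ → ℕ × Fm F.B) {s : ℕ}

theorem all_lines (hs : 1 ≤ s) (hins : ∀ i, (ins i).2.size ≤ s) {N T : ℕ} (hT : T ≤ 2 ^ N)
    (b : Fin w → Bool) (σ : ℕ → Fm F.B) (hσsz : ∀ v, (σ v).size ≤ SS F w s N)
    (hσ1 : ∀ v, ¬ dom v → σ v = Fm.var v)
    (hσ2 : ∀ i, i < T → (σ (ins i).1 = P reg loc dom ins N 0 (i + 1) b (reg i)) ∨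
      ∃ f, f < i ∧ ins f = ins i)
    (hloc : ∀ i, i < T → ∀ v ∈ (ins i).2.vars, dom v →
      ∃ j, j < i ∧ (ins j).1 = v ∧ loc i v = reg j ∧ ∀ k, j < k → k < i → reg k ≠ reg j) :
    ∀ i, i ≤ T → Ded F (MM F w s N) (i * YY F w s N) ∅
      {ψ | ∃ j, j < i ∧ (ψ = F.eqv (P reg loc dom ins N 0 (j + 1) b (reg j)) (σ (ins j).1) ∨
        ψ = F.eqv (σ (ins j).1) ((ins j).2.subst σ))} := by
  classical
  have hSS1 : 1 ≤ SS F w s N := SS_pos F w N hs
  have hSSs : SS F w s N ≤ s * SS F w s N := Nat.le_mul_of_pos_left _ hs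
  have hPsz : ∀ i r, (P reg loc dom ins N 0 i b r).size ≤ SS F w s N := fun i r =>
    size_P reg loc dom ins hs hins N 0 i b r
  have hsub : ∀ i, ((ins i).2.subst σ).size ≤ s * SS F w s N := fun i =>
    (Fm.size_subst_le hSS1 fun v _ => hσsz v).trans (Nat.mul_le_mul_right _ (hins i))
  intro i
  induction i with
  | zero =>
    intro _
    exact Ded.empty.mono le_rfl (Nat.zero_le _) (fun _ h => h) (by
      rintro ψ ⟨j, hj, _⟩
      omega)
  | succ i ih =>
    intro hi
    set Δ : Set (Fm F.B) := {ψ | ∃ j, j < i ∧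
      (ψ = F.eqv (P reg loc dom ins N 0 (j + 1) b (reg j)) (σ (ins j).1) ∨
        ψ = F.eqv (σ (ins j).1) ((ins j).2.subst σ))} with hΔ
    have hIH := ih (by omega)
    -- the value computed by the instruction
    have h4 := step reg loc dom ins hs hins N 0 i b (reg i) (Nat.zero_le _) (by omega)
    rw [stp, if_pos rfl] at h4
    have hplug : ((ins i).2.subst (plug loc dom i (P reg loc dom ins N 0 i b))).size ≤
        s * SS F w s N :=
      (Fm.size_subst_le hSS1 fun v _ => size_plug loc dom hSS1 (hPsz i) i v).trans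
        (Nat.mul_le_mul_right _ (hins i))
    have h5 : Ded F (MM F w s N) ((ins i).2.size * (N1 F w s N + kCong F)) Δ
        {F.eqv ((ins i).2.subst (plug loc dom i (P reg loc dom ins N 0 i b)))
          ((ins i).2.subst σ)} := by
      refine ded_cong (F := F) (s := s * SS F w s N) (Nat.mul_pos hs hSS1) (ins i).2
        (fun v hv => ?_) hplug (hsub i) (le_MM hs (by unfold kM; omega))
      dsimp only [plug]
      by_cases hdv : dom v
      · rw [if_pos hdv]
        obtain ⟨j, hj1, hj2, hj3, hj4⟩ := hloc i (by omega) v hv hdv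
        rw [hj3]
        have h6 := chain reg loc dom ins hs hins N b (reg j) j i hj1 (by omega)
          (fun k hk1 hk2 he => hj4 k hk1 hk2 he.symm)
        have hmem : F.eqv (P reg loc dom ins N 0 (j + 1) b (reg j)) (σ v) ∈ Δ :=
          ⟨j, hj1, Or.inl (by rw [hj2])⟩
        have h7 : Ded F (MM F w s N) 1 Δ
            {F.eqv (P reg loc dom ins N 0 (j + 1) b (reg j)) (σ v)} :=
          Ded.of_mem hmem ((size_eqv ((hPsz _ _).trans hSSs) ((hσsz v).trans hSSs)).trans
            (le_MM hs (by unfold kM; omega)))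
        refine (Ded.eqTrans (h6.mono le_rfl le_rfl (Γ' := Δ) (fun _ h => absurd h (by simp))
          (fun _ h => h)) h7 (s := s * SS F w s N) ((hPsz _ _).trans hSSs)
          ((hPsz _ _).trans hSSs) ((hσsz v).trans hSSs) (le_MM hs (by unfold kM; omega))).mono
          le_rfl ?_ (fun _ h => h) (fun _ h => h)
        unfold N1
        have : i * (LL F w s N + kTrans F) ≤ 2 ^ N * (LL F w s N + kTrans F) :=
          Nat.mul_le_mul_right _ (by omega)
        omega
      · rw [if_neg hdv, hσ1 v hdv]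
        refine (ded_refl (Fm.var v) (m := s * SS F w s N) (Nat.mul_pos hs hSS1) _).mono
          (le_MM hs (by unfold kM; omega)) ?_ (fun _ h => h) (fun _ h => h)
        unfold N1
        omega
    have hB : Ded F (MM F w s N) (LL F w s N + s * (N1 F w s N + kCong F) + kTrans F) Δ
        {F.eqv (P reg loc dom ins N 0 (i + 1) b (reg i)) ((ins i).2.subst σ)} := by
      refine (Ded.eqTrans (h4.mono le_rfl le_rfl (Γ' := Δ) (fun _ h => absurd h (by simp))
        (fun _ h => h)) h5 (s := s * SS F w s N) ((hPsz _ _).trans hSSs) hplug (hsub i)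
        (le_MM hs (by unfold kM; omega))).mono le_rfl ?_ (fun _ h => h) (fun _ h => h)
      exact Nat.add_le_add_right (Nat.add_le_add_left (Nat.mul_le_mul_right _ (hins i)) _) _
    have hboth : Ded F (MM F w s N) (YY F w s N) Δ
        ({F.eqv (P reg loc dom ins N 0 (i + 1) b (reg i)) (σ (ins i).1)} ∪
          {F.eqv (σ (ins i).1) ((ins i).2.subst σ)}) := by
      rcases hσ2 i (by omega) with he | ⟨f, hf1, hf2⟩
      · rw [he]
        refine (((ded_refl _ ((hPsz (i + 1) (reg i)).trans hSSs) Δ).mono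
          (le_MM hs (by unfold kM; omega)) le_rfl (fun _ h => h) (fun _ h => h)).union hB).mono
          le_rfl ?_ (fun _ h => h) (fun _ h => h)
        unfold YY
        omega
      · have hmem : F.eqv (σ (ins i).1) ((ins i).2.subst σ) ∈ Δ :=
          ⟨f, hf1, Or.inr (by rw [hf2])⟩
        have h7 : Ded F (MM F w s N) 1 Δ {F.eqv (σ (ins i).1) ((ins i).2.subst σ)} :=
          Ded.of_mem hmem ((size_eqv ((hσsz _).trans hSSs) (hsub i)).trans
            (le_MM hs (by unfold kM; omega)))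
        have h8 := h7.sym (s := s * SS F w s N) ((hσsz _).trans hSSs) (hsub i)
          (le_MM hs (by unfold kM; omega))
        have h9 := Ded.eqTrans hB h8 (s := s * SS F w s N) ((hPsz _ _).trans hSSs) (hsub i)
          ((hσsz _).trans hSSs) (le_MM hs (by unfold kM; omega))
        refine (h9.union h7).mono le_rfl ?_ (fun _ h => h) (fun _ h => h)
        unfold YY
        omega
    refine (hIH.trans (hboth.mono le_rfl le_rfl (fun _ h => Or.inr h) (fun _ h => h))).mono
      le_rfl ?_ (fun _ h => h) ?_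
    · rw [Nat.succ_mul]
    · rintro ψ ⟨j, hj, hψ⟩
      rcases Nat.lt_succ_iff_lt_or_eq.1 hj with hlt | rfl
      · exact Or.inl ⟨j, hlt, hψ⟩
      · right
        rcases hψ with rfl | rfl
        · exact Or.inl rfl
        · exact Or.inr rfl

end

theorem of_program_aux {τ : Fm F.B} {D : List (ℕ × Fm F.B)} {π : List (Fm F.B)}
    (h : IsEProof F τ D π) {w T : ℕ} {ins0 : ℕ → ℕ × Fm F.B} {reg : ℕ → Fin w}
    (hL : Program D w T ins0 reg) {s : ℕ} (hsπ : lsize π ≤ s) {N : ℕ} (hN : T ≤ 2 ^ N) :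
    ∃ π', IsProof F τ π' ∧ lsize π' ≤ (T * YY F w s N + (s + s)) * MM F w s N := by
  classical
  obtain ⟨h1, hτ⟩ := h
  have hs : 1 ≤ s := ((Fm.size_pos τ).trans (size_le_lsize hτ)).trans hsπ
  have hDs : ∀ p ∈ D, p.2.size ≤ s := fun p hp =>
    ((size_le_eqv_right _ _).trans (size_le_lsize (h1.ax_mem p hp))).trans hsπ
  set ins : ℕ → ℕ × Fm F.B := fun i => if i < T then ins0 i else (0, Fm.var 0) with hinsdef
  have hinsi : ∀ i, i < T → ins i = ins0 i := fun i hi => if_pos hi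
  have hins : ∀ i, (ins i).2.size ≤ s := by
    intro i
    by_cases hi : i < T
    · rw [hinsi i hi]
      exact hDs _ (hL.mem i hi)
    · have e : ins i = (0, Fm.var 0) := if_neg hi
      rw [e]
      exact hs
  set dom : ℕ → Prop := fun v => v ∈ D.map Prod.fst with hdom
  -- the locations of the stored variables
  have hst : ∀ i v, (i < T ∧ v ∈ (ins i).2.vars ∧ dom v) →
      ∃ j, j < i ∧ (ins j).1 = v ∧ ∀ k, j < k → k < i → reg k ≠ reg j := by
    rintro i v ⟨hi, hv, hd⟩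
    rw [hinsi i hi] at hv
    obtain ⟨j, hj1, hj2, hj3⟩ := hL.stored i hi v hv hd
    exact ⟨j, hj1, by rw [hinsi j (by omega)]; exact hj2, hj3⟩
  choose! jj hjj using hst
  set loc : ℕ → ℕ → Fin w := fun i v => reg (jj i v) with hlocdef
  -- the first evaluation of a variable
  have hfirst : ∀ v, dom v → ∃ i, i < T ∧ (ins i).1 = v := by
    intro v hv
    obtain ⟨p, hp, rfl⟩ := List.mem_map.1 hv
    obtain ⟨i, hi, he⟩ := hL.all p hp
    exact ⟨i, hi, by rw [hinsi i hi, he]⟩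
  set b0 : Fin w → Bool := fun _ => false with hb0
  set σ : ℕ → Fm F.B := fun v => if hv : dom v then
      P reg loc dom ins N 0 (Nat.find (hfirst v hv) + 1) b0 (reg (Nat.find (hfirst v hv)))
    else Fm.var v with hσ
  have hSS1 : 1 ≤ SS F w s N := SS_pos F w N hs
  have hσsz : ∀ v, (σ v).size ≤ SS F w s N := by
    intro v
    rw [hσ]
    dsimp only
    split
    · exact size_P reg loc dom ins hs hins N 0 _ b0 _
    · exact hSS1
  have hσ1 : ∀ v, ¬ dom v → σ v = Fm.var v := fun v hv => dif_neg hv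
  have hσ2 : ∀ i, i < T → (σ (ins i).1 = P reg loc dom ins N 0 (i + 1) b0 (reg i)) ∨
      ∃ f, f < i ∧ ins f = ins i := by
    intro i hi
    have hd : dom (ins i).1 := by
      rw [hinsi i hi]
      exact List.mem_map_of_mem (hL.mem i hi)
    have hle : Nat.find (hfirst _ hd) ≤ i := Nat.find_min' _ ⟨hi, rfl⟩
    rcases Nat.lt_or_ge (Nat.find (hfirst _ hd)) i with hlt | hge
    · right
      obtain ⟨h2, h3⟩ := Nat.find_spec (hfirst _ hd)
      obtain ⟨f, hf⟩ : ∃ f, f = Nat.find (hfirst _ hd) := ⟨_, rfl⟩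
      rw [← hf] at hlt h2 h3
      refine ⟨f, hlt, ?_⟩
      have h4 : (ins0 f).1 = (ins0 i).1 := by
        rw [← hinsi f h2, ← hinsi i hi]
        exact h3
      exact (hinsi f h2).trans ((h1.ordered.unique _ (hL.mem _ h2) _ (hL.mem i hi) h4).trans
        (hinsi i hi).symm)
    · left
      have he : Nat.find (hfirst _ hd) = i := le_antisymm hle hge
      rw [hσ]
      dsimp only
      rw [dif_pos hd, he]
  have hlines := all_lines reg loc dom ins hs hins hN b0 σ hσsz hσ1 hσ2 (by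
    intro i hi v hv hd
    obtain ⟨h2, h3, h4⟩ := hjj i v ⟨hi, hv, hd⟩
    exact ⟨jj i v, h2, h3, rfl, h4⟩) T le_rfl
  have hsub : ∀ ψ : Fm F.B, ψ.size ≤ s → (ψ.subst σ).size ≤ s * SS F w s N := fun ψ hψ =>
    (Fm.size_subst_le hSS1 fun v _ => hσsz v).trans (Nat.mul_le_mul_right _ hψ)
  have hSSs : SS F w s N ≤ s * SS F w s N := Nat.le_mul_of_pos_left _ hs
  have h6 := simulate h1 hτ (σ := σ) (Γ := {ψ | ∃ j, j < T ∧
      (ψ = F.eqv (P reg loc dom ins N 0 (j + 1) b0 (reg j)) (σ (ins j).1) ∨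
        ψ = F.eqv (σ (ins j).1) ((ins j).2.subst σ))}) (m := MM F w s N) (n := 1)
    (fun v hv => hσ1 v (fun hd => by
      obtain ⟨p, hp, rfl⟩ := List.mem_map.1 hd
      exact hv p hp rfl)) (fun ψ hψ =>
        (hsub ψ ((size_le_lsize hψ).trans hsπ)).trans (le_trans (by rw [one_mul])
          (le_MM (F := F) (w := w) (s := s) (N := N) (x := 1) hs (by
            have := iff_size_one F
            unfold kM; omega)))) (fun p hp => by
      obtain ⟨i, hi, he⟩ := hL.all p hp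
      refine Ded.of_mem ⟨i, hi, Or.inr ?_⟩ ?_
      · rw [hinsi i hi, he]
      · exact (size_eqv ((hσsz _).trans hSSs) (hsub _ (hDs p hp))).trans
          (le_MM hs (by unfold kM; omega)))
  obtain ⟨π', h7, h8⟩ := (hlines.cut h6).proof
  refine ⟨π', h7, h8.trans (Nat.mul_le_mul_right _ ?_)⟩
  have h9 := h1.length_le
  have h10 := length_le_lsize π
  omega

theorem arith1 (s Q t r k : ℕ) (hs : 1 ≤ s) (hQ : 1 ≤ Q) :
    Q + s * (2 * s * (Q + t) + r + k) + t + 1 ≤ (5 + 3 * t + r + k) * (s * s * Q) := by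
  have f2 : 1 ≤ s * s * Q := Nat.mul_pos (Nat.mul_pos hs hs) hQ
  have f3 : Q ≤ s * s * Q := Nat.le_mul_of_pos_left _ (Nat.mul_pos hs hs)
  have f4 : s ≤ s * s * Q := by
    calc s = s * 1 * 1 := by ring
      _ ≤ s * s * Q := Nat.mul_le_mul (Nat.mul_le_mul_left _ hs) hQ
  have f5 : s * s ≤ s * s * Q := Nat.le_mul_of_pos_right _ hQ
  calc Q + s * (2 * s * (Q + t) + r + k) + t + 1
      = Q + 2 * (s * s * Q) + 2 * t * (s * s) + (r + k) * s + t * 1 + 1 := by ring
    _ ≤ s * s * Q + 2 * (s * s * Q) + 2 * t * (s * s * Q) + (r + k) * (s * s * Q) +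
        t * (s * s * Q) + s * s * Q :=
        Nat.add_le_add (Nat.add_le_add (Nat.add_le_add (Nat.add_le_add (Nat.add_le_add f3 le_rfl)
          (Nat.mul_le_mul_left _ f5)) (Nat.mul_le_mul_left _ f4)) (Nat.mul_le_mul_left _ f2)) f2
    _ = (4 + 3 * t + r + k) * (s * s * Q) := by ring
    _ ≤ _ := Nat.mul_le_mul_right _ (by omega)

theorem arith2 (kd eL a m i c w : ℕ) :
    kd + (4 + eL * (w + 1)) + (2 * a * w + (m + (1 + (2 * i * w + (c + 1))))) ≤
      (4 + kd + eL + 2 * a + m + 2 * i + c + 2) * (w + 1) := by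
  calc kd + (4 + eL * (w + 1)) + (2 * a * w + (m + (1 + (2 * i * w + (c + 1)))))
      ≤ kd + (4 + eL * (w + 1)) + (2 * a * w + (m + (1 + (2 * i * w + (c + 1))))) +
        (kd * w + 4 * w + 2 * a + m * w + w + 2 * i + c * w + w) := Nat.le_add_right _ _
    _ = _ := by ring

theorem arith3 (s w a b c d e : ℕ) (hs : 1 ≤ s) :
    s * ((w + 1) * a + b) + ((w + 1) * a + c) + d + e + 1 ≤
      (2 * a + b + c + d + e + 1) * (s * (w + 1)) := by
  have f1 : 1 ≤ s * (w + 1) := Nat.mul_pos hs (by omega)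
  have f2 : s ≤ s * (w + 1) := Nat.le_mul_of_pos_right _ (by omega)
  have f3 : w + 1 ≤ s * (w + 1) := Nat.le_mul_of_pos_left _ hs
  calc s * ((w + 1) * a + b) + ((w + 1) * a + c) + d + e + 1
      = a * (s * (w + 1)) + b * s + a * (w + 1) + (c + d + e + 1) * 1 := by ring
    _ ≤ a * (s * (w + 1)) + b * (s * (w + 1)) + a * (s * (w + 1)) +
        (c + d + e + 1) * (s * (w + 1)) :=
        Nat.add_le_add (Nat.add_le_add (Nat.add_le_add le_rfl (Nat.mul_le_mul_left _ f2))
          (Nat.mul_le_mul_left _ f3)) (Nat.mul_le_mul_left _ f1)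
    _ = _ := by ring

theorem arith5 (s T P2 L Q t r k y : ℕ) (hP : P2 ≤ 2 * s) (hL : L ≤ Q) (hs : 1 ≤ s)
    (hQ : 1 ≤ Q) (hT : T ≤ s) :
    T * (2 * (L + s * (P2 * (L + t) + r + 1 + t + k) + t) + r + y + t + 2) + (s + s) ≤
      (2 * (5 + 3 * t + r + (1 + t + k)) + (r + y + t + 4)) * (s * (s * s * Q)) := by
  have g0 : 1 ≤ s * s * Q := Nat.mul_pos (Nat.mul_pos hs hs) hQ
  have f1 : L + s * (P2 * (L + t) + r + 1 + t + k) + t + 1 ≤
      (5 + 3 * t + r + (1 + t + k)) * (s * s * Q) := by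
    refine le_trans ?_ (arith1 s Q t r (1 + t + k) hs hQ)
    have g1 : P2 * (L + t) ≤ 2 * s * (Q + t) := Nat.mul_le_mul hP (Nat.add_le_add_right hL _)
    have g2 : s * (P2 * (L + t) + r + 1 + t + k) ≤ s * (2 * s * (Q + t) + r + (1 + t + k)) :=
      Nat.mul_le_mul_left _ (by omega)
    omega
  have f2 : 2 * (L + s * (P2 * (L + t) + r + 1 + t + k) + t) + r + y + t + 2 + 2 ≤
      (2 * (5 + 3 * t + r + (1 + t + k)) + (r + y + t + 4)) * (s * s * Q) := by
    have g3 : r + y + t + 4 ≤ (r + y + t + 4) * (s * s * Q) := Nat.le_mul_of_pos_right _ g0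
    calc 2 * (L + s * (P2 * (L + t) + r + 1 + t + k) + t) + r + y + t + 2 + 2
        ≤ 2 * (L + s * (P2 * (L + t) + r + 1 + t + k) + t + 1) + (r + y + t + 4) := by omega
      _ ≤ 2 * ((5 + 3 * t + r + (1 + t + k)) * (s * s * Q)) + (r + y + t + 4) * (s * s * Q) :=
          Nat.add_le_add (Nat.mul_le_mul_left _ f1) g3
      _ = _ := by ring
  calc T * (2 * (L + s * (P2 * (L + t) + r + 1 + t + k) + t) + r + y + t + 2) + (s + s)
      ≤ s * (2 * (L + s * (P2 * (L + t) + r + 1 + t + k) + t) + r + y + t + 2) + (s + s) :=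
        Nat.add_le_add_right (Nat.mul_le_mul_right _ hT) _
    _ = s * (2 * (L + s * (P2 * (L + t) + r + 1 + t + k) + t) + r + y + t + 2 + 2) := by ring
    _ ≤ s * ((2 * (5 + 3 * t + r + (1 + t + k)) + (r + y + t + 4)) * (s * s * Q)) :=
        Nat.mul_le_mul_left _ f2
    _ = _ := by ring

theorem arith6 (u kd eL a m i c w : ℕ) :
    (u ^ kd * (u ^ 4 * u ^ (eL * (w + 1)))) * (u ^ (2 * a * w) * (u ^ m * (u ^ 1 *
        (u ^ (2 * i * w) * (u ^ c * u ^ 1))))) =
      u ^ (kd + (4 + eL * (w + 1)) + (2 * a * w + (m + (1 + (2 * i * w + (c + 1)))))) := by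
  simp only [← pow_add]

theorem arith7 (u a eL kc w : ℕ) (hu : 1 ≤ u) (h : eL = 2 * a + kc + 3) :
    u ^ (2 * a * w) * (u ^ 1 * (u ^ kc * (u ^ 1 * u ^ (w + 1)))) ≤ u ^ (eL * (w + 1)) := by
  simp only [← pow_add]
  refine Nat.pow_le_pow_right hu ?_
  rw [h]
  have f1 : kc * 1 ≤ kc * (w + 1) := Nat.mul_le_mul_left _ (by omega)
  nlinarith

/-- extended Frege proofs whose definitions can be evaluated with `w` registers -/
theorem of_program (F : FregeSystem) : ∃ c : ℕ, ∀ (τ : Fm F.B) (D : List (ℕ × Fm F.B))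
    (π : List (Fm F.B)), IsEProof F τ D π → ∀ (w T : ℕ) (ins : ℕ → ℕ × Fm F.B)
    (reg : ℕ → Fin w), Program D w T ins reg →
    ∃ π', IsProof F τ π' ∧ lsize π' ≤ (lsize π + T + 2) ^ (c * (w + 1)) := by
  set kc := 2 * (kSel F + 1) + kCong F + kSym F + 2 * kTrans F + kRefl F + 1 with hkc
  set eL := 2 * cT F + kc + 3 with heL
  set kd := 2 * (5 + 3 * kTrans F + kRefl F + (1 + kTrans F + kCong F)) +
    (kRefl F + kSym F + kTrans F + 4) with hkd
  refine ⟨4 + kd + eL + 2 * cT F + kM F + 2 * kIte F + c0 F + 2,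
    fun τ D π h w T ins reg hL => ?_⟩
  set s := lsize π + T with hsdef
  have hs : 1 ≤ s := ((Fm.size_pos τ).trans (size_le_lsize h.2)).trans (Nat.le_add_right _ _)
  set N := Nat.log 2 s + 1 with hNdef
  have hN1 : s < 2 ^ N := Nat.lt_pow_succ_log_self (by norm_num) s
  have hN2 : 2 ^ N ≤ 2 * s := by
    rw [hNdef, pow_succ]
    have := Nat.pow_log_le_self 2 (show s ≠ 0 by omega)
    omega
  have hN3 : N ≤ s := by
    have : Nat.log 2 s < s := Nat.log_lt_self 2 (by omega)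
    omega
  have hTs : T ≤ s := Nat.le_add_left _ _
  obtain ⟨π', h1, h2⟩ := of_program_aux h hL (s := s) (Nat.le_add_right _ _)
    (N := N) (hTs.trans hN1.le)
  refine ⟨π', h1, h2.trans ?_⟩
  set u := s + 2 with hu
  have hu1 : 1 ≤ u := by omega
  have e2 : ∀ x, x ≤ u ^ x := fun x =>
    (le_two_pow x).trans (Nat.pow_le_pow_left (by omega) _)
  have hsu : s ≤ u ^ 1 := by rw [pow_one]; omega
  have hpow : ∀ k, (k ^ w) ^ N ≤ u ^ (2 * k * w) := by
    intro k
    have e3 : (k ^ w) ^ N ≤ (2 ^ (k * w)) ^ N := by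
      rw [pow_mul]
      exact Nat.pow_le_pow_left (Nat.pow_le_pow_left (le_two_pow k) _) _
    refine e3.trans ?_
    rw [← pow_mul, Nat.mul_comm (k * w) N, pow_mul 2 N, show 2 * k * w = 2 * (k * w) by ring,
      pow_mul u 2]
    refine Nat.pow_le_pow_left (hN2.trans ?_) _
    rw [pow_two]
    nlinarith
  have hw1 : w + 1 ≤ u ^ (w + 1) := e2 _
  have hX : kX F w s ≤ u ^ kc * (u ^ 1 * u ^ (w + 1)) := by
    have e3 : kX F w s ≤ kc * (s * (w + 1)) := by
      unfold kX
      rw [hkc]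
      exact arith3 s w (kSel F + 1) (kCong F) (kSym F) (2 * kTrans F) (kRefl F) hs
    exact e3.trans (Nat.mul_le_mul (e2 _) (Nat.mul_le_mul hsu hw1))
  have hLL : LL F w s N ≤ u ^ (eL * (w + 1)) := by
    unfold LL
    have e3 : N + 1 ≤ u ^ 1 := by rw [pow_one]; omega
    calc (cT F ^ w) ^ N * ((N + 1) * kX F w s)
        ≤ u ^ (2 * cT F * w) * (u ^ 1 * (u ^ kc * (u ^ 1 * u ^ (w + 1)))) :=
          Nat.mul_le_mul (hpow _) (Nat.mul_le_mul e3 hX)
      _ ≤ u ^ (eL * (w + 1)) := arith7 u (cT F) eL kc w hu1 heL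
  set Q := u ^ (eL * (w + 1)) with hQ
  have hQ1 : 1 ≤ Q := Nat.pow_pos hu1
  have hYY : T * YY F w s N + (s + s) ≤ u ^ kd * (u ^ 4 * Q) := by
    have f1 : T * YY F w s N + (s + s) ≤ kd * (s * (s * s * Q)) :=
      arith5 s T (2 ^ N) (LL F w s N) Q (kTrans F) (kRefl F) (kCong F) (kSym F) hN2 hLL hs hQ1 hTs
    refine f1.trans (Nat.mul_le_mul (e2 _) ?_)
    calc s * (s * s * Q) ≤ u ^ 1 * (u ^ 1 * u ^ 1 * Q) :=
          Nat.mul_le_mul hsu (Nat.mul_le_mul_right _ (Nat.mul_le_mul hsu hsu))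
      _ = u ^ 3 * Q := by ring
      _ ≤ u ^ 4 * Q := Nat.mul_le_mul_right _ (Nat.pow_le_pow_right hu1 (by norm_num))
  have hMM : MM F w s N ≤ u ^ (2 * cT F * w) * (u ^ kM F * (u ^ 1 * (u ^ (2 * kIte F * w) *
      (u ^ c0 F * u ^ 1)))) := by
    unfold MM SS
    exact Nat.mul_le_mul (hpow _) (Nat.mul_le_mul (e2 _) (Nat.mul_le_mul hsu
      (Nat.mul_le_mul (hpow _) (Nat.mul_le_mul (e2 _) hsu))))
  calc (T * YY F w s N + (s + s)) * MM F w s N
      ≤ (u ^ kd * (u ^ 4 * Q)) * (u ^ (2 * cT F * w) * (u ^ kM F * (u ^ 1 *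
        (u ^ (2 * kIte F * w) * (u ^ c0 F * u ^ 1))))) := Nat.mul_le_mul hYY hMM
    _ = u ^ (kd + (4 + eL * (w + 1)) + (2 * cT F * w + (kM F + (1 + (2 * kIte F * w +
        (c0 F + 1)))))) := arith6 u kd eL (cT F) (kM F) (kIte F) (c0 F) w
    _ ≤ _ := by
        refine Nat.pow_le_pow_right hu1 ?_
        exact arith2 _ _ _ _ _ _ _

end Pool.Agent.T9h49.FE
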