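import Pool.Agent.T9h49.FE.Level
import Pool.Agent.T9h49.FE.Pebble

/-!
Extended Frege proofs with few levels of affine definitions.
-/

set_option autoImplicit false

namespace Pool.Agent.T9h49.FE

variable {F : FregeSystem}

/-- `φ` is affine in the variables `X`: it is built from formulas without variables from `X` and
from variables in `X` by addition and by multiplication with formulas without variables from
`X`. -/
inductive IsAffine (R : Arith F) (X : ℕ → Prop) : Fm F.B → Prop
  | free {A : Fm F.B} : (∀ v ∈ A.vars, ¬ X v) → IsAffine R X A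
  | var {v : ℕ} : X v → IsAffine R X (Fm.var v)
  | plus {A B : Fm F.B} : IsAffine R X A → IsAffine R X B → IsAffine R X (R.pls A B)
  | scal {A B : Fm F.B} : (∀ v ∈ A.vars, ¬ X v) → IsAffine R X B → IsAffine R X (R.adn A B)

theorem IsAffine.tree {R : Arith F} {X : ℕ → Prop} {φ : Fm F.B} (h : IsAffine R X φ) :
    ∃ t : LS F.B, t.fm R = φ ∧ t.ok X := by
  induction h with
  | @free A h => exact ⟨LS.free A, rfl, h⟩
  | @var v h => exact ⟨LS.var v, rfl, h⟩
  | plus _ _ iha ihb =>
    obtain ⟨a, ha1, ha2⟩ := iha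
    obtain ⟨b, hb1, hb2⟩ := ihb
    exact ⟨LS.plus a b, by rw [LS.fm, ha1, hb1], ha2, hb2⟩
  | @scal A _ h _ ihb =>
    obtain ⟨b, hb1, hb2⟩ := ihb
    exact ⟨LS.scal A b, by rw [LS.fm, hb1], h, hb2⟩

instance : Inhabited (LS F.B) := ⟨LS.free (Fm.var 0)⟩

/-- The definitions `D` have `d` levels (`lev`) of affine definitions: a definition uses only
extension variables of its own level and of lower levels, and it is affine in the extension
variables of its own level. The addition of level `t` is that of `R (op t)`. -/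
structure AffineLevels (R : Bool → Arith F) (D : List (ℕ × Fm F.B)) (d : ℕ) (lev : ℕ → ℕ)
    (op : ℕ → Bool) : Prop where
  lt : ∀ p ∈ D, lev p.1 < d
  le : ∀ p ∈ D, ∀ v ∈ p.2.vars, v ∈ D.map Prod.fst → lev v ≤ lev p.1
  affine : ∀ p ∈ D,
    IsAffine (R (op (lev p.1))) (fun v => v ∈ D.map Prod.fst ∧ lev v = lev p.1) p.2

section

variable (R : Bool → Arith F) (op : ℕ → Bool) (W N : ℕ) (tt : ℕ → ℕ → LS F.B)
  (idx : ℕ → ℕ → ℕ) (inl : ℕ → ℕ → Prop)

open Classical in
/-- the substitution for the variables of the levels below `t` -/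
noncomputable def sig : ℕ → ℕ → Fm F.B
  | 0 => Fm.var
  | t + 1 => fun v => if inl t v then
      PL (R (op t)) W (tt t) (sig t) (idx t) N 0 (idx t v) 0 (idx t v) else sig t v

theorem sig_pos {t v : ℕ} (h : inl t v) : sig R op W N tt idx inl (t + 1) v =
    PL (R (op t)) W (tt t) (sig R op W N tt idx inl t) (idx t) N 0 (idx t v) 0 (idx t v) := by
  rw [sig]
  exact if_pos h

theorem sig_neg {t v : ℕ} (h : ¬ inl t v) : sig R op W N tt idx inl (t + 1) v =
    sig R op W N tt idx inl t v := by
  rw [sig]
  exact if_neg h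

theorem sig_of_not {v : ℕ} : ∀ t, (∀ t', t' < t → ¬ inl t' v) →
    sig R op W N tt idx inl t v = Fm.var v := by
  intro t
  induction t with
  | zero => intro _; rfl
  | succ t ih =>
    intro h
    rw [sig_neg R op W N tt idx inl (h t (by omega))]
    exact ih fun t' ht' => h t' (by omega)

theorem sig_of_lt {v t₀ : ℕ} (h0 : ∀ t, t₀ < t → ¬ inl t v) : ∀ t, t₀ < t →
    sig R op W N tt idx inl t v = sig R op W N tt idx inl (t₀ + 1) v := by
  intro t ht
  induction t, ht using Nat.le_induction with
  | base => rfl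
  | succ t ht ih =>
    rw [sig_neg R op W N tt idx inl (h0 t ht)]
    exact ih

/-- common growth factor -/
def kB : ℕ := (R true).kk + (R false).kk

theorem kk_le_kB (b : Bool) : (R b).kk ≤ kB R := by
  unfold kB
  cases b <;> omega

theorem kB_pos : 1 ≤ kB R := (kk_pos (R true)).trans (kk_le_kB R true)

/-- bound for the sizes at level `t` -/
noncomputable def Mt (s : ℕ) : ℕ → ℕ
  | 0 => c0 F
  | t + 1 => (kB R ^ (W + 1)) ^ N * (s * (kB R * Mt s t))

theorem Mt_step {s : ℕ} (hs : 1 ≤ s) (t : ℕ) : Mt R W N s t ≤ Mt R W N s (t + 1) := by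
  rw [Mt]
  exact ((Nat.le_mul_of_pos_left _ (kB_pos R)).trans (Nat.le_mul_of_pos_left _ hs)).trans
    (Nat.le_mul_of_pos_left _ (Nat.pow_pos (Nat.pow_pos (kB_pos R))))

theorem Mt_mono {s : ℕ} (hs : 1 ≤ s) {t t' : ℕ} (h : t ≤ t') : Mt R W N s t ≤ Mt R W N s t' := by
  induction t', h using Nat.le_induction with
  | base => exact le_rfl
  | succ t' _ ih => exact ih.trans (Mt_step R W N hs t')

theorem SL_le (b : Bool) (s M : ℕ) :
    SL (R b) W s M N ≤ (kB R ^ (W + 1)) ^ N * (s * (kB R * M)) := by
  unfold SL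
  exact Nat.mul_le_mul (Nat.pow_le_pow_left (Nat.pow_le_pow_left (kk_le_kB R b) _) _)
    (Nat.mul_le_mul_left _ (Nat.mul_le_mul_right _ (kk_le_kB R b)))

theorem size_sig {s : ℕ} (hs : 1 ≤ s)
    (htt : ∀ t v, inl t v → ∀ i, ((tt t i).fm (R (op t))).size ≤ s) :
    ∀ t v, (sig R op W N tt idx inl t v).size ≤ Mt R W N s t := by
  intro t
  induction t with
  | zero =>
    intro v
    simp only [sig, Fm.size]
    exact c0_pos F
  | succ t ih =>
    intro v
    by_cases h : inl t v
    · rw [sig_pos R op W N tt idx inl h]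
      exact (size_PL (R (op t)) W (tt t) _ (idx t) hs (Mt_mono R W N hs (Nat.zero_le t)) ih
        (htt t v h) N _ _ _ _).trans (SL_le R W N (op t) s _)
    · rw [sig_neg R op W N tt idx inl h]
      exact (ih v).trans (Mt_step R W N hs t)

end

theorem Ordered.idx_lt {B : Basis} {D : List (ℕ × Fm B)} (h : Ordered D) :
    ∀ (a b : ℕ) (ha : a < D.length) (hb : b < D.length), D[a].1 ∈ D[b].2.vars → b < a := by
  induction h with
  | nil => intro a b ha; exact absurd ha (by simp)
  | @cons D q φ hD hq hqD ih =>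
    intro a b ha hb hmem
    rcases a with _ | a
    · rcases b with _ | b
      · exact absurd hmem hq
      · simp only [List.getElem_cons_zero, List.getElem_cons_succ] at hmem
        exact absurd hmem (hqD _ (List.getElem_mem _)).2
    · rcases b with _ | b
      · omega
      · simp only [List.getElem_cons_succ] at hmem
        have := ih a b (by simpa using ha) (by simpa using hb) hmem
        omega

theorem Ordered.filter {B : Basis} {D : List (ℕ × Fm B)} (h : Ordered D)
    (f : ℕ × Fm B → Bool) : Ordered (D.filter f) := by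
  induction h with
  | nil => exact Ordered.nil
  | @cons D q φ hD hq hqD ih =>
    rw [List.filter_cons]
    split
    · exact Ordered.cons ih hq fun p hp => hqD p (List.mem_of_mem_filter hp)
    · exact ih

/-- number of lines for a definition -/
noncomputable def nD (R : Arith F) (W N s : ℕ) : ℕ :=
  Lf R W s N + s * (2 ^ N * (Lf R W s N + kR R) + kR R + 2 * kR R) + kR R

theorem of_affine_aux {R : Bool → Arith F} {τ : Fm F.B} {D : List (ℕ × Fm F.B)}
    {π : List (Fm F.B)} (h : IsEProof F τ D π) {d : ℕ} {lev : ℕ → ℕ} {op : ℕ → Bool}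
    (hL : AffineLevels R D d lev op) {W : ℕ} (hW : lsize π + 1 < 2 ^ W) :
    ∃ π', IsProof F τ π' ∧ lsize π' ≤
      (lsize π * (nD (R true) W W (lsize π) + nD (R false) W W (lsize π) + 1)) *
      ((kR (R true) + kR (R false)) * (lsize π * (kB R ^ (W + 4) * Mt R W W (lsize π) d))) := by
  classical
  obtain ⟨h1, hτ⟩ := h
  set s := lsize π with hsdef
  have hs : 1 ≤ s := (Fm.size_pos τ).trans (size_le_lsize hτ)
  have hDs : ∀ p ∈ D, p.2.size ≤ s := fun p hp =>
    (size_le_eqv_right _ _).trans (size_le_lsize (h1.ax_mem p hp))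
  have hO := h1.ordered
  -- syntax trees
  have htree : ∀ p : ℕ × Fm F.B, p ∈ D → ∃ t : LS F.B, t.fm (R (op (lev p.1))) = p.2 ∧
      t.ok (fun v => v ∈ D.map Prod.fst ∧ lev v = lev p.1) := fun p hp => (hL.affine p hp).tree
  choose! T hT1 hT2 using htree
  -- the definitions of level `t`, the earliest first
  set C : ℕ → List (ℕ × Fm F.B) := fun t => (D.filter (fun p => lev p.1 = t)).reverse with hC
  have hCmem : ∀ t p, p ∈ C t ↔ p ∈ D ∧ lev p.1 = t := by
    intro t p
    simp [hC, List.mem_filter]
  set q0 : ℕ → ℕ × Fm F.B := fun t => (C t).headD (0, Fm.var 0) with hq0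
  set tt : ℕ → ℕ → LS F.B := fun t j => T ((C t).getD j (q0 t)) with htt0
  set idx : ℕ → ℕ → ℕ := fun t v => List.idxOf v ((C t).map Prod.fst) + 1 with hidx0
  set inl : ℕ → ℕ → Prop := fun t v => v ∈ D.map Prod.fst ∧ lev v = t with hinl
  have hget : ∀ t v, inl t v → ∀ j, (C t).getD j (q0 t) ∈ C t := by
    rintro t v ⟨hv, hlv⟩ j
    obtain ⟨p, hp, rfl⟩ := List.mem_map.1 hv
    have hpC : p ∈ C t := (hCmem t p).2 ⟨hp, hlv⟩
    have hq : q0 t ∈ C t := by
      rw [hq0]
      dsimp only
      generalize C t = l at hpC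
      cases l with
      | nil => exact absurd hpC List.not_mem_nil
      | cons a l => simp
    by_cases hj : j < (C t).length
    · rw [List.getD_eq_getElem _ _ hj]
      exact List.getElem_mem hj
    · rw [List.getD_eq_default _ _ (by omega)]
      exact hq
  have htts : ∀ t v, inl t v → ∀ i, ((tt t i).fm (R (op t))).size ≤ s := by
    intro t v htv i
    have h2 := (hCmem t _).1 (hget t v htv i)
    have h3 := hT1 _ h2.1
    rw [h2.2] at h3
    change ((T ((C t).getD i (q0 t))).fm (R (op t))).size ≤ s
    rw [h3]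
    exact hDs _ h2.1
  have hok : ∀ t v, inl t v → ∀ i, (tt t i).ok (inl t) := by
    intro t v htv i
    have h2 := (hCmem t _).1 (hget t v htv i)
    have h3 := hT2 _ h2.1
    rw [h2.2] at h3
    exact h3
  have hClen : ∀ t, (C t).length ≤ s := by
    intro t
    rw [hC]
    dsimp only
    rw [List.length_reverse]
    exact ((List.length_filter_le _ _).trans h1.length_le).trans (length_le_lsize π)
  have hidx1 : ∀ t v, inl t v → ∃ (hj : List.idxOf v ((C t).map Prod.fst) < (C t).length),
      (C t)[List.idxOf v ((C t).map Prod.fst)].1 = v := by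
    rintro t v ⟨hv, hlv⟩
    obtain ⟨p, hp, rfl⟩ := List.mem_map.1 hv
    have hm : p.1 ∈ (C t).map Prod.fst := List.mem_map_of_mem ((hCmem t p).2 ⟨hp, hlv⟩)
    have hlt : List.idxOf p.1 ((C t).map Prod.fst) < ((C t).map Prod.fst).length :=
      List.idxOf_lt_length_iff.2 hm
    refine ⟨by simpa using hlt, ?_⟩
    have h2 := List.getElem_idxOf hlt
    rw [List.getElem_map] at h2
    exact h2
  have hidxW : ∀ t v, inl t v → idx t v < 2 ^ W := by
    intro t v htv
    obtain ⟨hj, _⟩ := hidx1 t v htv
    have := hClen t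
    change List.idxOf v ((C t).map Prod.fst) + 1 < 2 ^ W
    omega
  -- the substitution
  set σ : ℕ → Fm F.B := sig R op W W tt idx inl d with hσdef
  have hsz := size_sig R op W W tt idx inl hs htts
  have hval : ∀ t v, inl t v → σ v = PL (R (op t)) W (tt t) (sig R op W W tt idx inl t) (idx t)
      W 0 (idx t v) 0 (idx t v) := by
    intro t v htv
    have htd : t < d := by
      obtain ⟨hv, hlv⟩ := htv
      obtain ⟨p, hp, rfl⟩ := List.mem_map.1 hv
      rw [← hlv]
      exact hL.lt p hp
    have h2 := sig_of_lt R op W W tt idx inl (v := v) (t₀ := t) (fun t' ht' h3 => by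
      have e1 := htv.2
      have e2 := h3.2
      omega) d htd
    rw [hσdef, h2, sig_pos R op W W tt idx inl htv]
  have hlow : ∀ t v, t ≤ d → (v ∈ D.map Prod.fst → lev v < t) →
      sig R op W W tt idx inl t v = σ v := by
    intro t v htd hv
    by_cases hvD : v ∈ D.map Prod.fst
    · have h2 : ∀ t', lev v < t' → ¬ inl t' v := fun t' ht' h3 => by
        have e2 := h3.2
        omega
      rw [hσdef, sig_of_lt R op W W tt idx inl h2 t (hv hvD),
        sig_of_lt R op W W tt idx inl h2 d ((hv hvD).trans_le htd)]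
    · have h2 : ∀ t', ¬ inl t' v := fun t' h3 => hvD h3.1
      rw [hσdef, sig_of_not R op W W tt idx inl t (fun t' _ => h2 t'),
        sig_of_not R op W W tt idx inl d (fun t' _ => h2 t')]
  set M := Mt R W W s d with hM
  set m := (kR (R true) + kR (R false)) * (s * (kB R ^ (W + 4) * M)) with hm
  set n := nD (R true) W W s + nD (R false) W W s with hn
  have hc0M : c0 F ≤ M := Mt_mono R W W hs (Nat.zero_le d)
  have hM1 : 1 ≤ M := (c0_pos F).trans hc0M
  have hσsz : ∀ v, (σ v).size ≤ M := fun v => hsz d v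
  have hdef : ∀ p ∈ D, Ded F m n ∅ {F.eqv (σ p.1) (p.2.subst σ)} := by
    intro p hp
    set t := lev p.1 with ht
    have htd : t < d := hL.lt p hp
    have htv : inl t p.1 := ⟨List.mem_map_of_mem hp, rfl⟩
    obtain ⟨hj, hje⟩ := hidx1 t p.1 htv
    set j := List.idxOf p.1 ((C t).map Prod.fst) with hjdef
    have hCj : (C t)[j] = p := by
      refine hO.unique _ ((hCmem t _).1 (List.getElem_mem hj)).1 _ hp hje
    have httj : tt t j = T p := by
      rw [htt0]
      dsimp only
      rw [List.getD_eq_getElem _ _ hj, hCj]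
    have hfm : (tt t j).fm (R (op t)) = p.2 := by
      rw [httj]
      exact hT1 p hp
    have hkb : ∀ b, (R b).kk ^ (W + 4) ≤ kB R ^ (W + 4) := fun b =>
      Nat.pow_le_pow_left (kk_le_kB R b) _
    have hkr : ∀ b, kR (R b) ≤ kR (R true) + kR (R false) := fun b => by cases b <;> omega
    have hM' : SL (R (op t)) W s (Mt R W W s t) W ≤ M :=
      (SL_le R W W (op t) s _).trans (Mt_mono R W W hs (show t + 1 ≤ d from htd))
    have hmm : kR (R (op t)) * (s * ((R (op t)).kk ^ (W + 4) * M)) ≤ m :=
      Nat.mul_le_mul (hkr _) (Nat.mul_le_mul_left _ (Nat.mul_le_mul_right _ (hkb _)))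
    have hClen' := hClen t
    have h2 := levelA (R (op t)) W (tt t) (sig R op W W tt idx inl t) (idx t) (s := s)
      (M := Mt R W W s t) (X := inl t) (hidxW t) hs (Mt_mono R W W hs (Nat.zero_le t)) (hsz t)
      (htts t p.1 htv) (hok t p.1 htv) W (m := m) (M' := M) hM' hmm (σ' := σ) hσsz j
      (by omega) (by omega) (fun v hv hXv => by
        rw [hfm] at hv
        refine hlow t v htd.le fun hvD => ?_
        have h3 := hL.le p hp v hv hvD
        have h4 : lev v ≠ t := fun h5 => hXv ⟨hvD, h5⟩
        omega) (fun v hv hXv => by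
        rw [hfm] at hv
        refine ⟨?_, hval t v hXv⟩
        obtain ⟨hi, hie⟩ := hidx1 t v hXv
        set i := List.idxOf v ((C t).map Prod.fst) with hidef
        change i + 1 ≤ j
        -- order of the positions
        have hlen : (C t).length = (D.filter (fun p => lev p.1 = t)).length := by
          rw [hC]
          simp
        have e1 : (C t)[i] = (D.filter (fun p => lev p.1 = t))[(D.filter
            (fun p => lev p.1 = t)).length - 1 - i]'(by omega) := by
          simp only [hC]
          rw [List.getElem_reverse]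
        have e2 : (C t)[j] = (D.filter (fun p => lev p.1 = t))[(D.filter
            (fun p => lev p.1 = t)).length - 1 - j]'(by omega) := by
          simp only [hC]
          rw [List.getElem_reverse]
        have h5 := (hO.filter (fun p => lev p.1 = t)).idx_lt
          ((D.filter (fun p => lev p.1 = t)).length - 1 - i)
          ((D.filter (fun p => lev p.1 = t)).length - 1 - j) (by omega) (by omega) (by
            rw [← e1, ← e2, hie, hCj]
            exact hv)
        omega)
    rw [hfm] at h2
    have h3 : σ p.1 = PL (R (op t)) W (tt t) (sig R op W W tt idx inl t) (idx t) W 0 (j + 1) 0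
        (j + 1) := hval t p.1 htv
    rw [h3]
    refine h2.mono le_rfl ?_ (fun _ h => h) (fun _ h => h)
    rw [hn]
    change nD (R (op t)) W W s ≤ _
    cases op t <;> omega
  have hlast : s * M ≤ m := by
    have e1 : M ≤ kB R ^ (W + 4) * M := Nat.le_mul_of_pos_left _ (Nat.pow_pos (kB_pos R))
    have e2 : 1 ≤ kR (R true) + kR (R false) := by unfold kR; omega
    exact (Nat.mul_le_mul_left _ e1).trans (Nat.le_mul_of_pos_left _ e2)
  have h6 := simulate h1 hτ (σ := σ) (Γ := ∅) (m := m) (n := n)
    (fun v hv => by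
      rw [hσdef]
      refine sig_of_not R op W W tt idx inl d fun t' _ h3 => ?_
      obtain ⟨p, hp, he⟩ := List.mem_map.1 h3.1
      exact hv p hp he.symm) (fun ψ hψ =>
        ((Fm.size_subst_le hM1 fun v _ => hσsz v).trans (Nat.mul_le_mul_right _
          (size_le_lsize hψ))).trans hlast) hdef
  obtain ⟨π', h7, h8⟩ := h6.proof
  refine ⟨π', h7, h8.trans (Nat.mul_le_mul_right _ ?_)⟩
  have h9 := h1.length_le
  have h10 := length_le_lsize π
  have h11 : D.length * n ≤ s * n := Nat.mul_le_mul_right _ (by omega)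
  have e : s * (n + 1) = s * n + s := by ring
  rw [e]
  omega

end Pool.Agent.T9h49.FE
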