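import Pool.Agent.T9h49.FE.Levels

/-!
The bound for extended Frege proofs with few levels of affine definitions.
-/

set_option autoImplicit false

namespace Pool.Agent.T9h49.FE

variable {F : FregeSystem}

theorem bb_le' (X n : ℕ) : bb X n ≤ 2 ^ (n + 1) * X :=
  (Nat.le_add_right _ _).trans (bb_le X n)

theorem Lf_step (R : Arith F) (W s n : ℕ) (hs : 1 ≤ s) :
    Lf R W s (n + 1) ≤ 2 ^ (W + 1) * (Lf R W s n + 23 * kR R * s) := by
  rw [Lf, kN]
  set V := 2 ^ (W + 1) with hV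
  have hV1 : 1 ≤ V := Nat.pow_pos (by norm_num)
  set k := kR R with hk
  have e1 : bb (Lf R W s n + 3 * k) W ≤ V * (Lf R W s n + 3 * k) := bb_le' _ _
  have e2 : bb (3 * k) W ≤ V * (3 * k) := bb_le' _ _
  have e3 : bb (2 * k) W ≤ V * (2 * k) := bb_le' _ _
  have e4 : bb k W ≤ V * k := bb_le' _ _
  have g1 : k ≤ V * k := Nat.le_mul_of_pos_left _ hV1
  have g2 : V * k ≤ s * (V * k) := Nat.le_mul_of_pos_left _ hs
  have f1 : s * (bb (3 * k) W + bb (2 * k) W + 6 * k) ≤ s * (11 * (V * k)) :=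
    Nat.mul_le_mul_left _ (by nlinarith)
  have f2 : s * (bb k W + 2 * k) ≤ s * (3 * (V * k)) := Nat.mul_le_mul_left _ (by omega)
  calc bb (Lf R W s n + 3 * k) W + s * (bb (3 * k) W + bb (2 * k) W + 6 * k) +
        s * (bb k W + 2 * k) + bb k W + 5 * k
      ≤ V * (Lf R W s n + 3 * k) + s * (11 * (V * k)) + s * (3 * (V * k)) + V * k +
        5 * (V * k) := by omega
    _ = V * Lf R W s n + 9 * (V * k) + 14 * (s * (V * k)) := by ring
    _ ≤ V * Lf R W s n + 9 * (s * (V * k)) + 14 * (s * (V * k)) := by omega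
    _ = V * (Lf R W s n + 23 * k * s) := by ring

theorem Lf_le (R : Arith F) (W s : ℕ) (hs : 1 ≤ s) (n : ℕ) :
    Lf R W s n ≤ (2 ^ (W + 1)) ^ n * ((n + 1) * (23 * kR R * s)) := by
  induction n with
  | zero =>
    rw [Lf]
    have : kR R * 1 ≤ kR R * s := Nat.mul_le_mul_left _ hs
    nlinarith
  | succ n ih =>
    refine (Lf_step R W s n hs).trans ?_
    have h1 : 1 ≤ (2 ^ (W + 1)) ^ n := Nat.pow_pos (Nat.pow_pos (by norm_num))
    calc 2 ^ (W + 1) * (Lf R W s n + 23 * kR R * s)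
        ≤ 2 ^ (W + 1) * ((2 ^ (W + 1)) ^ n * ((n + 1) * (23 * kR R * s)) +
          (2 ^ (W + 1)) ^ n * (23 * kR R * s)) :=
          Nat.mul_le_mul_left _ (Nat.add_le_add ih (Nat.le_mul_of_pos_left _ h1))
      _ = _ := by ring

theorem arith8 (k b c L d : ℕ) (hL1 : 1 ≤ L) :
    1 + (18 + (3 * (L + 1) + 3 + 23 * k)) +
      (k + (1 + (6 * b + ((2 * b * (L + 1 + 1) + 1 + b) * d + c)))) ≤
    (30 + 24 * k + 13 * b + c) * (d + 1) * L := by
  have g1 : k * 1 ≤ k * L := Nat.mul_le_mul_left _ hL1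
  have g2 : b * 1 ≤ b * L := Nat.mul_le_mul_left _ hL1
  have g3 : c * 1 ≤ c * L := Nat.mul_le_mul_left _ hL1
  have g4 : (b * d) * 1 ≤ (b * d) * L := Nat.mul_le_mul_left _ hL1
  have g5 : d * 1 ≤ d * L := Nat.mul_le_mul_left _ hL1
  have e1 : 1 + (18 + (3 * (L + 1) + 3 + 23 * k)) +
      (k + (1 + (6 * b + ((2 * b * (L + 1 + 1) + 1 + b) * d + c)))) =
      26 + 3 * L + 24 * k + 6 * b + 2 * (b * d * L) + 5 * (b * d) + d + c := by ring
  have e2 : (30 + 24 * k + 13 * b + c) * (d + 1) * L =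
      30 * L + 24 * (k * L) + 13 * (b * L) + c * L + 30 * (d * L) + 24 * (k * d * L) +
        13 * (b * d * L) + c * d * L := by ring
  rw [e1, e2]
  have g6 := Nat.zero_le (k * d * L)
  have g7 := Nat.zero_le (c * d * L)
  omega

/-- extended Frege proofs with `d` levels of affine definitions -/
theorem of_affine (F : FregeSystem) (R : Bool → Arith F) : ∃ c : ℕ, ∀ (τ : Fm F.B)
    (D : List (ℕ × Fm F.B)) (π : List (Fm F.B)), IsEProof F τ D π →
    ∀ (d : ℕ) (lev : ℕ → ℕ) (op : ℕ → Bool), AffineLevels R D d lev op →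
    ∃ π', IsProof F τ π' ∧
      lsize π' ≤ (lsize π + 2) ^ (c * (d + 1) * (Nat.log 2 (lsize π) + 1)) := by
  set k := kR (R true) + kR (R false) with hk
  set b := kB R with hb
  refine ⟨30 + 24 * k + 13 * b + c0 F, fun τ D π h d lev op hL => ?_⟩
  set s := lsize π with hsdef
  have hs : 1 ≤ s := (Fm.size_pos τ).trans (size_le_lsize h.2)
  set L := Nat.log 2 s + 1 with hLdef
  have hL1 : 1 ≤ L := by omega
  set W := L + 1 with hWdef
  have hW0 : s < 2 ^ L := Nat.lt_pow_succ_log_self (by norm_num) s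
  have hW1 : s + 1 < 2 ^ W := by
    rw [hWdef, pow_succ]
    omega
  obtain ⟨π', h1, h2⟩ := of_affine_aux h hL hW1
  refine ⟨π', h1, h2.trans ?_⟩
  rw [← hsdef]
  clear h2
  set u := s + 2 with hu
  have hu1 : 1 ≤ u := by omega
  have hu3 : 3 ≤ u := by omega
  have e2 : ∀ x, x ≤ u ^ x := fun x =>
    (le_two_pow x).trans (Nat.pow_le_pow_left (by omega) _)
  have hsu : s ≤ u := by omega
  have hW4 : 2 ^ W ≤ 4 * s := by
    rw [hWdef, hLdef, pow_succ, pow_succ]
    have := Nat.pow_log_le_self 2 (show s ≠ 0 by omega)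
    omega
  have huu : u * u = s * s + 4 * s + 4 := by rw [hu]; ring
  have hW2 : 2 ^ W ≤ u ^ 2 := by
    rw [pow_two, huu]
    nlinarith
  have hV : 2 ^ (W + 1) ≤ u ^ 3 := by
    rw [pow_succ, show u ^ 3 = u * u * u by ring]
    have e1 : 2 ^ W ≤ u * u := by rw [← pow_two]; exact hW2
    nlinarith
  have hWu : W + 1 ≤ u ^ 2 := by
    have e1 : Nat.log 2 s < s := Nat.log_lt_self 2 (by omega)
    rw [pow_two, huu]
    nlinarith
  -- the powers of `b`
  have hbW : b ^ W ≤ u ^ (2 * b) := by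
    have e1 : b ^ W ≤ (2 ^ b) ^ W := Nat.pow_le_pow_left (le_two_pow b) _
    refine e1.trans ?_
    rw [← pow_mul, Nat.mul_comm b W, pow_mul, pow_mul u 2]
    exact Nat.pow_le_pow_left hW2 _
  have hb4 : b ^ (W + 4) ≤ u ^ (6 * b) := by
    rw [pow_add]
    have e1 : b ^ 4 ≤ u ^ (4 * b) := by
      rw [Nat.mul_comm 4 b, pow_mul]
      exact Nat.pow_le_pow_left (e2 b) _
    calc b ^ W * b ^ 4 ≤ u ^ (2 * b) * u ^ (4 * b) := Nat.mul_le_mul hbW e1
      _ = u ^ (6 * b) := by rw [← pow_add]; congr 1; ring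
  have hbWW : (b ^ (W + 1)) ^ W ≤ u ^ (2 * b * (W + 1)) := by
    rw [← pow_mul, Nat.mul_comm (W + 1) W, pow_mul, pow_mul u (2 * b)]
    exact Nat.pow_le_pow_left hbW _
  -- the sizes
  set E := 2 * b * (W + 1) + 1 + b with hE
  have hMt : ∀ t, Mt R W W s t ≤ u ^ (E * t + c0 F) := by
    intro t
    induction t with
    | zero =>
      rw [Mt, Nat.mul_zero, Nat.zero_add]
      exact e2 _
    | succ t ih =>
      rw [Mt]
      calc (kB R ^ (W + 1)) ^ W * (s * (kB R * Mt R W W s t))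
          ≤ u ^ (2 * b * (W + 1)) * (u ^ 1 * (u ^ b * u ^ (E * t + c0 F))) :=
            Nat.mul_le_mul hbWW (Nat.mul_le_mul (by rw [pow_one]; exact hsu)
              (Nat.mul_le_mul (e2 _) ih))
        _ = u ^ (E * (t + 1) + c0 F) := by
          rw [← pow_add, ← pow_add, ← pow_add]
          congr 1
          rw [hE]
          ring
  -- the numbers of lines
  set G := 3 * W + 3 + 23 * k with hG
  have hLf : ∀ β, Lf (R β) W s W ≤ u ^ G := by
    intro β
    have hkβ : kR (R β) ≤ k := by cases β <;> omega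
    calc Lf (R β) W s W ≤ (2 ^ (W + 1)) ^ W * ((W + 1) * (23 * kR (R β) * s)) :=
          Lf_le (R β) W s hs W
      _ ≤ (u ^ 3) ^ W * (u ^ 2 * (u ^ (23 * k) * u ^ 1)) :=
          Nat.mul_le_mul (Nat.pow_le_pow_left hV _) (Nat.mul_le_mul hWu
            (Nat.mul_le_mul ((Nat.mul_le_mul_left _ hkβ).trans (e2 _))
              (by rw [pow_one]; exact hsu)))
      _ = u ^ G := by
        rw [← pow_mul, ← pow_add, ← pow_add, ← pow_add]
        congr 1
        rw [hG]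
        ring
  have hkG : ∀ β, kR (R β) ≤ u ^ G := by
    intro β
    have hkβ : kR (R β) ≤ k := by cases β <;> omega
    exact hkβ.trans ((e2 k).trans (Nat.pow_le_pow_right hu1 (by omega)))
  set Q := u ^ G with hQ
  have hQ1 : 1 ≤ Q := Nat.pow_pos hu1
  have hnD : ∀ β, nD (R β) W W s ≤ 7 * (u ^ 3 * Q) := by
    intro β
    unfold nD
    have a1 := hLf β
    have a2 := hkG β
    have a3 : Q ≤ u * Q := Nat.le_mul_of_pos_left _ hu1
    have a4 : u * Q ≤ u ^ 3 * Q := Nat.mul_le_mul_right _ (by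
      calc u = u ^ 1 := (pow_one u).symm
        _ ≤ u ^ 3 := Nat.pow_le_pow_right hu1 (by norm_num))
    have a5 : s * (2 ^ W * (Lf (R β) W s W + kR (R β)) + kR (R β) + 2 * kR (R β)) ≤
        u * (u ^ 2 * (2 * Q) + 3 * Q) := by
      refine Nat.mul_le_mul hsu ?_
      have a6 : 2 ^ W * (Lf (R β) W s W + kR (R β)) ≤ u ^ 2 * (2 * Q) :=
        Nat.mul_le_mul hW2 (by omega)
      omega
    have a7 : u * (u ^ 2 * (2 * Q) + 3 * Q) = 2 * (u ^ 3 * Q) + 3 * (u * Q) := by ring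
    omega
  have hsum : nD (R true) W W s + nD (R false) W W s + 1 ≤ u ^ 18 * Q := by
    have a1 := hnD true
    have a2 := hnD false
    have a3 : 1 ≤ u ^ 3 * Q := Nat.mul_pos (Nat.pow_pos hu1) hQ1
    have a4 : 15 ≤ u ^ 15 := e2 15
    calc nD (R true) W W s + nD (R false) W W s + 1 ≤ 15 * (u ^ 3 * Q) := by omega
      _ ≤ u ^ 15 * (u ^ 3 * Q) := Nat.mul_le_mul_right _ a4
      _ = u ^ 18 * Q := by ring
  calc (s * (nD (R true) W W s + nD (R false) W W s + 1)) *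
        (k * (s * (b ^ (W + 4) * Mt R W W s d)))
      ≤ (u ^ 1 * (u ^ 18 * Q)) * (u ^ k * (u ^ 1 * (u ^ (6 * b) * u ^ (E * d + c0 F)))) :=
        Nat.mul_le_mul (Nat.mul_le_mul (by rw [pow_one]; exact hsu) hsum)
          (Nat.mul_le_mul (e2 _) (Nat.mul_le_mul (by rw [pow_one]; exact hsu)
            (Nat.mul_le_mul hb4 (hMt d))))
    _ = u ^ (1 + (18 + G) + (k + (1 + (6 * b + (E * d + c0 F))))) := by
        rw [hQ]
        simp only [← pow_add]
    _ ≤ u ^ ((30 + 24 * k + 13 * b + c0 F) * (d + 1) * L) := by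
        refine Nat.pow_le_pow_right hu1 ?_
        exact arith8 k b (c0 F) L d hL1

end Pool.Agent.T9h49.FE
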