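import Pool.Agent.T9h49.FE.Big

/-!
Definitions that are affine in the variables of their level: syntax trees, linearity, one step of
the evaluation by products of matrices.
-/

set_option autoImplicit false

namespace Pool.Agent.T9h49.FE

variable {F : FregeSystem} (R : Arith F)

theorem ind_le {B : Basis} (a b φ : Fm B) :
    (if 0 ∈ φ.vars then a.size else 0) + (if 1 ∈ φ.vars then b.size else 0) ≤
      (φ.subst (sub2 a b)).size := by
  induction φ with
  | var i =>
    simp only [Fm.vars, Fm.subst, Finset.mem_singleton, sub2]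
    rcases Nat.lt_or_ge 1 i with h | h
    · rw [if_neg (by omega), if_neg (by omega)]; omega
    · interval_cases i <;> simp
  | app c f ih =>
    simp only [Fm.subst, Fm.size]
    have h1 : (if 0 ∈ (Fm.app c f).vars then a.size else 0) ≤
        ∑ i, (if 0 ∈ (f i).vars then a.size else 0) := by
      split
      · rename_i h
        simp only [Fm.vars, Finset.mem_biUnion, Finset.mem_univ, true_and] at h
        obtain ⟨i, hi⟩ := h
        have := Finset.single_le_sum (f := fun i => if 0 ∈ (f i).vars then a.size else 0)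
          (fun _ _ => Nat.zero_le _) (Finset.mem_univ i)
        simpa [hi] using this
      · exact Nat.zero_le _
    have h2 : (if 1 ∈ (Fm.app c f).vars then b.size else 0) ≤
        ∑ i, (if 1 ∈ (f i).vars then b.size else 0) := by
      split
      · rename_i h
        simp only [Fm.vars, Finset.mem_biUnion, Finset.mem_univ, true_and] at h
        obtain ⟨i, hi⟩ := h
        have := Finset.single_le_sum (f := fun i => if 1 ∈ (f i).vars then b.size else 0)
          (fun _ _ => Nat.zero_le _) (Finset.mem_univ i)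
        simpa [hi] using this
      · exact Nat.zero_le _
    have h3 := Finset.sum_le_sum (s := Finset.univ) fun i _ => ih i
    rw [Finset.sum_add_distrib] at h3
    omega

theorem pl_mem (R : Arith F) : 0 ∈ R.pl.vars ∧ 1 ∈ R.pl.vars := by
  constructor
  · by_contra h
    have h1 : R.pl.eval (fun _ => false) = R.pl.eval (fun i => if i = 0 then true else false) :=
      Fm.eval_congr fun i hi => by
        have : i ≠ 0 := fun h' => h (h' ▸ hi)
        simp [this]
    rcases R.pl_eval with h2 | h2 <;> rw [h2, h2] at h1 <;> simp at h1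
  · by_contra h
    have h1 : R.pl.eval (fun _ => false) = R.pl.eval (fun i => if i = 1 then true else false) :=
      Fm.eval_congr fun i hi => by
        have : i ≠ 1 := fun h' => h (h' ▸ hi)
        simp [this]
    rcases R.pl_eval with h2 | h2 <;> rw [h2, h2] at h1 <;> simp at h1

theorem an_mem (R : Arith F) : 0 ∈ R.an.vars ∧ 1 ∈ R.an.vars := by
  constructor
  · by_contra h
    have h1 : R.an.eval (fun _ => true) = R.an.eval (fun i => if i = 0 then false else true) :=
      Fm.eval_congr fun i hi => by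
        have : i ≠ 0 := fun h' => h (h' ▸ hi)
        simp [this]
    rw [R.an_eval, R.an_eval] at h1
    simp at h1
  · by_contra h
    have h1 : R.an.eval (fun _ => true) = R.an.eval (fun i => if i = 1 then false else true) :=
      Fm.eval_congr fun i hi => by
        have : i ≠ 1 := fun h' => h (h' ▸ hi)
        simp [this]
    rw [R.an_eval, R.an_eval] at h1
    simp at h1

theorem size_add_le {a b φ : Fm F.B} (h0 : 0 ∈ φ.vars) (h1 : 1 ∈ φ.vars) :
    a.size + b.size + 1 ≤ (φ.subst (sub2 a b)).size := by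
  rcases φ with i | ⟨c, f⟩
  · simp only [Fm.vars, Finset.mem_singleton] at h0 h1
    omega
  · have h3 := Finset.sum_le_sum (s := Finset.univ) fun i _ => ind_le a b (f i)
    rw [Finset.sum_add_distrib] at h3
    simp only [Fm.vars, Finset.mem_biUnion, Finset.mem_univ, true_and] at h0 h1
    obtain ⟨i, hi⟩ := h0
    obtain ⟨j, hj⟩ := h1
    have e1 := Finset.single_le_sum (f := fun i => if 0 ∈ (f i).vars then a.size else 0)
      (fun _ _ => Nat.zero_le _) (Finset.mem_univ i)
    have e2 := Finset.single_le_sum (f := fun i => if 1 ∈ (f i).vars then b.size else 0)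
      (fun _ _ => Nat.zero_le _) (Finset.mem_univ j)
    simp only [hi, hj, if_true] at e1 e2
    simp only [Fm.subst, Fm.size]
    omega

theorem size_add_le_pls (a b : Fm F.B) : a.size + b.size + 1 ≤ (R.pls a b).size :=
  size_add_le (pl_mem R).1 (pl_mem R).2

theorem size_add_le_adn (a b : Fm F.B) : a.size + b.size + 1 ≤ (R.adn a b).size :=
  size_add_le (an_mem R).1 (an_mem R).2

theorem mem_vars_pls {a b : Fm F.B} {v : ℕ} :
    v ∈ (R.pls a b).vars ↔ v ∈ a.vars ∨ v ∈ b.vars := by
  rw [Arith.pls, Fm.mem_vars_subst]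
  constructor
  · rintro ⟨i, _, hj⟩
    unfold sub2 at hj
    split at hj
    · exact Or.inl hj
    · exact Or.inr hj
  · rintro (h | h)
    · exact ⟨0, (pl_mem R).1, by simpa [sub2] using h⟩
    · exact ⟨1, (pl_mem R).2, by simpa [sub2] using h⟩

theorem mem_vars_adn {a b : Fm F.B} {v : ℕ} :
    v ∈ (R.adn a b).vars ↔ v ∈ a.vars ∨ v ∈ b.vars := by
  rw [Arith.adn, Fm.mem_vars_subst]
  constructor
  · rintro ⟨i, _, hj⟩
    unfold sub2 at hj
    split at hj
    · exact Or.inl hj
    · exact Or.inr hj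
  · rintro (h | h)
    · exact ⟨0, (an_mem R).1, by simpa [sub2] using h⟩
    · exact ⟨1, (an_mem R).2, by simpa [sub2] using h⟩

/-- syntax trees of affine formulas -/
inductive LS (B : Basis) : Type
  | free : Fm B → LS B
  | var : ℕ → LS B
  | plus : LS B → LS B → LS B
  | scal : Fm B → LS B → LS B

namespace LS

/-- the formula -/
def fm (R : Arith F) : LS F.B → Fm F.B
  | free A => A
  | var v => Fm.var v
  | plus a b => R.pls (fm R a) (fm R b)
  | scal A b => R.adn A (fm R b)

/-- the coefficients contain no variables from `X` -/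
def ok (X : ℕ → Prop) : LS F.B → Prop
  | free A => ∀ v ∈ A.vars, ¬ X v
  | var v => X v
  | plus a b => ok X a ∧ ok X b
  | scal A b => (∀ v ∈ A.vars, ¬ X v) ∧ ok X b

def nodes : LS F.B → ℕ
  | free _ => 1
  | var _ => 1
  | plus a b => nodes a + nodes b + 1
  | scal _ b => nodes b + 1

/-- the homogeneous value at the vector `y`; the coordinate `0` stands for `1` -/
def val (R : Arith F) (σ : ℕ → Fm F.B) (idx : ℕ → ℕ) (y : ℕ → Fm F.B) : LS F.B → Fm F.B
  | free A => R.adn (A.subst σ) (y 0)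
  | var v => y (idx v)
  | plus a b => R.pls (val R σ idx y a) (val R σ idx y b)
  | scal A b => R.adn (A.subst σ) (val R σ idx y b)

theorem nodes_le (R : Arith F) (t : LS F.B) : t.nodes ≤ (t.fm R).size := by
  induction t with
  | free A => exact Fm.size_pos A
  | var v => exact Fm.size_pos _
  | plus a b iha ihb =>
    have := size_add_le_pls R (a.fm R) (b.fm R)
    simp only [nodes, fm]
    omega
  | scal A b ihb =>
    have := size_add_le_adn R A (b.fm R)
    simp only [nodes, fm]
    omega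

end LS

theorem size_scale {B : Basis} {φ : Fm B} {ρ ρ' : ℕ → Fm B} {K : ℕ} (hK : 1 ≤ K)
    (h : ∀ i, (ρ' i).size ≤ (ρ i).size * K) : (φ.subst ρ').size ≤ (φ.subst ρ).size * K := by
  induction φ with
  | var i => exact h i
  | app c f ih =>
    simp only [Fm.subst, Fm.size, add_mul, one_mul, Finset.sum_mul]
    exact Nat.add_le_add hK (Finset.sum_le_sum fun i _ => ih i)

theorem sub2_scale {B : Basis} {a b a' b' : Fm B} {K : ℕ} (ha : a'.size ≤ a.size * K)
    (hb : b'.size ≤ b.size * K) (i : ℕ) : (sub2 a' b' i).size ≤ (sub2 a b i).size * K := by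
  unfold sub2
  split
  · exact ha
  · exact hb

theorem size_val {σ : ℕ → Fm F.B} {idx : ℕ → ℕ} {y : ℕ → Fm F.B} {M : ℕ} (hM : 1 ≤ M)
    (hσ : ∀ v, (σ v).size ≤ M) (hy : ∀ j, (y j).size ≤ M) (t : LS F.B) :
    (t.val R σ idx y).size ≤ (t.fm R).size * (R.kk * M) := by
  have hk := kk_pos R
  have hkM : M ≤ R.kk * M := Nat.le_mul_of_pos_left _ hk
  have hkM1 : 1 ≤ R.kk * M := hM.trans hkM
  have hA : ∀ A : Fm F.B, (A.subst σ).size ≤ A.size * M := fun A =>
    Fm.size_subst_le hM fun v _ => hσ v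
  induction t with
  | free A =>
    simp only [LS.val, LS.fm]
    refine (size_adn R (m := A.size * M) (hA A)
      ((hy 0).trans (Nat.le_mul_of_pos_left _ (Fm.size_pos A)))).trans (le_of_eq ?_)
    ring
  | var v =>
    simp only [LS.val, LS.fm, Fm.size, one_mul]
    exact (hy _).trans hkM
  | plus a b iha ihb =>
    simp only [LS.val, LS.fm]
    exact size_scale hkM1 (sub2_scale iha ihb)
  | scal A b ihb =>
    simp only [LS.val, LS.fm]
    exact size_scale hkM1 (sub2_scale ((hA A).trans (Nat.mul_le_mul_left _ hkM)) ihb)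

/-- linear combination of vectors -/
def comb (W : ℕ) (y : ℕ → Fm F.B) (Z : ℕ → ℕ → Fm F.B) (j : ℕ) : Fm F.B :=
  big R W (fun l => R.adn (y l) (Z l j))

/-- lines for one node -/
noncomputable def kN (W : ℕ) : ℕ := bb (3 * kR R) W + bb (2 * kR R) W + 6 * kR R

theorem pow_mul_le {k a b s M : ℕ} (hk : 1 ≤ k) (h : a ≤ b) :
    s * (k ^ a * M) ≤ s * (k ^ b * M) :=
  Nat.mul_le_mul_left _ (Nat.mul_le_mul_right _ (Nat.pow_le_pow_right hk h))

/-- linearity of the homogeneous value -/
theorem val_lin {W s : ℕ} {σ : ℕ → Fm F.B} {idx : ℕ → ℕ} {y : ℕ → Fm F.B} {Z : ℕ → ℕ → Fm F.B}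
    {M m : ℕ} (hM : 1 ≤ M) (hσ : ∀ v, (σ v).size ≤ M) (hy : ∀ j, (y j).size ≤ M)
    (hZ : ∀ l j, (Z l j).size ≤ M) (hm : kR R * (s * (R.kk ^ (W + 4) * M)) ≤ m)
    (Γ : Set (Fm F.B)) : ∀ t : LS F.B, (t.fm R).size ≤ s →
    Ded F m (t.nodes * kN R W) Γ {F.eqv (t.val R σ idx (comb R W y Z))
      (big R W (fun l => R.adn (y l) (t.val R σ idx (Z l))))} := by
  have hk := kk_pos R
  have hA : ∀ A : Fm F.B, (A.subst σ).size ≤ A.size * M := fun A =>
    Fm.size_subst_le hM fun v _ => hσ v
  have hval : ∀ (t : LS F.B) l, (t.fm R).size ≤ s →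
      (t.val R σ idx (Z l)).size ≤ s * (R.kk * M) := fun t l ht =>
    (size_val R hM hσ (hZ l) t).trans (Nat.mul_le_mul_right _ ht)
  have hyv : ∀ (t : LS F.B) l, (t.fm R).size ≤ s →
      (R.adn (y l) (t.val R σ idx (Z l))).size ≤ s * (R.kk ^ 2 * M) := by
    intro t l ht
    have hs : 1 ≤ s := (Fm.size_pos _).trans ht
    refine (size_adn R (m := s * (R.kk * M)) ((hy l).trans ((Nat.le_mul_of_pos_left _ hk).trans
      (Nat.le_mul_of_pos_left _ hs))) (hval t l ht)).trans (le_of_eq ?_)
    ring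
  have hcomb : ∀ j, (comb R W y Z j).size ≤ R.kk ^ (W + 1) * M := by
    intro j
    rw [pow_succ, Nat.mul_assoc]
    exact size_big R fun l _ => size_adn R (hy l) (hZ l j)
  have hvalc : ∀ t : LS F.B, (t.fm R).size ≤ s →
      (t.val R σ idx (comb R W y Z)).size ≤ s * (R.kk ^ (W + 2) * M) := by
    intro t ht
    have h1 : M ≤ R.kk ^ (W + 1) * M := kk_le_pow R (W + 1) M
    refine (size_val R (hM.trans h1) (fun v => (hσ v).trans h1) hcomb t).trans ?_
    refine (Nat.mul_le_mul_right _ ht).trans (le_of_eq ?_)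
    ring
  have hbig : ∀ t : LS F.B, (t.fm R).size ≤ s →
      (big R W (fun l => R.adn (y l) (t.val R σ idx (Z l)))).size ≤
        s * (R.kk ^ (W + 2) * M) := by
    intro t ht
    refine (size_big R fun l _ => hyv t l ht).trans (le_of_eq ?_)
    ring
  -- the final steps, common to the scalar case
  have hscal : ∀ (A : Fm F.B) (t : LS F.B) (n : ℕ), (R.adn A (t.fm R)).size ≤ s →
      Ded F m n Γ {F.eqv (t.val R σ idx (comb R W y Z))
        (big R W (fun l => R.adn (y l) (t.val R σ idx (Z l))))} →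
      Ded F m (n + kN R W) Γ {F.eqv (R.adn (A.subst σ) (t.val R σ idx (comb R W y Z)))
        (big R W (fun l => R.adn (y l) (R.adn (A.subst σ) (t.val R σ idx (Z l)))))} := by
    intro A t n hAt h
    have hsz := size_add_le_adn R A (t.fm R)
    have ht : (t.fm R).size ≤ s := by omega
    have hs : 1 ≤ s := (Fm.size_pos _).trans ht
    have hAs : (A.subst σ).size ≤ s * M :=
      (hA A).trans (Nat.mul_le_mul_right _ (by omega))
    have up : ∀ {x : ℕ} (a : ℕ), x ≤ s * M → x ≤ s * (R.kk ^ a * M) := fun a hx =>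
      hx.trans (Nat.mul_le_mul_left _ (kk_le_pow R a M))
    -- congruence
    have h0 := ded_refl' R (A.subst σ) (m := m) (s := s * (R.kk ^ (W + 4) * M))
      (up _ hAs) hm Γ
    have h1 := ded_adn_cong R h0 h (s := s * (R.kk ^ (W + 4) * M)) (up _ hAs) (up _ hAs)
      ((hvalc t ht).trans (pow_mul_le hk (by omega)))
      ((hbig t ht).trans (pow_mul_le hk (by omega))) hm
    -- distributivity
    have h2 := big_scal R (Γ := Γ) (m := m) (s := s * (R.kk ^ 2 * M)) (A.subst σ) (up _ hAs)
      (n := W) (f := fun l => R.adn (y l) (t.val R σ idx (Z l))) (fun l _ => hyv t l ht)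
      (le_trans (Nat.mul_le_mul_left _ (by
        rw [show R.kk ^ (W + 1) * (s * (R.kk ^ 2 * M)) = s * (R.kk ^ (W + 3) * M) by ring]
        exact pow_mul_le hk (by omega))) hm)
    have c1 : ∀ l, (R.adn (A.subst σ) (R.adn (y l) (t.val R σ idx (Z l)))).size ≤
        s * (R.kk ^ 3 * M) := fun l =>
      (size_adn R (up 2 hAs) (hyv t l ht)).trans (le_of_eq (by ring))
    have c2 : ∀ l, (R.adn (y l) (R.adn (A.subst σ) (t.val R σ idx (Z l)))).size ≤
        s * (R.kk ^ 3 * M) := fun l =>
      (size_adn R (m := s * (R.kk ^ 2 * M)) ((hy l).trans (up 2 (Nat.le_mul_of_pos_left _ hs)))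
        ((size_adn R (m := s * (R.kk * M)) (hAs.trans (Nat.mul_le_mul_left _
          (Nat.le_mul_of_pos_left _ hk))) (hval t l ht)).trans (le_of_eq (by ring)))).trans
        (le_of_eq (by ring))
    have c1b : (big R W (fun l => R.adn (A.subst σ) (R.adn (y l) (t.val R σ idx (Z l))))).size ≤
        s * (R.kk ^ (W + 4) * M) :=
      (size_big R fun l _ => c1 l).trans (le_trans (le_of_eq (by ring))
        (pow_mul_le hk (show W + 3 ≤ W + 4 by omega)))
    have c2b : (big R W (fun l => R.adn (y l) (R.adn (A.subst σ) (t.val R σ idx (Z l))))).size ≤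
        s * (R.kk ^ (W + 4) * M) :=
      (size_big R fun l _ => c2 l).trans (le_trans (le_of_eq (by ring))
        (pow_mul_le hk (show W + 3 ≤ W + 4 by omega)))
    have c3 : (R.adn (A.subst σ) (big R W (fun l => R.adn (y l) (t.val R σ idx (Z l))))).size ≤
        s * (R.kk ^ (W + 4) * M) :=
      (size_adn R (up (W + 2) hAs) (hbig t ht)).trans (le_trans (le_of_eq (by ring))
        (pow_mul_le hk (show W + 3 ≤ W + 4 by omega)))
    have c4 : (R.adn (A.subst σ) (t.val R σ idx (comb R W y Z))).size ≤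
        s * (R.kk ^ (W + 4) * M) :=
      (size_adn R (up (W + 2) hAs) (hvalc t ht)).trans (le_trans (le_of_eq (by ring))
        (pow_mul_le hk (show W + 3 ≤ W + 4 by omega)))
    have h3 := h1.trans' R (h2.sym' R (s := s * (R.kk ^ (W + 4) * M)) c1b c3 hm)
      (s := s * (R.kk ^ (W + 4) * M)) c4 c3 c1b hm
    -- commutation
    have h4 := big_cong R (Γ := Γ) (m := m) (n0 := kR R) (s := s * (R.kk ^ 3 * M)) (n := W)
      (f := fun l => R.adn (A.subst σ) (R.adn (y l) (t.val R σ idx (Z l))))
      (g := fun l => R.adn (y l) (R.adn (A.subst σ) (t.val R σ idx (Z l))))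
      (fun l _ => ded_com R (A.subst σ) (y l) (t.val R σ idx (Z l)) (s := s * (R.kk ^ 1 * M))
        (up 1 hAs) ((hy l).trans (up 1 (Nat.le_mul_of_pos_left _ hs)))
        ((hval t l ht).trans (le_of_eq (by ring))) (le_trans (Nat.mul_le_mul_left _
          (pow_mul_le hk (by omega))) hm) Γ)
      (fun l _ => c1 l) (fun l _ => c2 l) (le_trans (Nat.mul_le_mul_left _ (by
        rw [show R.kk ^ W * (s * (R.kk ^ 3 * M)) = s * (R.kk ^ (W + 3) * M) by ring]
        exact pow_mul_le hk (by omega))) hm)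
    have h5 := h3.trans' R h4 (s := s * (R.kk ^ (W + 4) * M)) c4 c1b c2b hm
    refine h5.mono le_rfl ?_ (fun _ h => h) (fun _ h => h)
    unfold kN
    have e : kR R + kR R = 2 * kR R := by ring
    rw [e]
    omega
  intro t
  induction t with
  | free A =>
    intro hA'
    -- as a scalar multiple of the coordinate `0`
    have hs : 1 ≤ s := (Fm.size_pos _).trans hA'
    simp only [LS.val, LS.nodes, one_mul]
    simp only [LS.fm] at hA'
    have hAs : (A.subst σ).size ≤ s * M := (hA A).trans (Nat.mul_le_mul_right _ hA')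
    have up : ∀ {x : ℕ} (a : ℕ), x ≤ s * M → x ≤ s * (R.kk ^ a * M) := fun a hx =>
      hx.trans (Nat.mul_le_mul_left _ (kk_le_pow R a M))
    have hM' : M ≤ s * M := Nat.le_mul_of_pos_left _ hs
    have d1 : ∀ l, (R.adn (y l) (Z l 0)).size ≤ s * (R.kk ^ 1 * M) := fun l =>
      (size_adn R (hy l) (hZ l 0)).trans ((Nat.le_mul_of_pos_left _ hs).trans
        (le_of_eq (by ring)))
    have h2 := big_scal R (Γ := Γ) (m := m) (s := s * (R.kk ^ 1 * M)) (A.subst σ) (up _ hAs)
      (n := W) (f := fun l => R.adn (y l) (Z l 0)) (fun l _ => d1 l)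
      (le_trans (Nat.mul_le_mul_left _ (by
        rw [show R.kk ^ (W + 1) * (s * (R.kk ^ 1 * M)) = s * (R.kk ^ (W + 2) * M) by ring]
        exact pow_mul_le hk (by omega))) hm)
    have c1 : ∀ l, (R.adn (A.subst σ) (R.adn (y l) (Z l 0))).size ≤ s * (R.kk ^ 2 * M) :=
      fun l => (size_adn R (up 1 hAs) (d1 l)).trans (le_of_eq (by ring))
    have c2 : ∀ l, (R.adn (y l) (R.adn (A.subst σ) (Z l 0))).size ≤ s * (R.kk ^ 2 * M) :=
      fun l => (size_adn R (m := s * (R.kk ^ 1 * M)) ((hy l).trans (up 1 hM'))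
        ((size_adn R (m := s * M) hAs ((hZ l 0).trans hM')).trans (le_of_eq (by ring)))).trans
        (le_of_eq (by ring))
    have c1b : (big R W (fun l => R.adn (A.subst σ) (R.adn (y l) (Z l 0)))).size ≤
        s * (R.kk ^ (W + 4) * M) :=
      (size_big R fun l _ => c1 l).trans (le_trans (le_of_eq (by ring))
        (pow_mul_le hk (show W + 2 ≤ W + 4 by omega)))
    have c2b : (big R W (fun l => R.adn (y l) (R.adn (A.subst σ) (Z l 0)))).size ≤
        s * (R.kk ^ (W + 4) * M) :=
      (size_big R fun l _ => c2 l).trans (le_trans (le_of_eq (by ring))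
        (pow_mul_le hk (show W + 2 ≤ W + 4 by omega)))
    have c3 : (R.adn (A.subst σ) (big R W (fun l => R.adn (y l) (Z l 0)))).size ≤
        s * (R.kk ^ (W + 4) * M) := by
      have e : (big R W (fun l => R.adn (y l) (Z l 0))).size ≤ s * (R.kk ^ (W + 1) * M) :=
        (size_big R fun l _ => d1 l).trans (le_of_eq (by ring))
      exact (size_adn R (up (W + 1) hAs) e).trans (le_trans (le_of_eq (by ring))
        (pow_mul_le hk (show W + 2 ≤ W + 4 by omega)))
    have h4 := big_cong R (Γ := Γ) (m := m) (n0 := kR R) (s := s * (R.kk ^ 2 * M)) (n := W)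
      (f := fun l => R.adn (A.subst σ) (R.adn (y l) (Z l 0)))
      (g := fun l => R.adn (y l) (R.adn (A.subst σ) (Z l 0)))
      (fun l _ => ded_com R (A.subst σ) (y l) (Z l 0) (s := s * (R.kk ^ 1 * M))
        (up 1 hAs) ((hy l).trans (up 1 hM')) ((hZ l 0).trans (up 1 hM'))
        (le_trans (Nat.mul_le_mul_left _ (pow_mul_le hk (by omega))) hm) Γ)
      (fun l _ => c1 l) (fun l _ => c2 l) (le_trans (Nat.mul_le_mul_left _ (by
        rw [show R.kk ^ W * (s * (R.kk ^ 2 * M)) = s * (R.kk ^ (W + 2) * M) by ring]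
        exact pow_mul_le hk (by omega))) hm)
    have h5 := (h2.sym' R (s := s * (R.kk ^ (W + 4) * M)) c1b c3 hm).trans' R h4
      (s := s * (R.kk ^ (W + 4) * M)) c3 c1b c2b hm
    refine h5.mono le_rfl ?_ (fun _ h => h) (fun _ h => h)
    unfold kN
    have e : kR R + kR R = 2 * kR R := by ring
    rw [e]
    omega
  | var v =>
    intro hv
    simp only [LS.val, LS.nodes, one_mul]
    have hs : 1 ≤ s := (Fm.size_pos _).trans hv
    refine (ded_refl' R (comb R W y Z (idx v)) (s := s * (R.kk ^ (W + 4) * M)) ?_ hm Γ).mono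
      le_rfl (by unfold kN; omega) (fun _ h => h) (fun _ h => h)
    refine (hcomb _).trans ((Nat.le_mul_of_pos_left _ hs).trans (pow_mul_le hk (by omega)))
  | plus a b iha ihb =>
    intro hab
    simp only [LS.val, LS.nodes]
    simp only [LS.fm] at hab
    have hsz := size_add_le_pls R (a.fm R) (b.fm R)
    have ha : (a.fm R).size ≤ s := by omega
    have hb : (b.fm R).size ≤ s := by omega
    have hs : 1 ≤ s := (Fm.size_pos _).trans ha
    have h1 := ded_pls_cong R (iha ha) (ihb hb) (s := s * (R.kk ^ (W + 4) * M))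
      ((hvalc a ha).trans (pow_mul_le hk (by omega)))
      ((hbig a ha).trans (pow_mul_le hk (by omega)))
      ((hvalc b hb).trans (pow_mul_le hk (by omega)))
      ((hbig b hb).trans (pow_mul_le hk (by omega))) hm
    have h2 := big_add R (Γ := Γ) (m := m) (s := s * (R.kk ^ 2 * M)) (n := W)
      (f := fun l => R.adn (y l) (a.val R σ idx (Z l)))
      (g := fun l => R.adn (y l) (b.val R σ idx (Z l))) (fun l _ => hyv a l ha)
      (fun l _ => hyv b l hb) (le_trans (Nat.mul_le_mul_left _ (by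
        rw [show R.kk ^ (W + 1) * (s * (R.kk ^ 2 * M)) = s * (R.kk ^ (W + 3) * M) by ring]
        exact pow_mul_le hk (by omega))) hm)
    have c1 : ∀ l, (R.pls (R.adn (y l) (a.val R σ idx (Z l)))
        (R.adn (y l) (b.val R σ idx (Z l)))).size ≤ s * (R.kk ^ 3 * M) := fun l =>
      (size_pls R (hyv a l ha) (hyv b l hb)).trans (le_of_eq (by ring))
    have c2 : ∀ l, (R.adn (y l) (R.pls (a.val R σ idx (Z l)) (b.val R σ idx (Z l)))).size ≤
        s * (R.kk ^ 3 * M) := fun l =>
      (size_adn R (m := s * (R.kk ^ 2 * M)) ((hy l).trans ((Nat.le_mul_of_pos_left _ hs).trans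
        (Nat.mul_le_mul_left _ (kk_le_pow R 2 M)))) ((size_pls R (hval a l ha)
        (hval b l hb)).trans (le_of_eq (by ring)))).trans (le_of_eq (by ring))
    have c1b : (big R W (fun l => R.pls (R.adn (y l) (a.val R σ idx (Z l)))
        (R.adn (y l) (b.val R σ idx (Z l))))).size ≤ s * (R.kk ^ (W + 4) * M) :=
      (size_big R fun l _ => c1 l).trans (le_trans (le_of_eq (by ring))
        (pow_mul_le hk (show W + 3 ≤ W + 4 by omega)))
    have c2b : (big R W (fun l => R.adn (y l) (R.pls (a.val R σ idx (Z l))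
        (b.val R σ idx (Z l))))).size ≤ s * (R.kk ^ (W + 4) * M) :=
      (size_big R fun l _ => c2 l).trans (le_trans (le_of_eq (by ring))
        (pow_mul_le hk (show W + 3 ≤ W + 4 by omega)))
    have c3 : (R.pls (big R W (fun l => R.adn (y l) (a.val R σ idx (Z l))))
        (big R W (fun l => R.adn (y l) (b.val R σ idx (Z l))))).size ≤
        s * (R.kk ^ (W + 4) * M) :=
      (size_pls R (hbig a ha) (hbig b hb)).trans (le_trans (le_of_eq (by ring))
        (pow_mul_le hk (show W + 3 ≤ W + 4 by omega)))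
    have c4 : (R.pls (a.val R σ idx (comb R W y Z)) (b.val R σ idx (comb R W y Z))).size ≤
        s * (R.kk ^ (W + 4) * M) :=
      (size_pls R (hvalc a ha) (hvalc b hb)).trans (le_trans (le_of_eq (by ring))
        (pow_mul_le hk (show W + 3 ≤ W + 4 by omega)))
    have h3 := h1.trans' R (h2.sym' R (s := s * (R.kk ^ (W + 4) * M)) c1b c3 hm)
      (s := s * (R.kk ^ (W + 4) * M)) c4 c3 c1b hm
    have h4 := big_cong R (Γ := Γ) (m := m) (n0 := kR R) (s := s * (R.kk ^ 3 * M)) (n := W)
      (f := fun l => R.pls (R.adn (y l) (a.val R σ idx (Z l)))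
        (R.adn (y l) (b.val R σ idx (Z l))))
      (g := fun l => R.adn (y l) (R.pls (a.val R σ idx (Z l)) (b.val R σ idx (Z l))))
      (fun l _ => ded_dis R (y l) (a.val R σ idx (Z l)) (b.val R σ idx (Z l))
        (s := s * (R.kk ^ 1 * M)) ((hy l).trans ((Nat.le_mul_of_pos_left _ hs).trans
        (Nat.mul_le_mul_left _ (kk_le_pow R 1 M))))
        ((hval a l ha).trans (le_of_eq (by ring))) ((hval b l hb).trans (le_of_eq (by ring)))
        (le_trans (Nat.mul_le_mul_left _ (pow_mul_le hk (by omega))) hm) Γ)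
      (fun l _ => c1 l) (fun l _ => c2 l) (le_trans (Nat.mul_le_mul_left _ (by
        rw [show R.kk ^ W * (s * (R.kk ^ 3 * M)) = s * (R.kk ^ (W + 3) * M) by ring]
        exact pow_mul_le hk (by omega))) hm)
    have h5 := h3.trans' R h4 (s := s * (R.kk ^ (W + 4) * M)) c4 c1b c2b hm
    refine h5.mono le_rfl ?_ (fun _ h => h) (fun _ h => h)
    have e : kR R + kR R = 2 * kR R := by ring
    rw [e]
    have e2 : (a.nodes + b.nodes + 1) * kN R W =
        a.nodes * kN R W + b.nodes * kN R W + kN R W := by ring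
    rw [e2]
    have e3 : bb (3 * kR R) W + bb (2 * kR R) W + 6 * kR R = kN R W := rfl
    omega
  | scal A b ihb =>
    intro hab
    simp only [LS.val, LS.nodes]
    simp only [LS.fm] at hab
    have hsz := size_add_le_adn R A (b.fm R)
    have h1 := hscal A b _ hab (ihb (by omega))
    refine h1.mono le_rfl (le_of_eq ?_) (fun _ h => h) (fun _ h => h)
    ring

/-- congruence of the homogeneous value -/
theorem val_cong {W s : ℕ} {σ : ℕ → Fm F.B} {idx : ℕ → ℕ} {X : ℕ → Prop}
    (hidx : ∀ v, X v → idx v < 2 ^ W) {y y' : ℕ → Fm F.B}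
    {M m n0 : ℕ} (hM : 1 ≤ M) (hσ : ∀ v, (σ v).size ≤ M) (hy : ∀ j, (y j).size ≤ M)
    (hy' : ∀ j, (y' j).size ≤ M) (hm : kR R * (s * (R.kk * M)) ≤ m)
    {Γ : Set (Fm F.B)} (h : ∀ j, j < 2 ^ W → Ded F m n0 Γ {F.eqv (y j) (y' j)}) :
    ∀ t : LS F.B, (t.fm R).size ≤ s → t.ok X →
    Ded F m (t.nodes * (n0 + 2 * kR R)) Γ {F.eqv (t.val R σ idx y) (t.val R σ idx y')} := by
  have hk := kk_pos R
  have hA : ∀ A : Fm F.B, (A.subst σ).size ≤ A.size * M := fun A =>
    Fm.size_subst_le hM fun v _ => hσ v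
  have hval : ∀ (t : LS F.B) (y : ℕ → Fm F.B), (∀ j, (y j).size ≤ M) → (t.fm R).size ≤ s →
      (t.val R σ idx y).size ≤ s * (R.kk * M) := fun t y hy ht =>
    (size_val R hM hσ hy t).trans (Nat.mul_le_mul_right _ ht)
  have hAk : ∀ A : Fm F.B, A.size ≤ s → (A.subst σ).size ≤ s * (R.kk * M) := fun A hs' =>
    (hA A).trans (Nat.mul_le_mul hs' (Nat.le_mul_of_pos_left _ hk))
  intro t
  induction t with
  | free A =>
    intro hA' _
    simp only [LS.fm] at hA'
    have hs : 1 ≤ s := (Fm.size_pos _).trans hA'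
    simp only [LS.val, LS.nodes, one_mul]
    have hM' : M ≤ s * (R.kk * M) :=
      (Nat.le_mul_of_pos_left _ hk).trans (Nat.le_mul_of_pos_left _ hs)
    have h0 := ded_refl' R (A.subst σ) (m := m) (hAk A hA') hm Γ
    refine (ded_adn_cong R h0 (h 0 (by positivity)) (hAk A hA') (hAk A hA')
      ((hy 0).trans hM') ((hy' 0).trans hM') hm).mono le_rfl (by omega) (fun _ h => h)
      (fun _ h => h)
  | var v =>
    intro _ hok
    simp only [LS.val, LS.nodes, one_mul]
    exact (h _ (hidx v hok)).mono le_rfl (by omega) (fun _ h => h) (fun _ h => h)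
  | plus a b iha ihb =>
    intro hab hok
    simp only [LS.fm] at hab
    have hsz := size_add_le_pls R (a.fm R) (b.fm R)
    have ha : (a.fm R).size ≤ s := by omega
    have hb : (b.fm R).size ≤ s := by omega
    simp only [LS.val, LS.nodes]
    refine (ded_pls_cong R (iha ha hok.1) (ihb hb hok.2) (hval a y hy ha) (hval a y' hy' ha)
      (hval b y hy hb) (hval b y' hy' hb) hm).mono le_rfl ?_ (fun _ h => h) (fun _ h => h)
    nlinarith
  | scal A b ihb =>
    intro hab hok
    simp only [LS.fm] at hab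
    have hsz := size_add_le_adn R A (b.fm R)
    have hb : (b.fm R).size ≤ s := by omega
    have hA' : A.size ≤ s := by omega
    simp only [LS.val, LS.nodes]
    have h0 := ded_refl' R (A.subst σ) (m := m) (hAk A hA') hm Γ
    refine (ded_adn_cong R h0 (ihb hb hok.2) (hAk A hA') (hAk A hA')
      (hval b y hy hb) (hval b y' hy' hb) hm).mono le_rfl ?_ (fun _ h => h) (fun _ h => h)
    nlinarith

/-- the homogeneous value and the formula -/
theorem val_fm {s : ℕ} {σ σ' : ℕ → Fm F.B} {idx : ℕ → ℕ} {X : ℕ → Prop} {y : ℕ → Fm F.B}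
    {M m n0 : ℕ} (hM : 1 ≤ M) (hσ : ∀ v, (σ v).size ≤ M) (hσ' : ∀ v, (σ' v).size ≤ M)
    (hy : ∀ j, (y j).size ≤ M) (hm : kR R * (s * (R.kk * M)) ≤ m)
    {Γ : Set (Fm F.B)} (h0 : Ded F m n0 Γ {F.eqv (y 0) (cst F true)}) :
    ∀ t : LS F.B, (t.fm R).size ≤ s → t.ok X →
    (∀ v ∈ (t.fm R).vars, ¬ X v → σ v = σ' v) →
    (∀ v ∈ (t.fm R).vars, X v → Ded F m n0 Γ {F.eqv (y (idx v)) (σ' v)}) →
    Ded F m (t.nodes * (n0 + 2 * kR R)) Γ {F.eqv (t.val R σ idx y) ((t.fm R).subst σ')} := by
  have hk := kk_pos R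
  have hA : ∀ A : Fm F.B, (A.subst σ).size ≤ A.size * M := fun A =>
    Fm.size_subst_le hM fun v _ => hσ v
  have hA' : ∀ A : Fm F.B, (A.subst σ').size ≤ A.size * M := fun A =>
    Fm.size_subst_le hM fun v _ => hσ' v
  have hval : ∀ (t : LS F.B), (t.fm R).size ≤ s →
      (t.val R σ idx y).size ≤ s * (R.kk * M) := fun t ht =>
    (size_val R hM hσ hy t).trans (Nat.mul_le_mul_right _ ht)
  have hAk : ∀ A : Fm F.B, A.size ≤ s → (A.subst σ).size ≤ s * (R.kk * M) := fun A hs' =>
    (hA A).trans (Nat.mul_le_mul hs' (Nat.le_mul_of_pos_left _ hk))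
  have hAk' : ∀ A : Fm F.B, A.size ≤ s → (A.subst σ').size ≤ s * (R.kk * M) := fun A hs' =>
    (hA' A).trans (Nat.mul_le_mul hs' (Nat.le_mul_of_pos_left _ hk))
  intro t
  induction t with
  | free A =>
    intro hAs hok hv _
    simp only [LS.fm] at hAs hv
    have hs : 1 ≤ s := (Fm.size_pos _).trans hAs
    have hM' : M ≤ s * (R.kk * M) :=
      (Nat.le_mul_of_pos_left _ hk).trans (Nat.le_mul_of_pos_left _ hs)
    simp only [LS.val, LS.nodes, LS.fm, one_mul]
    have e : A.subst σ = A.subst σ' := Fm.subst_congr fun v hvA => hv v hvA (hok v hvA)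
    rw [← e]
    exact (ded_uni R h0 (hAk A hAs) ((hy 0).trans hM') hm).mono le_rfl (by omega)
      (fun _ h => h) (fun _ h => h)
  | var v =>
    intro _ hok _ hX
    simp only [LS.val, LS.nodes, LS.fm, one_mul, Fm.subst]
    simp only [LS.fm, Fm.vars, Finset.mem_singleton, forall_eq] at hX
    exact (hX hok).mono le_rfl (by omega) (fun _ h => h) (fun _ h => h)
  | plus a b iha ihb =>
    intro hab hok hv hX
    simp only [LS.fm] at hab hv hX
    have hsz := size_add_le_pls R (a.fm R) (b.fm R)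
    have ha : (a.fm R).size ≤ s := by omega
    have hb : (b.fm R).size ≤ s := by omega
    simp only [LS.val, LS.nodes, LS.fm]
    rw [subst_pls]
    have ha' := iha ha hok.1 (fun v h1 => hv v ((mem_vars_pls R).2 (Or.inl h1)))
      (fun v h1 => hX v ((mem_vars_pls R).2 (Or.inl h1)))
    have hb' := ihb hb hok.2 (fun v h1 => hv v ((mem_vars_pls R).2 (Or.inr h1)))
      (fun v h1 => hX v ((mem_vars_pls R).2 (Or.inr h1)))
    refine (ded_pls_cong R ha' hb' (hval a ha) (hAk' _ ha)
      (hval b hb) (hAk' _ hb) hm).mono le_rfl ?_ (fun _ h => h) (fun _ h => h)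
    nlinarith
  | scal A b ihb =>
    intro hab hok hv hX
    simp only [LS.fm] at hab hv hX
    have hsz := size_add_le_adn R A (b.fm R)
    have hb : (b.fm R).size ≤ s := by omega
    have hAs : A.size ≤ s := by omega
    simp only [LS.val, LS.nodes, LS.fm]
    rw [subst_adn]
    have e : A.subst σ = A.subst σ' := Fm.subst_congr fun v hvA =>
      hv v ((mem_vars_adn R).2 (Or.inl hvA)) (hok.1 v hvA)
    have hb' := ihb hb hok.2 (fun v h1 => hv v ((mem_vars_adn R).2 (Or.inr h1)))
      (fun v h1 => hX v ((mem_vars_adn R).2 (Or.inr h1)))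
    have h0 := ded_refl' R (A.subst σ) (m := m) (hAk A hAs) hm Γ
    rw [← e]
    refine (ded_adn_cong R h0 hb' (hAk A hAs) (hAk A hAs)
      (hval b hb) (hAk' _ hb) hm).mono le_rfl ?_ (fun _ h => h) (fun _ h => h)
    nlinarith

end Pool.Agent.T9h49.FE
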