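import Pool.Agent.T9h49.FE.Subexp

/-!
Exponential separations and linear-size extended Frege proofs.
-/

set_option autoImplicit false

namespace Pool.Agent.T9h49.FE

open Filter

variable {F : FregeSystem}

/-- The formulas `τ n` separate extended Frege from Frege: their sizes tend to infinity, they have
extended Frege proofs of polynomial size, and all Frege proofs of `τ n` have size at least
`2 ^ (|τ n| ^ ε)`. -/
structure Separates (F : FregeSystem) (τ : ℕ → Fm F.B) (ε : ℝ) : Prop where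
  tend : Tendsto (fun n => (τ n).size) atTop atTop
  upper : ∃ C : ℕ, ∀ n, ∃ D π, IsEProof F (τ n) D π ∧ lsize π ≤ (τ n).size ^ C + C
  lower : ∀ n π, IsProof F (τ n) π → (2 : ℝ) ^ (((τ n).size : ℝ) ^ ε) ≤ lsize π

theorem size_lt_eqv (A : Fm F.B) : A.size < (F.eqv A A).size := by
  have h0 := zero_mem_iff_vars F
  rcases h : F.iff with i | ⟨b, f⟩
  · have h1 := F.iff_eval (fun _ => false)
    rw [h] at h1
    simp [Fm.eval] at h1
  · rw [h] at h0
    simp only [Fm.vars, Finset.mem_biUnion, Finset.mem_univ, true_and] at h0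
    obtain ⟨j, hj⟩ := h0
    rw [FregeSystem.eqv, h]
    simp only [Fm.subst, Fm.size]
    have h2 : (sub2 A A 0).size ≤ ((f j).subst (sub2 A A)).size := Fm.size_le_subst _ hj
    have h3 : ((f j).subst (sub2 A A)).size ≤ ∑ i, ((f i).subst (sub2 A A)).size :=
      Finset.single_le_sum (f := fun i => ((f i).subst (sub2 A A)).size)
        (fun _ _ => Nat.zero_le _) (Finset.mem_univ j)
    have h4 : (sub2 A A 0).size = A.size := by simp [sub2]
    omega

theorem iff_size_pos (F : FregeSystem) : 1 ≤ F.iff.size := Fm.size_pos _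

/-- padding formulas -/
theorem grow (N : ℕ) : ∀ (j : ℕ) (A : Fm F.B), N ≤ A.size + j → A.size ≤ F.iff.size * N →
    ∃ A' : Fm F.B, A'.vars ⊆ A.vars ∧ N ≤ A'.size ∧ A'.size ≤ F.iff.size * N := by
  intro j
  induction j with
  | zero =>
    intro A h1 h2
    exact ⟨A, subset_rfl, by omega, h2⟩
  | succ j ih =>
    intro A h1 h2
    by_cases h : N ≤ A.size
    · exact ⟨A, subset_rfl, h, h2⟩
    · have h3 := size_lt_eqv A
      obtain ⟨A', h4, h5, h6⟩ := ih (F.eqv A A) (by omega)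
        ((size_eqv le_rfl le_rfl).trans (Nat.mul_le_mul_left _ (by omega)))
      refine ⟨A', h4.trans ?_, h5, h6⟩
      intro v hv
      rw [mem_vars_eqv] at hv
      rcases hv with h | h <;> exact h

theorem EDer.mono {τ τ' : Fm F.B} {D : List (ℕ × Fm F.B)} {π : List (Fm F.B)}
    (h : EDer F τ D π) (hτ : τ'.vars ⊆ τ.vars) : EDer F τ' D π := by
  induction h with
  | nil => exact EDer.nil
  | rule σ _ h1 h2 ih => exact EDer.rule σ ih h1 h2
  | ext q φ _ h1 h2 h3 ih => exact EDer.ext q φ ih h1 (fun h => h2 (hτ h)) h3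

theorem EDer.join {τ : Fm F.B} {D : List (ℕ × Fm F.B)} {π : List (Fm F.B)}
    (h : EDer F τ D π) {Γ : Set (Fm F.B)} (hΓ : ∀ ψ ∈ Γ, ψ ∈ π) {π' : List (Fm F.B)}
    (h' : Der F.rules Γ π') : ∃ π'', EDer F τ D π'' ∧ (∀ ψ ∈ π, ψ ∈ π'') ∧ (∀ ψ ∈ π', ψ ∈ π'') ∧
      lsize π'' ≤ lsize π + lsize π' := by
  induction h' with
  | nil => exact ⟨π, h, fun _ h => h, fun _ h => absurd h List.not_mem_nil, by simp [lsize]⟩
  | @hyp π' φ _ hφ ih =>
    obtain ⟨π'', h1, h2, h3, h4⟩ := ih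
    refine ⟨π'', h1, h2, ?_, ?_⟩
    · intro ψ hψ
      rcases List.mem_cons.1 hψ with rfl | hψ
      · exact h2 _ (hΓ _ hφ)
      · exact h3 ψ hψ
    · refine h4.trans ?_
      simp only [lsize, List.map_cons, List.sum_cons]
      omega
  | @rule π' r σ _ hr hp ih =>
    obtain ⟨π'', h1, h2, h3, h4⟩ := ih
    refine ⟨_, EDer.rule σ h1 hr fun p hpr => h3 _ (hp p hpr),
      fun ψ hψ => List.mem_cons_of_mem _ (h2 ψ hψ), ?_, ?_⟩
    · intro ψ hψ
      rcases List.mem_cons.1 hψ with rfl | hψ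
      · exact List.mem_cons_self
      · exact List.mem_cons_of_mem _ (h3 ψ hψ)
    · simp only [lsize, List.map_cons, List.sum_cons] at h4 ⊢
      omega

theorem Der.joinSize {Γ : Set (Fm F.B)} {π : List (Fm F.B)}
    (h : Der F.rules ∅ π) (hΓ : ∀ ψ ∈ Γ, ψ ∈ π) {π' : List (Fm F.B)}
    (h' : Der F.rules Γ π') : ∃ π'', Der F.rules ∅ π'' ∧ (∀ ψ ∈ π, ψ ∈ π'') ∧
      (∀ ψ ∈ π', ψ ∈ π'') ∧ lsize π'' ≤ lsize π + lsize π' := by
  induction h' with
  | nil => exact ⟨π, h, fun _ h => h, fun _ h => absurd h List.not_mem_nil, by simp [lsize]⟩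
  | @hyp π' φ _ hφ ih =>
    obtain ⟨π'', h1, h2, h3, h4⟩ := ih
    refine ⟨π'', h1, h2, ?_, ?_⟩
    · intro ψ hψ
      rcases List.mem_cons.1 hψ with rfl | hψ
      · exact h2 _ (hΓ _ hφ)
      · exact h3 ψ hψ
    · refine h4.trans ?_
      simp only [lsize, List.map_cons, List.sum_cons]
      omega
  | @rule π' r σ _ hr hp ih =>
    obtain ⟨π'', h1, h2, h3, h4⟩ := ih
    refine ⟨_, Der.rule σ h1 hr fun p hpr => h3 _ (hp p hpr),
      fun ψ hψ => List.mem_cons_of_mem _ (h2 ψ hψ), ?_, ?_⟩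
    · intro ψ hψ
      rcases List.mem_cons.1 hψ with rfl | hψ
      · exact List.mem_cons_self
      · exact List.mem_cons_of_mem _ (h3 ψ hψ)
    · simp only [lsize, List.map_cons, List.sum_cons] at h4 ⊢
      omega

theorem lsize_le_mul {B : Basis} {π : List (Fm B)} {m n : ℕ} (h2 : ∀ ψ ∈ π, ψ.size ≤ m)
    (h3 : π.length ≤ n) : lsize π ≤ n * m := by
  refine le_trans ?_ (Nat.mul_le_mul_right m h3)
  unfold lsize
  have := List.sum_le_card_nsmul (π.map Fm.size) m (by
    intro x hx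
    obtain ⟨ψ, hψ, rfl⟩ := List.mem_map.1 hx
    exact h2 ψ hψ)
  simpa using this

/-- padding by a trivial equivalence -/
theorem pad (F : FregeSystem) : ∃ c : ℕ, 1 ≤ c ∧ ∀ (τ : Fm F.B) (D : List (ℕ × Fm F.B))
    (π : List (Fm F.B)), IsEProof F τ D π → ∃ τ' : Fm F.B, lsize π ≤ τ'.size ∧
      τ'.size ≤ c * lsize π ∧ (∃ D' π', IsEProof F τ' D' π' ∧ lsize π' ≤ c * τ'.size) ∧
      ∀ π', IsProof F τ' π' → ∃ π'', IsProof F τ π'' ∧ lsize π'' ≤ c * lsize π' := by
  set k1 := kap F [Fm.var 0, Fm.var 1] (F.eqv (Fm.var 0) (Fm.var 1)) with hk1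
  set k2 := kap F [F.eqv (Fm.var 0) (Fm.var 1), Fm.var 1] (Fm.var 0) with hk2
  set m0 := kRefl F + k1 + k2 with hm0
  refine ⟨(m0 + m0) * m0 + 1 + F.iff.size * (F.iff.size * F.iff.size), by omega,
    fun τ D π h => ?_⟩
  set S := lsize π with hS
  have hτS : τ.size ≤ S := size_le_lsize h.2
  have hS1 : 1 ≤ S := (Fm.size_pos τ).trans hτS
  have hi := iff_size_pos F
  obtain ⟨A, hA1, hA2, hA3⟩ := grow (F := F) S S τ (by omega)
    (hτS.trans (Nat.le_mul_of_pos_left _ hi))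
  set T := F.eqv A A with hT
  have hAT : A.size ≤ T.size := size_le_eqv_right _ _
  have hTA : T.size ≤ F.iff.size * A.size := size_eqv le_rfl le_rfl
  have hτT : τ.size ≤ T.size := hτS.trans (hA2.trans hAT)
  have hTτ : T.size ≤ (F.eqv τ T).size := size_le_eqv_right _ _
  have hvars : (F.eqv τ T).vars ⊆ τ.vars := by
    intro v hv
    rw [mem_vars_eqv, mem_vars_eqv] at hv
    rcases hv with h | h | h
    · exact h
    · exact hA1 h
    · exact hA1 h
  have hTded : Ded F (m0 * T.size) m0 ∅ {T} :=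
    (ded_refl A le_rfl ∅).mono (Nat.mul_le_mul (by omega) hAT) (by omega) (fun _ h => h)
      (fun _ h => h)
  refine ⟨F.eqv τ T, (hA2.trans hAT).trans hTτ, ?_, ?_, ?_⟩
  · have e1 : (F.eqv τ T).size ≤ F.iff.size * (F.iff.size * (F.iff.size * S)) :=
      (size_eqv hτT le_rfl).trans (Nat.mul_le_mul_left _ (hTA.trans (Nat.mul_le_mul_left _ hA3)))
    calc (F.eqv τ T).size ≤ F.iff.size * (F.iff.size * (F.iff.size * S)) := e1
      _ = F.iff.size * (F.iff.size * F.iff.size) * S := by ring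
      _ ≤ _ := Nat.mul_le_mul_right _ (by omega)
  · -- an extended Frege proof
    have h1 := schem (F := F) (Γ := [Fm.var 0, Fm.var 1])
      (φ := F.eqv (Fm.var 0) (Fm.var 1)) (by
        intro v hv
        rw [eval_eqv, hv _ List.mem_cons_self, hv _ (List.mem_cons_of_mem _ List.mem_cons_self)]
        rfl) (sub2 τ T) T.size (fun i => by unfold sub2; split; exacts [hτT, le_rfl])
    have h2 : Ded F (m0 * T.size) (m0 + k1) {τ} {F.eqv τ T} := by
      refine ((hTded.mono le_rfl le_rfl (Γ' := {τ}) (fun _ h => absurd h (by simp))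
        (fun _ h => h)).trans (h1.mono (Nat.mul_le_mul_right _ (by omega)) le_rfl
        (Γ' := {τ} ∪ {T}) ?_ (Δ' := {F.eqv τ T}) ?_)).mono le_rfl le_rfl (fun _ h => h)
        (fun _ h => Or.inr h)
      · rintro ψ ⟨p, hp, rfl⟩
        rcases List.mem_cons.1 hp with rfl | hp
        · left; simp [Fm.subst, sub2]
        · rw [List.mem_singleton] at hp
          subst hp
          right; simp [Fm.subst, sub2]
      · intro ψ hψ
        rw [Set.mem_singleton_iff] at hψ ⊢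
        rw [hψ, subst_eqv]
        simp [Fm.subst, sub2]
    obtain ⟨π₁, g1, g2, g3, g4⟩ := h2
    obtain ⟨π₂, e1, e2, e3, e4⟩ := (h.1.mono hvars).join (Γ := {τ}) (by
      intro ψ hψ
      rw [Set.mem_singleton_iff] at hψ
      rw [hψ]
      exact h.2) g1
    refine ⟨D, π₂, ⟨e1, e3 _ (g4 _ rfl)⟩, ?_⟩
    have e5 := lsize_le_mul g2 g3
    have e6 : (m0 + k1) * (m0 * T.size) ≤ (m0 + m0) * m0 * (F.eqv τ T).size := by
      rw [← Nat.mul_assoc]
      exact Nat.mul_le_mul (Nat.mul_le_mul_right _ (by omega)) hTτ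
    have e7 : lsize π ≤ (F.eqv τ T).size := (hA2.trans hAT).trans hTτ
    calc lsize π₂ ≤ lsize π + lsize π₁ := e4
      _ ≤ (F.eqv τ T).size + (m0 + m0) * m0 * (F.eqv τ T).size :=
          Nat.add_le_add e7 (e5.trans e6)
      _ = ((m0 + m0) * m0 + 1) * (F.eqv τ T).size := by ring
      _ ≤ _ := Nat.mul_le_mul_right _ (by omega)
  · intro π' hπ'
    have h1 := schem (F := F) (Γ := [F.eqv (Fm.var 0) (Fm.var 1), Fm.var 1])
      (φ := Fm.var 0) (by
        intro v hv
        have h2 := hv _ List.mem_cons_self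
        have h3 := hv _ (List.mem_cons_of_mem _ List.mem_cons_self)
        rw [eval_eqv, h3] at h2
        simpa using h2) (sub2 τ T) T.size (fun i => by unfold sub2; split; exacts [hτT, le_rfl])
    have h2 : Ded F (m0 * T.size) (m0 + k2) {F.eqv τ T} {τ} := by
      refine ((hTded.mono le_rfl le_rfl (Γ' := {F.eqv τ T}) (fun _ h => absurd h (by simp))
        (fun _ h => h)).trans (h1.mono (Nat.mul_le_mul_right _ (by omega)) le_rfl
        (Γ' := {F.eqv τ T} ∪ {T}) ?_ (Δ' := {τ}) ?_)).mono le_rfl le_rfl (fun _ h => h)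
        (fun _ h => Or.inr h)
      · rintro ψ ⟨p, hp, rfl⟩
        rcases List.mem_cons.1 hp with rfl | hp
        · left
          rw [Set.mem_singleton_iff, subst_eqv]
          simp [Fm.subst, sub2]
        · rw [List.mem_singleton] at hp
          subst hp
          right; simp [Fm.subst, sub2]
      · intro ψ hψ
        rw [Set.mem_singleton_iff] at hψ ⊢
        rw [hψ]
        simp [Fm.subst, sub2]
    obtain ⟨π₁, g1, g2, g3, g4⟩ := h2
    obtain ⟨π₂, e1, e2, e3, e4⟩ := Der.joinSize (Γ := {F.eqv τ T}) hπ'.1 (by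
      intro ψ hψ
      rw [Set.mem_singleton_iff] at hψ
      rw [hψ]
      exact hπ'.2) g1
    refine ⟨π₂, ⟨e1, e3 _ (g4 _ rfl)⟩, ?_⟩
    have e5 := lsize_le_mul g2 g3
    have e7 : (F.eqv τ T).size ≤ lsize π' := size_le_lsize hπ'.2
    have e6 : (m0 + k2) * (m0 * T.size) ≤ (m0 + m0) * m0 * lsize π' := by
      rw [← Nat.mul_assoc]
      exact Nat.mul_le_mul (Nat.mul_le_mul_right _ (by omega)) (hTτ.trans e7)
    calc lsize π₂ ≤ lsize π' + lsize π₁ := e4
      _ ≤ lsize π' + (m0 + m0) * m0 * lsize π' := Nat.add_le_add_left (e5.trans e6) _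
      _ = ((m0 + m0) * m0 + 1) * lsize π' := by ring
      _ ≤ _ := Nat.mul_le_mul_right _ (by omega)

theorem asympPad (c C : ℕ) (hc : 1 ≤ c) {ε : ℝ} (hε : 0 < ε) :
    ∀ᶠ x : ℕ in atTop, ∀ y : ℕ, y ≤ c * (x ^ C + C) →
      (c : ℝ) * 2 ^ ((y : ℝ) ^ (ε / (2 * (C + 1)))) ≤ 2 ^ ((x : ℝ) ^ ε) := by
  have h1 := (tendsto_rpow_atTop (show 0 < ε / 2 by linarith)).eventually
    (eventually_ge_atTop (Real.logb 2 c + 1))
  have h2 := tendsto_natCast_atTop_atTop (R := ℝ) |>.eventually h1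
  filter_upwards [h2, eventually_ge_atTop (c * (C + 1) + 1)] with x hx hxc y hy
  have hx1 : 1 ≤ x := by omega
  have hxr : (1 : ℝ) ≤ x := by exact_mod_cast hx1
  have hcr : (1 : ℝ) ≤ c := by exact_mod_cast hc
  have h3 : y ≤ x ^ (C + 1) := by
    have e1 : 1 ≤ x ^ C := Nat.one_le_pow _ _ (by omega)
    have e2 : C ≤ C * x ^ C := Nat.le_mul_of_pos_right _ e1
    calc y ≤ c * (x ^ C + C) := hy
      _ ≤ c * (x ^ C + C * x ^ C) := Nat.mul_le_mul_left _ (by omega)
      _ = c * (C + 1) * x ^ C := by ring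
      _ ≤ x * x ^ C := Nat.mul_le_mul_right _ (by omega)
      _ = x ^ (C + 1) := by ring
  have h4 : (y : ℝ) ^ (ε / (2 * (C + 1))) ≤ (x : ℝ) ^ (ε / 2) := by
    have e1 : (y : ℝ) ≤ (x : ℝ) ^ (C + 1) := by exact_mod_cast h3
    have e2 : (y : ℝ) ^ (ε / (2 * (C + 1))) ≤ ((x : ℝ) ^ (C + 1)) ^ (ε / (2 * (C + 1))) :=
      Real.rpow_le_rpow (by positivity) e1 (by positivity)
    refine e2.trans (le_of_eq ?_)
    rw [← Real.rpow_natCast, ← Real.rpow_mul (by positivity)]
    congr 1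
    push_cast
    field_simp
  set X := (x : ℝ) ^ (ε / 2) with hX
  have hX1 : 1 ≤ X := Real.one_le_rpow hxr (by linarith)
  have h5 : (x : ℝ) ^ ε = X * X := by
    rw [hX, ← Real.rpow_add (by linarith)]
    congr 1
    ring
  have hlogc : 0 ≤ Real.logb 2 c := Real.logb_nonneg (by norm_num) hcr
  have h6 : Real.logb 2 c + X ≤ X * X := by nlinarith
  calc (c : ℝ) * 2 ^ ((y : ℝ) ^ (ε / (2 * (C + 1)))) ≤ c * 2 ^ X :=
        mul_le_mul_of_nonneg_left (Real.rpow_le_rpow_of_exponent_le (by norm_num) h4)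
          (by positivity)
    _ = 2 ^ (Real.logb 2 c + X) := by
        rw [Real.rpow_add (by norm_num), Real.rpow_logb (by norm_num) (by norm_num)
          (by linarith)]
    _ ≤ 2 ^ ((x : ℝ) ^ ε) := by
        rw [h5]
        exact Real.rpow_le_rpow_of_exponent_le (by norm_num) h6

/-- the linear-size normal form of exponential separations -/
theorem linear_form (F : FregeSystem) :
    (∃ ε : ℝ, 0 < ε ∧ ∃ τ : ℕ → Fm F.B, Separates F τ ε) ↔
      ∃ ε : ℝ, 0 < ε ∧ ∃ τ : ℕ → Fm F.B, Separates F τ ε ∧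
        ∃ C : ℕ, ∀ n, ∃ D π, IsEProof F (τ n) D π ∧ lsize π ≤ C * (τ n).size := by
  constructor
  · rintro ⟨ε, hε, τ, hτ⟩
    obtain ⟨C, hC⟩ := hτ.upper
    choose D π hπ hsz using hC
    obtain ⟨c, hc1, hc⟩ := pad F
    choose τ' h1 h2 h3 h4 using fun n => hc (τ n) (D n) (π n) (hπ n)
    choose D' π' h5 h6 using h3
    obtain ⟨n₀, hn₀⟩ := eventually_atTop.1 (hτ.tend.eventually (asympPad c C hc1 hε))
    have hge : ∀ n, (τ n).size ≤ (τ' n).size := fun n => (size_le_lsize (hπ n).2).trans (h1 n)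
    refine ⟨ε / (2 * (C + 1)), by positivity, fun n => τ' (n + n₀), ⟨?_, ?_, ?_⟩, c, fun n =>
      ⟨D' (n + n₀), π' (n + n₀), h5 _, h6 _⟩⟩
    · exact (tendsto_atTop_mono hge hτ.tend).comp (tendsto_add_atTop_nat n₀)
    · refine ⟨c + 1, fun n => ⟨D' (n + n₀), π' (n + n₀), h5 _, (h6 _).trans ?_⟩⟩
      set x := (τ' (n + n₀)).size
      -- `c x ≤ x ^ (c + 1) + (c + 1)`
      rcases Nat.lt_or_ge x 2 with hx | hx
      · have : x ≤ 1 := by omega
        have : c * x ≤ c * 1 := Nat.mul_le_mul_left _ this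
        omega
      · have e1 : c ≤ x ^ c := (le_two_pow c).trans (Nat.pow_le_pow_left hx _)
        have e2 : c * x ≤ x ^ c * x := Nat.mul_le_mul_right _ e1
        rw [pow_succ]
        omega
    · intro n σ hσ
      obtain ⟨σ', h7, h8⟩ := h4 _ σ hσ
      have h9 := hτ.lower _ σ' h7
      have h10 := hn₀ (n + n₀) (by omega) (τ' (n + n₀)).size
        ((h2 _).trans (Nat.mul_le_mul_left _ (hsz _)))
      have h11 : (lsize σ' : ℝ) ≤ c * lsize σ := by exact_mod_cast h8
      have hcr : (0 : ℝ) < c := by exact_mod_cast hc1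
      exact le_of_mul_le_mul_left ((h10.trans h9).trans h11) hcr
  · rintro ⟨ε, hε, τ, hτ, _⟩
    exact ⟨ε, hε, τ, hτ⟩

end Pool.Agent.T9h49.FE
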