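import Pool.Agent.T9h49.FE.Calc

/-!
Extended Frege proofs whose definitions can be evaluated with few registers.
-/

set_option autoImplicit false

namespace Pool.Agent.T9h49.FE

variable {F : FregeSystem}

theorem iff_size_one (F : FregeSystem) : 1 ≤ F.iff.size := Fm.size_pos _

/-- A straight-line program with `w` registers and `T` instructions which evaluates the definitions
`D`: instruction `i` evaluates the definition `ins i` and stores the value in the register `reg i`.
Definitions may be evaluated several times. Every definition is evaluated at least once, and every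
extension variable used by instruction `i` is stored at that time: it was computed by an earlier
instruction `j` whose register has not been overwritten since. -/
structure Program {B : Basis} (D : List (ℕ × Fm B)) (w T : ℕ) (ins : ℕ → ℕ × Fm B)
    (reg : ℕ → Fin w) : Prop where
  mem : ∀ i, i < T → ins i ∈ D
  all : ∀ p ∈ D, ∃ i, i < T ∧ ins i = p
  stored : ∀ i, i < T → ∀ v ∈ (ins i).2.vars, v ∈ D.map Prod.fst →
    ∃ j, j < i ∧ (ins j).1 = v ∧ ∀ k, j < k → k < i → reg k ≠ reg j

section

variable {w : ℕ} (reg : ℕ → Fin w) (loc : ℕ → ℕ → Fin w) (dom : ℕ → Prop)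
  (ins : ℕ → ℕ × Fm F.B)

open Classical in
/-- replace the stored variables by the contents of their registers at time `i` -/
noncomputable def plug (i : ℕ) (y : Fin w → Fm F.B) (v : ℕ) : Fm F.B :=
  if dom v then y (loc i v) else Fm.var v

/-- the contents of the registers after the instruction number `i` -/
noncomputable def stp (i : ℕ) (y : Fin w → Fm F.B) (r : Fin w) : Fm F.B :=
  if r = reg i then (ins i).2.subst (plug loc dom i y) else y r

/-- the contents of the registers when the instructions number `u, ..., i - 1` of the block of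
length `2 ^ n` are executed with the initial contents `b` -/
noncomputable def P : ℕ → ℕ → ℕ → (Fin w → Bool) → Fin w → Fm F.B
  | 0, u, i, b, r => if i ≤ u then cst F (b r) else stp reg loc dom ins u (fun j => cst F (b j)) r
  | n + 1, u, i, b, r =>
      if i ≤ u + 2 ^ n then P n u i b r
      else mux w (P n u (u + 2 ^ n) b) (fun c => P n (u + 2 ^ n) i c r)

theorem P_start (n : ℕ) : ∀ (u i : ℕ) (b : Fin w → Bool) (r : Fin w), i ≤ u →
    P reg loc dom ins n u i b r = cst F (b r) := by
  induction n with
  | zero => intro u i b r h; rw [P, if_pos h]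
  | succ n ih =>
    intro u i b r h
    rw [P, if_pos (h.trans (Nat.le_add_right _ _))]
    exact ih u i b r h

variable {s : ℕ}

/-- bound for the sizes -/
noncomputable def SS (F : FregeSystem) (w s n : ℕ) : ℕ := (kIte F ^ w) ^ n * (c0 F * s)

theorem SS_succ (F : FregeSystem) (w s n : ℕ) : SS F w s (n + 1) = kIte F ^ w * SS F w s n := by
  unfold SS
  rw [pow_succ]
  ring

theorem SS_mono (F : FregeSystem) (w s n : ℕ) : SS F w s n ≤ SS F w s (n + 1) := by
  rw [SS_succ]
  exact Nat.le_mul_of_pos_left _ (Nat.pow_pos (kIte_pos F))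

theorem c0_le_SS (F : FregeSystem) (w n : ℕ) (hs : 1 ≤ s) : c0 F ≤ SS F w s n := by
  unfold SS
  have h1 : 1 ≤ (kIte F ^ w) ^ n := Nat.pow_pos (Nat.pow_pos (kIte_pos F))
  exact (Nat.le_mul_of_pos_right _ hs).trans (Nat.le_mul_of_pos_left _ h1)

theorem SS_pos (F : FregeSystem) (w n : ℕ) (hs : 1 ≤ s) : 1 ≤ SS F w s n :=
  (c0_pos F).trans (c0_le_SS F w n hs)

theorem size_plug {y : Fin w → Fm F.B} {m : ℕ} (hm : 1 ≤ m) (hy : ∀ j, (y j).size ≤ m)
    (i v : ℕ) : (plug loc dom i y v).size ≤ m := by
  unfold plug
  split
  · exact hy _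
  · exact hm

theorem size_stp (hs : 1 ≤ s) (hins : ∀ i, (ins i).2.size ≤ s) {y : Fin w → Fm F.B} {m : ℕ}
    (hm : 1 ≤ m) (hy : ∀ j, (y j).size ≤ m) (i : ℕ) (r : Fin w) :
    (stp reg loc dom ins i y r).size ≤ s * m := by
  unfold stp
  split
  · exact (Fm.size_subst_le hm fun v _ => size_plug loc dom hm hy i v).trans
      (Nat.mul_le_mul_right _ (hins i))
  · exact (hy r).trans (Nat.le_mul_of_pos_left _ hs)

theorem size_P (hs : 1 ≤ s) (hins : ∀ i, (ins i).2.size ≤ s) (n : ℕ) :
    ∀ (u i : ℕ) (b : Fin w → Bool) (r : Fin w), (P reg loc dom ins n u i b r).size ≤ SS F w s n := by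
  induction n with
  | zero =>
    intro u i b r
    rw [P]
    have h0 : SS F w s 0 = s * c0 F := by
      unfold SS
      ring
    split
    · exact (size_ct _).trans (c0_le_SS F w 0 hs)
    · rw [h0]
      exact size_stp reg loc dom ins hs hins (c0_pos F) (fun j => size_ct _) u r
  | succ n ih =>
    intro u i b r
    rw [P]
    split
    · exact (ih u i b r).trans (SS_mono F w s n)
    · rw [SS_succ]
      exact size_mux (fun j => ih _ _ _ _) (fun c => ih _ _ _ _)

/-- constants -/
noncomputable def kM (F : FregeSystem) : ℕ :=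
  kSel F + F.iff.size * c0 F + kSym F + kTrans F + kCong F + kRefl F + F.iff.size

noncomputable def kX (F : FregeSystem) (w s : ℕ) : ℕ :=
  s * ((w + 1) * (kSel F + 1) + kCong F) + ((w + 1) * (kSel F + 1) + kSym F) + 2 * kTrans F +
    kRefl F + 1

/-- one step -/
theorem step (hs : 1 ≤ s) (hins : ∀ i, (ins i).2.size ≤ s) (n : ℕ) :
    ∀ (u i : ℕ) (b : Fin w → Bool) (r : Fin w), u ≤ i → i < u + 2 ^ n →
    Ded F ((cT F ^ w) ^ n * (kM F * (s * SS F w s n))) ((cT F ^ w) ^ n * ((n + 1) * kX F w s)) ∅
      {F.eqv (P reg loc dom ins n u (i + 1) b r)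
        (stp reg loc dom ins i (P reg loc dom ins n u i b) r)} := by
  induction n with
  | zero =>
    intro u i b r h1 h2
    have hiu : i = u := by omega
    subst hiu
    have e1 : P reg loc dom ins 0 i (i + 1) b r = stp reg loc dom ins i (fun j => cst F (b j)) r := by
      rw [P, if_neg (by omega)]
    have e2 : P reg loc dom ins 0 i i b = fun j => cst F (b j) := by
      funext j
      exact P_start reg loc dom ins 0 i i b j le_rfl
    rw [e1, e2]
    have hsz : (stp reg loc dom ins i (fun j => cst F (b j)) r).size ≤ s * SS F w s 0 :=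
      size_stp reg loc dom ins hs hins (SS_pos F w 0 hs) (fun j => (size_ct _).trans
        (c0_le_SS F w 0 hs)) i r
    refine (ded_refl _ hsz _).mono ?_ ?_ (fun _ h => h) (fun _ h => h)
    · rw [pow_zero, one_mul]
      exact Nat.mul_le_mul_right _ (by unfold kM; omega)
    · rw [pow_zero, one_mul, Nat.zero_add, one_mul]
      unfold kX
      omega
  | succ n ih =>
    intro u i b r h1 h2
    have hT : 1 ≤ (cT F ^ w) := Nat.pow_pos (cT_pos F)
    have hTn : 1 ≤ (cT F ^ w) ^ n := Nat.pow_pos hT
    by_cases hi : i + 1 ≤ u + 2 ^ n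
    · have e1 : P reg loc dom ins (n + 1) u (i + 1) b r = P reg loc dom ins n u (i + 1) b r := by
        rw [P, if_pos hi]
      have e2 : P reg loc dom ins (n + 1) u i b = P reg loc dom ins n u i b := by
        funext j
        rw [P, if_pos (by omega)]
      rw [e1, e2]
      refine (ih u i b r h1 (by omega)).mono ?_ ?_ (fun _ h => h) (fun _ h => h)
      · refine Nat.mul_le_mul (Nat.pow_le_pow_right hT (by omega)) (Nat.mul_le_mul_left _
          (Nat.mul_le_mul_left _ (SS_mono F w s n)))
      · exact Nat.mul_le_mul (Nat.pow_le_pow_right hT (by omega))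
          (Nat.mul_le_mul_right _ (by omega))
    · have hmid : u + 2 ^ n ≤ i := by omega
      have hlt : i < u + 2 ^ n + 2 ^ n := by
        rw [pow_succ] at h2
        omega
      set mid := u + 2 ^ n with hmiddef
      set y : Fin w → Fm F.B := P reg loc dom ins n u mid b with hy
      have e1 : P reg loc dom ins (n + 1) u (i + 1) b r =
          mux w y (fun c => P reg loc dom ins n mid (i + 1) c r) := by
        rw [P, if_neg hi]
      -- sizes
      set S := SS F w s n with hS
      set S' := SS F w s (n + 1) with hS'
      have hSS : S ≤ S' := SS_mono F w s n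
      have hS1 : 1 ≤ S := SS_pos F w n hs
      have hS1' : 1 ≤ S' := SS_pos F w (n + 1) hs
      have hsS : S' ≤ s * S' := Nat.le_mul_of_pos_left _ hs
      set m := (cT F ^ w) ^ n * (kM F * (s * S')) with hm
      have hmk : ∀ x, x ≤ kM F → x * (s * S') ≤ m := fun x hx =>
        (Nat.mul_le_mul_right _ hx).trans (Nat.le_mul_of_pos_left _ hTn)
      have hmk' : ∀ x, x ≤ kM F → x * S' ≤ m := fun x hx =>
        (Nat.mul_le_mul_left _ hsS).trans (hmk x hx)
      have hysz : ∀ j, (y j).size ≤ S := fun j => size_P reg loc dom ins hs hins n u mid b j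
      have hPsz : ∀ i c j, (P reg loc dom ins n mid i c j).size ≤ S := fun i c j =>
        size_P reg loc dom ins hs hins n mid i c j
      have hP'sz : ∀ i j, (P reg loc dom ins (n + 1) u i b j).size ≤ S' := fun i j =>
        size_P reg loc dom ins hs hins (n + 1) u i b j
      have hstp' : (stp reg loc dom ins i (P reg loc dom ins (n + 1) u i b) r).size ≤ s * S' :=
        size_stp reg loc dom ins hs hins hS1' (fun j => hP'sz i j) i r
      have hmux : (kSel F + F.iff.size * c0 F) * (kIte F ^ w * S) ≤ m := by
        rw [hS, ← SS_succ]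
        exact hmk' _ (by unfold kM; omega)
      -- the contents under the assumption that the values at the middle are `c`
      have hcont : ∀ (c : Fin w → Bool) (j : Fin w), Ded F m ((w + 1) * (kSel F + 1))
          {ψ | ∃ j, ψ = F.eqv (cst F (c j)) (y j)}
          {F.eqv (P reg loc dom ins n mid i c j) (P reg loc dom ins (n + 1) u i b j)} := by
        intro c j
        rcases Nat.lt_or_ge mid i with hlt' | hge
        · have e3 : P reg loc dom ins (n + 1) u i b j =
              mux w y (fun c => P reg loc dom ins n mid i c j) := by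
            rw [P, if_neg (by omega)]
          rw [e3]
          exact ded_mux (F := F) hysz (fun c => hPsz i c j) c hmux
        · have hie : i = mid := by omega
          have e3 : P reg loc dom ins (n + 1) u i b j = y j := by
            rw [P, if_pos (by omega), hie]
          have e4 : P reg loc dom ins n mid i c j = cst F (c j) :=
            P_start reg loc dom ins n mid i c j (by omega)
          rw [e3, e4]
          have hmem : F.eqv (cst F (c j)) (y j) ∈ {ψ | ∃ j, ψ = F.eqv (cst F (c j)) (y j)} :=
            ⟨j, rfl⟩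
          refine (Ded.of_mem hmem ?_).mono le_rfl (Nat.mul_pos (by omega) (by omega))
            (fun _ h => h) (fun _ h => h)
          have h5 : (F.eqv (cst F (c j)) (y j)).size ≤ F.iff.size * S' :=
            size_eqv ((size_ct _).trans (c0_le_SS F w (n + 1) hs)) ((hysz j).trans hSS)
          exact h5.trans (hmk' _ (by unfold kM; omega))
      have hin : ∀ c : Fin w → Bool, Ded F m ((cT F ^ w) ^ n * ((n + 1) * kX F w s) + kX F w s)
          (∅ ∪ {ψ | ∃ j, ψ = F.eqv (cst F (c j)) (y j)})
          {F.eqv (P reg loc dom ins (n + 1) u (i + 1) b r)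
            (stp reg loc dom ins i (P reg loc dom ins (n + 1) u i b) r)} := by
        intro c
        rw [Set.empty_union, e1]
        -- (a)
        have a1 := (ded_mux (F := F) (y := y) (Z := fun c => P reg loc dom ins n mid (i + 1) c r)
          (s := S) (m := m) hysz (fun c => hPsz (i + 1) c r) c hmux).sym (s := S')
          ((hPsz _ _ _).trans hSS) (by rw [← e1]; exact hP'sz _ _)
          (hmk' _ (by unfold kM; omega))
        -- (b)
        have a2 : Ded F m ((cT F ^ w) ^ n * ((n + 1) * kX F w s))
            {ψ | ∃ j, ψ = F.eqv (cst F (c j)) (y j)}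
            {F.eqv (P reg loc dom ins n mid (i + 1) c r)
              (stp reg loc dom ins i (P reg loc dom ins n mid i c) r)} :=
          (ih mid i c r hmid hlt).mono (Nat.mul_le_mul_left _ (Nat.mul_le_mul_left _
            (Nat.mul_le_mul_left _ hSS))) le_rfl (fun _ h => absurd h (by simp)) (fun _ h => h)
        -- (c)
        have hstpc : (stp reg loc dom ins i (P reg loc dom ins n mid i c) r).size ≤ s * S' :=
          (size_stp reg loc dom ins hs hins hS1 (fun j => hPsz i c j) i r).trans
            (Nat.mul_le_mul_left _ hSS)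
        have a3 : Ded F m (s * ((w + 1) * (kSel F + 1) + kCong F))
            {ψ | ∃ j, ψ = F.eqv (cst F (c j)) (y j)}
            {F.eqv (stp reg loc dom ins i (P reg loc dom ins n mid i c) r)
              (stp reg loc dom ins i (P reg loc dom ins (n + 1) u i b) r)} := by
          by_cases hr : r = reg i
          · have e5 : ∀ y, stp reg loc dom ins i y r = (ins i).2.subst (plug loc dom i y) := by
              intro y
              rw [stp, if_pos hr]
            rw [e5] at hstpc hstp'
            rw [e5, e5]
            refine (ded_cong (F := F) (s := s * S') (n := (w + 1) * (kSel F + 1)) (by nlinarith)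
              (ins i).2 (fun v _ => ?_) hstpc hstp' (hmk _ (by unfold kM; omega))).mono le_rfl
              (Nat.mul_le_mul_right _ (hins i)) (fun _ h => h) (fun _ h => h)
            unfold plug
            by_cases hv : dom v
            · rw [if_pos hv, if_pos hv]
              exact hcont c (loc i v)
            · rw [if_neg hv, if_neg hv]
              refine (ded_refl (Fm.var v) (m := S') hS1' _).mono
                (hmk' _ (by unfold kM; omega)) ?_ (fun _ h => h) (fun _ h => h)
              have : kRefl F ≤ kSel F := by unfold kSel; omega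
              nlinarith
          · have e5 : ∀ y, stp reg loc dom ins i y r = y r := by
              intro y
              rw [stp, if_neg hr]
            rw [e5, e5]
            exact (hcont c r).mono le_rfl ((Nat.le_add_right _ _).trans
              (Nat.le_mul_of_pos_left _ hs)) (fun _ h => h) (fun _ h => h)
        have a4 := (a1.eqTrans a2 (s := s * S') (by rw [← e1]; exact (hP'sz _ _).trans hsS)
          (((hPsz _ _ _).trans hSS).trans hsS) hstpc (hmk _ (by unfold kM; omega))).eqTrans a3
          (s := s * S') (by rw [← e1]; exact (hP'sz _ _).trans hsS) hstpc hstp'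
          (hmk _ (by unfold kM; omega))
        refine a4.mono le_rfl ?_ (fun _ h => h) (fun _ h => h)
        unfold kX
        omega
      have hA : (F.eqv (P reg loc dom ins (n + 1) u (i + 1) b r)
            (stp reg loc dom ins i (P reg loc dom ins (n + 1) u i b) r)).size ≤ m :=
        (size_eqv ((hP'sz _ _).trans hsS) hstp').trans (hmk _ (by unfold kM; omega))
      have hX1 : 1 ≤ kX F w s := by unfold kX; omega
      have hfin := Ded.casesAll (F := F) (Γ := ∅) (y := y) (m := m)
        (n := (cT F ^ w) ^ n * ((n + 1) * kX F w s) + kX F w s) hin (fun b' j => by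
          have h5 : (F.eqv (cst F b') (y j)).size ≤ F.iff.size * S' :=
            size_eqv ((size_ct _).trans (c0_le_SS F w (n + 1) hs)) ((hysz j).trans hSS)
          exact h5.trans (hmk' _ (by unfold kM; omega))) hA (by omega)
      refine hfin.mono (le_of_eq ?_) ?_ (fun _ h => h) (fun _ h => h)
      · rw [hm, pow_succ]
        ring
      · rw [pow_succ]
        have h6 : kX F w s ≤ (cT F ^ w) ^ n * kX F w s := Nat.le_mul_of_pos_left _ hTn
        calc cT F ^ w * ((cT F ^ w) ^ n * ((n + 1) * kX F w s) + kX F w s)
            ≤ cT F ^ w * ((cT F ^ w) ^ n * ((n + 1) * kX F w s) + (cT F ^ w) ^ n * kX F w s) :=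
              Nat.mul_le_mul_left _ (Nat.add_le_add_left h6 _)
          _ = (cT F ^ w) ^ n * cT F ^ w * ((n + 1 + 1) * kX F w s) := by ring

/-- bounds for the size of a line and the number of lines of a step -/
noncomputable def MM (F : FregeSystem) (w s N : ℕ) : ℕ := (cT F ^ w) ^ N * (kM F * (s * SS F w s N))

noncomputable def LL (F : FregeSystem) (w s N : ℕ) : ℕ := (cT F ^ w) ^ N * ((N + 1) * kX F w s)

theorem le_MM (hs : 1 ≤ s) {N x : ℕ} (hx : x ≤ kM F) : x * (s * SS F w s N) ≤ MM F w s N :=
  (Nat.mul_le_mul_right _ hx).trans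
    (Nat.le_mul_of_pos_left _ (Nat.pow_pos (Nat.pow_pos (cT_pos F))))

/-- a register which is not overwritten keeps its contents -/
theorem chain (hs : 1 ≤ s) (hins : ∀ i, (ins i).2.size ≤ s) (N : ℕ) (b : Fin w → Bool)
    (r : Fin w) (k : ℕ) : ∀ i, k + 1 ≤ i → i ≤ 2 ^ N →
    (∀ j, k < j → j < i → r ≠ reg j) →
    Ded F (MM F w s N) (i * (LL F w s N + kTrans F) + kRefl F) ∅
      {F.eqv (P reg loc dom ins N 0 i b r) (P reg loc dom ins N 0 (k + 1) b r)} := by
  have hSsz : ∀ i, (P reg loc dom ins N 0 i b r).size ≤ s * SS F w s N := fun i =>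
    (size_P reg loc dom ins hs hins N 0 i b r).trans (Nat.le_mul_of_pos_left _ hs)
  intro i hi
  induction i, hi using Nat.le_induction with
  | base =>
    intro _ _
    exact (ded_refl _ (hSsz _) _).mono (le_MM hs (by unfold kM; omega)) (Nat.le_add_left _ _)
      (fun _ h => h) (fun _ h => h)
  | succ i hi ih =>
    intro h1 h2
    have h3 := ih (by omega) (fun j hj1 hj2 => h2 j hj1 (by omega))
    have h4 := step reg loc dom ins hs hins N 0 i b r (Nat.zero_le _) (by omega)
    rw [stp, if_neg (h2 i (by omega) (by omega))] at h4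
    refine (Ded.eqTrans h4 h3 (hSsz _) (hSsz _) (hSsz _)
      (le_MM hs (by unfold kM; omega))).mono le_rfl ?_ (fun _ h => h) (fun _ h => h)
    change LL F w s N + (i * (LL F w s N + kTrans F) + kRefl F) + kTrans F ≤ _
    ring_nf
    exact le_rfl

end

end Pool.Agent.T9h49.FE
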