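import Pool.Agent.T9h49.FE.Valiant

/-!
Frege proofs of size `2 ^ O(s log log s / log s)` from extended Frege proofs of size `s`.
-/

set_option autoImplicit false

namespace Pool.Agent.T9h49.FE

theorem small_log {P : ℕ} (h : P < 4 * (Nat.log 2 P + 1)) : P < 20 := by
  by_contra hP
  rw [not_lt] at hP
  have h1 : 2 ^ Nat.log 2 P ≤ P := Nat.pow_log_le_self 2 (by omega)
  have h2 : ∀ L : ℕ, 5 ≤ L → 4 * (L + 1) ≤ 2 ^ L := by
    intro L hL
    induction L, hL using Nat.le_induction with
    | base => norm_num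
    | succ L hL ih => rw [pow_succ]; omega
  rcases Nat.lt_or_ge (Nat.log 2 P) 5 with h3 | h3
  · omega
  · have := h2 _ h3
    omega

theorem subexp_nat (F : FregeSystem) : ∃ c : ℕ, ∀ (τ : Fm F.B) (D : List (ℕ × Fm F.B))
    (π : List (Fm F.B)), IsEProof F τ D π →
    ∃ π' e, IsProof F τ π' ∧ lsize π' ≤ 2 ^ e ∧
      e * (Nat.log 2 (lsize π) + 1) ≤
        c * (Nat.log 2 (Nat.log 2 (lsize π) + 1) + 1) * lsize π := by
  obtain ⟨c, hc⟩ := of_reducible F
  refine ⟨1140 * c, fun τ D π h => ?_⟩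
  set s := lsize π with hs
  have hs1 : 1 ≤ s := (Fm.size_pos τ).trans (size_le_lsize h.2)
  set P := Nat.log 2 s + 1 with hP
  set r := Nat.log 2 P + 1 with hr
  have hP1 : s < 2 ^ P := Nat.lt_pow_succ_log_self (by norm_num) s
  have hP2 : 2 ^ P ≤ 2 * s := by
    rw [hP, pow_succ]
    have := Nat.pow_log_le_self 2 (show s ≠ 0 by omega)
    omega
  have hr1 : P < 2 ^ r := Nat.lt_pow_succ_log_self (by norm_num) P
  have hsP : s + 2 ≤ 2 ^ (P + 1) := by
    rw [pow_succ]
    omega
  have hcost : ∀ (K d : ℕ), 2 ^ (c * K) * (s + 2) ^ (c * (d + 1)) ≤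
      2 ^ (c * K + (P + 1) * (c * (d + 1))) := by
    intro K d
    rw [pow_add, pow_mul 2 (P + 1)]
    exact Nat.mul_le_mul_left _ (Nat.pow_le_pow_left hsP _)
  rcases Nat.lt_or_ge P (4 * r) with h4 | h4
  · -- small proofs
    have h5 : P < 20 := small_log h4
    obtain ⟨K, h6, h7⟩ := exists_reducible h.1 hP1 (Nat.zero_le P)
    obtain ⟨π', h8, h9⟩ := hc _ _ _ h K _ h7
    refine ⟨π', _, h8, h9.trans (hcost _ _), ?_⟩
    have hK : K.card = 0 := by
      rw [Nat.zero_mul] at h6
      rcases Nat.mul_eq_zero.1 (Nat.le_zero.1 h6) with h | h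
      · exact h
      · omega
    rw [hK, Nat.sub_zero, Nat.mul_zero, Nat.zero_add]
    have e1 : (P + 1) * P ≤ 20 * 19 := Nat.mul_le_mul (by omega) (by omega)
    have e2 : 2 ^ P + 1 ≤ 3 * s := by omega
    calc (P + 1) * (c * (2 ^ P + 1)) * P = c * ((P + 1) * P * (2 ^ P + 1)) := by ring
      _ ≤ c * (20 * 19 * (3 * s)) := Nat.mul_le_mul_left _ (Nat.mul_le_mul e1 e2)
      _ = 1140 * c * 1 * s := by ring
      _ ≤ 1140 * c * r * s := Nat.mul_le_mul_right _ (Nat.mul_le_mul_left _ (by omega))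
  · obtain ⟨K, h6, h7⟩ := exists_reducible h.1 hP1 (show 2 * r ≤ P by omega)
    obtain ⟨π', h8, h9⟩ := hc _ _ _ h K _ h7
    refine ⟨π', _, h8, h9.trans (hcost _ _), ?_⟩
    set k := K.card
    set d := 2 ^ (P - 2 * r) with hd
    have hd1 : 1 ≤ d := Nat.one_le_two_pow
    have e1 : k * P ≤ 4 * r * s := by
      have e2 : k * P ≤ k * (2 * (P - 2 * r + 1)) := Nat.mul_le_mul_left _ (by omega)
      nlinarith
    have e3 : d * (P * P) ≤ 2 * s := by
      have e4 : P * P ≤ 2 ^ (2 * r) := by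
        rw [Nat.two_mul, pow_add]
        exact Nat.mul_le_mul hr1.le hr1.le
      calc d * (P * P) ≤ d * 2 ^ (2 * r) := Nat.mul_le_mul_left _ e4
        _ = 2 ^ P := by rw [hd, ← pow_add]; congr 1; omega
        _ ≤ 2 * s := hP2
    have e5 : (P + 1) * P * (d + 1) ≤ 8 * s := by
      have e6 : (P + 1) * P ≤ 2 * (P * P) := by
        have : 1 ≤ P := by omega
        nlinarith
      calc (P + 1) * P * (d + 1) ≤ 2 * (P * P) * (2 * d) := Nat.mul_le_mul e6 (by omega)
        _ = 4 * (d * (P * P)) := by ring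
        _ ≤ 8 * s := by omega
    calc (c * k + (P + 1) * (c * (d + 1))) * P = c * (k * P + (P + 1) * P * (d + 1)) := by ring
      _ ≤ c * (4 * r * s + 8 * s) := Nat.mul_le_mul_left _ (Nat.add_le_add e1 e5)
      _ ≤ c * (4 * r * s + 8 * r * s) := by
          refine Nat.mul_le_mul_left _ (Nat.add_le_add_left ?_ _)
          have : 1 ≤ r := by omega
          nlinarith
      _ ≤ 1140 * c * r * s := by
          have : 0 ≤ c * r * s := Nat.zero_le _
          nlinarith

/-- extended Frege proofs of size `s` give Frege proofs of size `2 ^ O(s log log s / log s)` -/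
theorem subexp (F : FregeSystem) : ∃ c : ℝ, ∀ (τ : Fm F.B) (D : List (ℕ × Fm F.B))
    (π : List (Fm F.B)), IsEProof F τ D π → 16 ≤ lsize π →
    ∃ π', IsProof F τ π' ∧ (lsize π' : ℝ) ≤
      2 ^ (c * (lsize π * Real.log (Real.log (lsize π)) / Real.log (lsize π))) := by
  obtain ⟨c, hc⟩ := subexp_nat F
  refine ⟨6 * c, fun τ D π h hs => ?_⟩
  obtain ⟨π', e, h1, h2, h3⟩ := hc _ _ _ h
  refine ⟨π', h1, ?_⟩
  set s := lsize π with hsdef
  set P := Nat.log 2 s + 1 with hP
  set r := Nat.log 2 P + 1 with hr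
  have hsr : (16 : ℝ) ≤ s := by exact_mod_cast hs
  have hl2 : 0 < Real.log 2 := Real.log_pos (by norm_num)
  have hl2' : (0.6931471803 : ℝ) < Real.log 2 := Real.log_two_gt_d9
  have hl2'' : Real.log 2 < 0.6931471808 := Real.log_two_lt_d9
  -- logarithms of `s`
  have hlog16 : 4 * Real.log 2 ≤ Real.log s := by
    have : Real.log 16 = 4 * Real.log 2 := by
      rw [show (16 : ℝ) = 2 ^ 4 by norm_num, Real.log_pow]
      norm_num
    rw [← this]
    exact Real.log_le_log (by norm_num) hsr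
  have hlogpos : 0 < Real.log s := by linarith
  have hll : 1 ≤ Real.log (Real.log s) := by
    rw [Real.le_log_iff_exp_le hlogpos]
    have := Real.exp_one_lt_d9
    linarith
  -- bounds for `P` and `r`
  have hPlow : Real.log s ≤ P * Real.log 2 := by
    have h4 : s < 2 ^ P := Nat.lt_pow_succ_log_self (by norm_num) s
    have h5 : (s : ℝ) ≤ 2 ^ P := by exact_mod_cast h4.le
    have h6 := Real.log_le_log (by positivity) h5
    rwa [Real.log_pow] at h6
  have hPup : (P : ℝ) * Real.log 2 ≤ 2 * Real.log s := by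
    have h4 : 2 ^ Nat.log 2 s ≤ s := Nat.pow_log_le_self 2 (by omega)
    have h5 : ((2 : ℝ) ^ Nat.log 2 s) ≤ s := by exact_mod_cast h4
    have h6 := Real.log_le_log (by positivity) h5
    rw [Real.log_pow] at h6
    rw [hP]
    push_cast
    linarith
  have hPpos : (0 : ℝ) < P := by
    rw [hP]
    positivity
  have hrup : (r : ℝ) ≤ 6 * Real.log (Real.log s) := by
    have h4 : 2 ^ Nat.log 2 P ≤ P := Nat.pow_log_le_self 2 (by omega)
    have h5 : ((2 : ℝ) ^ Nat.log 2 P) ≤ P := by exact_mod_cast h4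
    have h6 := Real.log_le_log (by positivity) h5
    rw [Real.log_pow] at h6
    have h7 : (P : ℝ) ≤ Real.log s * 4 := by
      have : (P : ℝ) * Real.log 2 ≤ (Real.log s * 4) * Real.log 2 := by nlinarith
      exact le_of_mul_le_mul_right this hl2
    have h8 : Real.log P ≤ Real.log (Real.log s) + 2 * Real.log 2 := by
      have h9 := Real.log_le_log hPpos h7
      rw [Real.log_mul hlogpos.ne' (by norm_num)] at h9
      have h10 : Real.log 4 = 2 * Real.log 2 := by
        rw [show (4 : ℝ) = 2 ^ 2 by norm_num, Real.log_pow]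
        norm_num
      linarith
    have h11 : ((Nat.log 2 P : ℕ) : ℝ) * Real.log 2 ≤
        (Real.log (Real.log s) * 2 + 2) * Real.log 2 := by nlinarith
    have h12 := le_of_mul_le_mul_right h11 hl2
    rw [hr]
    push_cast
    linarith
  -- the exponent
  have h13 : (e : ℝ) * P ≤ c * r * s := by exact_mod_cast h3
  have h14 : (e : ℝ) ≤ 6 * c * (s * Real.log (Real.log s) / Real.log s) := by
    have h15 : (e : ℝ) ≤ c * r * s / P := by
      rw [le_div_iff₀ hPpos]
      exact h13
    refine h15.trans ?_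
    rw [div_le_iff₀ hPpos]
    have h16 : (c : ℝ) * r * s ≤ c * (6 * Real.log (Real.log s)) * s := by
      have : (c : ℝ) * r ≤ c * (6 * Real.log (Real.log s)) :=
        mul_le_mul_of_nonneg_left hrup (Nat.cast_nonneg _)
      exact mul_le_mul_of_nonneg_right this (Nat.cast_nonneg _)
    refine h16.trans ?_
    have h17 : (1 : ℝ) ≤ P / Real.log s := by
      rw [le_div_iff₀ hlogpos, one_mul]
      have : (P : ℝ) * Real.log 2 ≤ P * 1 := mul_le_mul_of_nonneg_left (by linarith) hPpos.le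
      linarith
    have h18 : 0 ≤ (c : ℝ) * (6 * Real.log (Real.log s)) * s := by positivity
    calc (c : ℝ) * (6 * Real.log (Real.log s)) * s
        ≤ (c * (6 * Real.log (Real.log s)) * s) * (P / Real.log s) := le_mul_of_one_le_right h18 h17
      _ = 6 * c * (s * Real.log (Real.log s) / Real.log s) * P := by ring
  have h19 : (lsize π' : ℝ) ≤ (2 : ℝ) ^ e := by exact_mod_cast h2
  refine h19.trans ?_
  rw [← Real.rpow_natCast]
  exact Real.rpow_le_rpow_of_exponent_le (by norm_num) h14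

end Pool.Agent.T9h49.FE
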