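import Pool.Agent.T9h49.FE.Depth

/-!
Valiant's depth reduction for the graph of the definitions.
-/

set_option autoImplicit false

namespace Pool.Agent.T9h49.FE

/-- the number without its digit number `t` -/
def delBit (t x : ℕ) : ℕ := x / 2 ^ (t + 1) * 2 ^ t + x % 2 ^ t

theorem delBit_lt {t P x : ℕ} (ht : t < P + 1) (hx : x < 2 ^ (P + 1)) : delBit t x < 2 ^ P := by
  unfold delBit
  have h1 : x / 2 ^ (t + 1) < 2 ^ (P - t) := by
    rw [Nat.div_lt_iff_lt_mul (by positivity), ← pow_add]
    have e : P - t + (t + 1) = P + 1 := by omega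
    rw [e]
    exact hx
  have h2 : x % 2 ^ t < 2 ^ t := Nat.mod_lt _ (by positivity)
  have h3 : 2 ^ P = 2 ^ (P - t) * 2 ^ t := by
    rw [← pow_add]
    congr 1
    omega
  rw [h3]
  have h4 : (x / 2 ^ (t + 1) + 1) * 2 ^ t ≤ 2 ^ (P - t) * 2 ^ t := Nat.mul_le_mul_right _ h1
  rw [add_mul, one_mul] at h4
  omega

/-- the leading digit where two numbers differ -/
def topDiff (t x y : ℕ) : Prop := x / 2 ^ (t + 1) = y / 2 ^ (t + 1) ∧ x / 2 ^ t < y / 2 ^ t

theorem exists_topDiff {P x y : ℕ} (h : x < y) (hy : y < 2 ^ P) : ∃ t, t < P ∧ topDiff t x y := by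
  classical
  have hex : ∃ t, x / 2 ^ t = y / 2 ^ t := ⟨P, by
    rw [Nat.div_eq_of_lt (h.trans hy), Nat.div_eq_of_lt hy]⟩
  have h1 := Nat.find_spec hex
  have h2 : Nat.find hex ≤ P := Nat.find_min' hex (by
    rw [Nat.div_eq_of_lt (h.trans hy), Nat.div_eq_of_lt hy])
  have h0 : Nat.find hex ≠ 0 := by
    intro h0
    rw [h0] at h1
    simp at h1
    omega
  obtain ⟨t, ht⟩ := Nat.exists_eq_succ_of_ne_zero h0
  refine ⟨t, by omega, ?_, ?_⟩
  · rw [ht] at h1
    exact h1
  · have h3 := Nat.find_min hex (m := t) (by omega)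
    have h4 : x / 2 ^ t ≤ y / 2 ^ t := Nat.div_le_div_right h.le
    omega

theorem topDiff_unique {t t' x y : ℕ} (h : topDiff t x y) (h' : topDiff t' x y) : t = t' := by
  by_contra hne
  rcases Nat.lt_or_gt_of_ne hne with hlt | hlt
  · -- `t < t'`
    have h1 : x / 2 ^ t' = y / 2 ^ t' := by
      have e : t' = (t + 1) + (t' - (t + 1)) := by omega
      rw [e, pow_add, ← Nat.div_div_eq_div_mul, ← Nat.div_div_eq_div_mul, h.1]
    have := h'.2
    omega
  · have h1 : x / 2 ^ t = y / 2 ^ t := by
      have e : t = (t' + 1) + (t - (t' + 1)) := by omega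
      rw [e, pow_add, ← Nat.div_div_eq_div_mul, ← Nat.div_div_eq_div_mul, h'.1]
    have := h.2
    omega

theorem delBit_lt_delBit {P t x y : ℕ} (h : x < y) (ht : ¬ topDiff t x y) (_ : t < P) :
    delBit t x < delBit t y := by
  unfold delBit
  have e : ∀ z : ℕ, z / 2 ^ t / 2 = z / 2 ^ (t + 1) := by
    intro z
    rw [Nat.div_div_eq_div_mul, pow_succ]
  have h1 : x / 2 ^ t ≤ y / 2 ^ t := Nat.div_le_div_right h.le
  have hx := Nat.div_add_mod x (2 ^ t)
  have hy := Nat.div_add_mod y (2 ^ t)
  have mx : x % 2 ^ t < 2 ^ t := Nat.mod_lt _ (by positivity)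
  have my : y % 2 ^ t < 2 ^ t := Nat.mod_lt _ (by positivity)
  unfold topDiff at ht
  rw [not_and_or, not_lt] at ht
  rcases Nat.lt_or_ge (x / 2 ^ (t + 1)) (y / 2 ^ (t + 1)) with h2 | h2
  · have h3 : (x / 2 ^ (t + 1) + 1) * 2 ^ t ≤ y / 2 ^ (t + 1) * 2 ^ t := Nat.mul_le_mul_right _ h2
    rw [add_mul, one_mul] at h3
    omega
  · have h3 : x / 2 ^ (t + 1) = y / 2 ^ (t + 1) := le_antisymm (Nat.div_le_div_right h.le) h2
    rcases ht with ht | ht
    · exact absurd h3 ht
    · have h4 : x / 2 ^ t = y / 2 ^ t := le_antisymm h1 ht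
      rw [h3]
      rw [h4] at hx
      omega

open Classical in
/-- Valiant's lemma: the edges of a graph with levels below `2 ^ P` -/
theorem valiant (E : Finset (ℕ × ℕ)) (P : ℕ) (lev : ℕ → ℕ)
    (hE : ∀ e ∈ E, lev e.1 < lev e.2 ∧ lev e.2 < 2 ^ P) : ∀ r, r ≤ P →
    ∃ (K : Finset ℕ) (lev' : ℕ → ℕ), K.card * (P - r + 1) ≤ r * E.card ∧
      (∀ e ∈ E, e.1 ∉ K → e.2 ∉ K → lev' e.1 < lev' e.2) ∧
      (∀ x, lev x < 2 ^ P → lev' x < 2 ^ (P - r)) := by
  intro r
  induction r with
  | zero =>
    intro _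
    exact ⟨∅, lev, by simp, fun e he _ _ => (hE e he).1, fun x hx => by simpa using hx⟩
  | succ r ih =>
    intro hr
    obtain ⟨K, lev', h1, h2, h3⟩ := ih (by omega)
    set Q := P - r with hQ
    have hQ1 : 1 ≤ Q := by omega
    -- the edges that remain
    set E' := E.filter (fun e => e.1 ∉ K ∧ e.2 ∉ K) with hE'
    -- a digit with few edges
    have hpig : ∃ t, t < Q ∧
        (E'.filter (fun e => topDiff t (lev' e.1) (lev' e.2))).card * Q ≤ E.card := by
      by_contra hcon
      push Not at hcon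
      have h4 : (∑ t ∈ Finset.range Q,
          (E'.filter (fun e => topDiff t (lev' e.1) (lev' e.2))).card) ≤ E'.card := by
        rw [← Finset.card_biUnion]
        · refine Finset.card_le_card fun e he => ?_
          rw [Finset.mem_biUnion] at he
          obtain ⟨t, _, he⟩ := he
          exact (Finset.mem_filter.1 he).1
        · intro t _ t' _ hne
          change Disjoint _ _
          rw [Finset.disjoint_left]
          intro e he he'
          exact hne (topDiff_unique (Finset.mem_filter.1 he).2 (Finset.mem_filter.1 he').2)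
      have h5 : E'.card ≤ E.card := Finset.card_filter_le _ _
      have h6 : ∑ t ∈ Finset.range Q, (E.card + 1) ≤ ∑ t ∈ Finset.range Q,
          (E'.filter (fun e => topDiff t (lev' e.1) (lev' e.2))).card * Q :=
        Finset.sum_le_sum fun t ht => hcon t (Finset.mem_range.1 ht)
      rw [← Finset.sum_mul, Finset.sum_const, Finset.card_range, smul_eq_mul] at h6
      have h7 := Nat.mul_le_mul_right Q (h4.trans h5)
      nlinarith
    obtain ⟨t, ht, hcard⟩ := hpig
    set X := (E'.filter (fun e => topDiff t (lev' e.1) (lev' e.2))).image Prod.snd with hX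
    have hXc : X.card ≤ (E'.filter (fun e => topDiff t (lev' e.1) (lev' e.2))).card :=
      Finset.card_image_le
    refine ⟨K ∪ X, fun x => delBit t (lev' x), ?_, ?_, ?_⟩
    · have h4 : (K ∪ X).card ≤ K.card + X.card := Finset.card_union_le _ _
      have h5 : P - (r + 1) + 1 = Q := by omega
      rw [h5]
      have h6 : X.card * Q ≤ E.card := (Nat.mul_le_mul_right _ hXc).trans hcard
      have h7 : K.card * Q ≤ r * E.card := (Nat.mul_le_mul_left _ (by omega)).trans h1
      have h8 : (K ∪ X).card * Q ≤ (K.card + X.card) * Q := Nat.mul_le_mul_right _ h4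
      nlinarith
    · intro e he he1 he2
      rw [Finset.mem_union, not_or] at he1 he2
      refine delBit_lt_delBit (P := Q) (h2 e he he1.1 he2.1) (fun htop => he2.2 ?_) ht
      rw [hX, Finset.mem_image]
      refine ⟨e, ?_, rfl⟩
      rw [Finset.mem_filter, hE', Finset.mem_filter]
      exact ⟨⟨he, he1.1, he2.1⟩, htop⟩
    · intro x hx
      have h4 := h3 x hx
      have h5 : P - (r + 1) + 1 = Q := by omega
      rw [← h5] at h4 ht
      exact delBit_lt ht h4

variable {F : FregeSystem}

/-- the pairs (variable, extension variable whose definition uses it) -/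
def edges {B : Basis} (D : List (ℕ × Fm B)) : Finset (ℕ × ℕ) :=
  D.foldr (fun p s => p.2.vars.image (fun v => (v, p.1)) ∪ s) ∅

theorem mem_edges {B : Basis} {D : List (ℕ × Fm B)} {e : ℕ × ℕ} :
    e ∈ edges D ↔ ∃ p ∈ D, e.1 ∈ p.2.vars ∧ e.2 = p.1 := by
  induction D with
  | nil => simp [edges]
  | cons q D ih =>
    have h : edges (q :: D) = q.2.vars.image (fun v => (v, q.1)) ∪ edges D := rfl
    rw [h, Finset.mem_union, ih, Finset.mem_image]
    constructor
    · rintro (⟨v, hv, rfl⟩ | ⟨p, hp, h1⟩)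
      · exact ⟨q, List.mem_cons_self, hv, rfl⟩
      · exact ⟨p, List.mem_cons_of_mem _ hp, h1⟩
    · rintro ⟨p, hp, h1, h2⟩
      rcases List.mem_cons.1 hp with rfl | hp
      · exact Or.inl ⟨e.1, h1, by rw [← h2]⟩
      · exact Or.inr ⟨p, hp, h1, h2⟩

theorem card_edges_le {B : Basis} (D : List (ℕ × Fm B)) :
    (edges D).card ≤ (D.map (fun p => p.2.size)).sum := by
  induction D with
  | nil => simp [edges]
  | cons q D ih =>
    have h : edges (q :: D) = q.2.vars.image (fun v => (v, q.1)) ∪ edges D := rfl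
    rw [h, List.map_cons, List.sum_cons]
    refine (Finset.card_union_le _ _).trans (Nat.add_le_add ?_ ih)
    exact Finset.card_image_le.trans (Fm.card_vars_le _)

theorem EDer.sum_le {τ : Fm F.B} {D : List (ℕ × Fm F.B)} {π : List (Fm F.B)}
    (h : EDer F τ D π) : (D.map (fun p => p.2.size)).sum ≤ lsize π := by
  induction h with
  | nil => simp [lsize]
  | rule _ _ _ _ ih =>
    unfold lsize at ih ⊢
    rw [List.map_cons, List.sum_cons]
    omega
  | ext q φ _ _ _ _ ih =>
    unfold lsize at ih ⊢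
    rw [List.map_cons, List.sum_cons, List.map_cons, List.sum_cons]
    have := size_le_eqv_right (F := F) (Fm.var q) φ
    dsimp only
    omega

/-- position of a defined variable -/
def pos {B : Basis} : List (ℕ × Fm B) → ℕ → ℕ
  | [], _ => 0
  | p :: D, v => if v = p.1 then D.length + 1 else pos D v

theorem pos_le {B : Basis} (D : List (ℕ × Fm B)) (v : ℕ) : pos D v ≤ D.length := by
  induction D with
  | nil => simp [pos]
  | cons p D ih =>
    rw [pos]
    split
    · simp
    · rw [List.length_cons]; omega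

theorem Ordered.pos_lt {B : Basis} {D : List (ℕ × Fm B)} (h : Ordered D) :
    ∀ p ∈ D, ∀ v ∈ p.2.vars, pos D v < pos D p.1 := by
  induction h with
  | nil => intro p hp; exact absurd hp List.not_mem_nil
  | @cons D q φ hD hq hqD ih =>
    intro p hp v hv
    rcases List.mem_cons.1 hp with rfl | hp
    · have h1 : v ≠ q := fun he => hq (he ▸ hv)
      simp only [pos, if_neg h1, if_pos]
      have := pos_le D v
      omega
    · have h1 := hqD p hp
      have h2 : v ≠ q := fun he => h1.2 (he ▸ hv)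
      have h3 : p.1 ≠ q := fun he => h1.1 he.symm
      simp only [pos, if_neg h2, if_neg h3]
      exact ih p hp v hv

/-- few variables can be deleted such that the nesting depth becomes small -/
theorem exists_reducible {τ : Fm F.B} {D : List (ℕ × Fm F.B)} {π : List (Fm F.B)}
    (h : EDer F τ D π) {P r : ℕ} (hP : lsize π < 2 ^ P) (hr : r ≤ P) :
    ∃ K : Finset ℕ, K.card * (P - r + 1) ≤ r * lsize π ∧ Reducible D K (2 ^ (P - r)) := by
  have hO := h.ordered
  have hlen : D.length < 2 ^ P := (h.length_le.trans (length_le_lsize π)).trans_lt hP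
  have hpos : ∀ v, pos D v < 2 ^ P := fun v => (pos_le D v).trans_lt hlen
  obtain ⟨K, lev', h1, h2, h3⟩ := valiant (edges D) P (pos D) (fun e he => by
    obtain ⟨p, hp, h4, h5⟩ := mem_edges.1 he
    refine ⟨?_, hpos _⟩
    rw [h5]
    exact hO.pos_lt p hp _ h4) r hr
  refine ⟨K, h1.trans (Nat.mul_le_mul_left _ ((card_edges_le D).trans h.sum_le)), lev', ?_⟩
  intro p hp hK
  refine ⟨h3 _ (hpos _), fun v hv hvK _ => ?_⟩
  exact h2 (v, p.1) (mem_edges.2 ⟨p, hp, hv, rfl⟩) hvK hK

end Pool.Agent.T9h49.FE
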